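import Pool.Agent.H26.KAZ.AZI
import Pool.Agent.H9.K2.Defs2

/-!
# The A-zoom in the class `(a, R)`: property (P7)
-/

set_option autoImplicit false

namespace Pool.KAZ

open Finset Real
open Pool.Agent.H49.Ent Pool.Agent.H32.Dense Pool.STK Pool.KA

variable {m J : ℕ}

/-- The functional of the zoomed family. -/
def AP7Stmt : Prop :=
  ∀ (m : ℕ) (ρ : ℝ), ∃ C : ℝ, 0 ≤ C ∧ ∀ (J J' g : ℕ) (F : Fam m J) (hJ : J' ≤ J)
    (S : Finset (Fin m)) (A A' : F.ζ → Matrix (Fin m) (Fin m) ℝ) (β γ : F.ζ → Fin m → ℝ)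
    (hd : ∀ ω i, |azv S g (A (F.Z ω)) (F.d ω) i - β (F.Z ω) i| ≤ 1) (e a : ℝ),
    J' + g = J → GoodA ρ A A' → F.Tm e → 0 ≤ a →
    (azm F J' hJ S g A β γ hd).Tm e ∧
    F.Ga a + (a - 1) * (S.card * (g * Real.log 2)) - a * (dfc F S g A J' + e + C) - C ≤
      (azm F J' hJ S g A β γ hd).Ga a

/-- **(P7)** In a near-maximiser with saturated rows along the coordinates in `S`, the directions
are not known along the other coordinates. -/
def AP7BStmt : Prop :=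
  ∀ (m : ℕ) (ρ : ℝ), ∃ C : ℝ, 0 ≤ C ∧ ∀ (J J' g : ℕ) (F : Fam m J) (hJ : J' ≤ J)
    (S : Finset (Fin m)) (A A' : F.ζ → Matrix (Fin m) (Fin m) ℝ) (β γ : F.ζ → Fin m → ℝ)
    (hd : ∀ ω i, |azv S g (A (F.Z ω)) (F.d ω) i - β (F.Z ω) i| ≤ 1) (e a R η : ℝ),
    J' + g = J → GoodA ρ A A' → F.Tm e → 0 ≤ a → 0 ≤ η →
    (R - η) * J ≤ F.Ga a → (azm F J' hJ S g A β γ hd).Ga a ≤ (R + η) * J' →
    (R + (a - 1) * (S.card * Real.log 2)) * g ≤
      a * (dfc F S g A J' + e + C) + C + 2 * η * J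

theorem azm_XV (F : Fam m J) (J' : ℕ) (hJ : J' ≤ J) (S : Finset (Fin m)) (g : ℕ)
    (A : F.ζ → Matrix (Fin m) (Fin m) ℝ) (β γ : F.ζ → Fin m → ℝ)
    (hd : ∀ ω i, |azv S g (A (F.Z ω)) (F.d ω) i - β (F.Z ω) i| ≤ 1) {e : ℝ} (he : F.Tm e) {j : ℕ}
    (hj : j ≤ J') :
    CH F.p ((azm F J' hJ S g A β γ hd).X j) (azm F J' hJ S g A β γ hd).W ≤
      CH F.p (XB F S g A j) F.W + cc m + e := by
  have h1 := azm_X F J' hJ S g A β γ hd hj
  have h2 := CH_time F J' hJ ((azm F J' hJ S g A β γ hd).X j) he ?_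
  · have e1 : CH F.p ((azm F J' hJ S g A β γ hd).X j) (azm F J' hJ S g A β γ hd).W =
      CH F.p ((azm F J' hJ S g A β γ hd).X j) (fun ω => (F.T ω / 2 ^ (J - J'), F.Z ω)) := rfl
    rw [e1]
    rw [abs_le] at h1
    linarith [h1.1, h1.2, h2.1, h2.2]
  · intro ω ω' _ _ hh
    have q1 : F.l ω = F.l ω' := (Prod.ext_iff.mp hh).1
    have q2 : F.T ω / 2 ^ (J - J') = F.T ω' / 2 ^ (J - J') :=
      (Prod.ext_iff.mp (Prod.ext_iff.mp hh).2).1
    have q3 : F.Z ω = F.Z ω' := (Prod.ext_iff.mp (Prod.ext_iff.mp hh).2).2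
    have q4 : F.u ω = F.u ω' := (Prod.ext_iff.mp q1).1
    have q5 : F.d ω = F.d ω' := (Prod.ext_iff.mp q1).2
    change fl j (fun i => azv S g (A (F.Z ω)) (F.u ω) i - γ (F.Z ω) i +
        ((F.T ω / 2 ^ (J - J') : ℕ) : ℝ) / 2 ^ J' *
          (azv S g (A (F.Z ω)) (F.d ω) i - β (F.Z ω) i)) =
      fl j (fun i => azv S g (A (F.Z ω')) (F.u ω') i - γ (F.Z ω') i +
        ((F.T ω' / 2 ^ (J - J') : ℕ) : ℝ) / 2 ^ J' *
          (azv S g (A (F.Z ω')) (F.d ω') i - β (F.Z ω') i))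
    rw [q2, q3, q4, q5]

theorem ap7_thm : AP7Stmt := by
  intro m ρ
  set K : ℝ := 2 * m * Real.log 5 + m * Real.log (2 * (|ρ| + 1) + 1) with hK
  have hK0 : 0 ≤ K := by
    have h1 : 0 ≤ Real.log 5 := Real.log_nonneg (by norm_num)
    have h2 : 0 ≤ Real.log (2 * (|ρ| + 1) + 1) := Real.log_nonneg (by linarith [abs_nonneg ρ])
    positivity
  have hcc : 0 ≤ cc m := by
    unfold cc
    exact mul_nonneg (by positivity) (Real.log_nonneg (by norm_num))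
  refine ⟨K + cc m, by linarith, ?_⟩
  intro J J' g F hJ S A A' β γ hd e a hg hA he ha
  refine ⟨azm_Tm F J' hJ S g A β γ hd he, ?_⟩
  have hD := D_azm F J' hJ S g A A' β γ hd hA hg
  have hX := azm_XV F J' hJ S g A β γ hd he le_rfl
  have e1 : (azm F J' hJ S g A β γ hd).Ga a =
      CH F.p ((azm F J' hJ S g A β γ hd).D J') F.Z - a *
        CH F.p ((azm F J' hJ S g A β γ hd).X J') (azm F J' hJ S g A β γ hd).W := rfl
  have e2 : dfc F S g A J' = S.card * (g * Real.log 2) -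
      (CH F.p (F.X J) F.W - CH F.p (XB F S g A J') F.W) := by
    unfold dfc
    rw [hg]
  rw [e1]
  unfold Fam.Ga
  have h3 := mul_le_mul_of_nonneg_left hX ha
  have h4 : a * (dfc F S g A J' + e + (K + cc m)) = a * (S.card * (g * Real.log 2)) -
      a * CH F.p (F.X J) F.W + a * CH F.p (XB F S g A J') F.W + a * e + a * K + a * cc m := by
    rw [e2]
    ring
  have h5 : a * (CH F.p (XB F S g A J') F.W + cc m + e) =
      a * CH F.p (XB F S g A J') F.W + a * cc m + a * e := by ring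
  have h6 : 0 ≤ a * K := mul_nonneg ha hK0
  rw [h4]
  rw [h5] at h3
  linarith

theorem ap7b_thm : AP7BStmt := by
  intro m ρ
  obtain ⟨C, hC, hP⟩ := ap7_thm m ρ
  refine ⟨C, hC, ?_⟩
  intro J J' g F hJ S A A' β γ hd e a R η hg hA he ha hη h1 h2
  obtain ⟨-, h3⟩ := hP J J' g F hJ S A A' β γ hd e a hg hA he ha
  have hJr : (J : ℝ) = J' + g := by
    rw [← hg]
    push_cast
    ring
  rw [hJr] at h1 ⊢
  have h4 : 0 ≤ η * g := mul_nonneg hη (Nat.cast_nonneg g)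
  nlinarith

end Pool.KAZ
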