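import Pool.Agent.H26.KAZ.Defs
import Pool.Agent.H20.KA.TRC

/-!
# The A-zoom: time deficit, boxes and violation
-/

set_option autoImplicit false

namespace Pool.KAZ

open Finset Real
open Pool.Agent.H49.Ent Pool.Agent.H32.Dense Pool.STK Pool.KA

/-- Counting bound for integer vectors with a bound for each coordinate. -/
theorem CH_le_box {Ω T : Type} [Fintype Ω] {d : ℕ} {p : Ω → ℝ} (hp : IsLaw p)
    (X : Ω → Fin d → ℤ) (W : Ω → T) (L : Fin d → ℕ)
    (hX : ∀ ω ω', 0 < p ω → 0 < p ω' → W ω = W ω' → ∀ k, |X ω k - X ω' k| ≤ (L k : ℤ)) :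
    CH p X W ≤ ∑ k, Real.log (2 * L k + 1) := by
  classical
  set F : T → Finset (Fin d → ℤ) := fun w =>
    if h : ∃ ω, 0 < p ω ∧ W ω = w then
      Fintype.piFinset fun k => Finset.Icc (X h.choose k - L k) (X h.choose k + L k)
    else ∅ with hF
  have hmem : ∀ ω, 0 < p ω → X ω ∈ F (W ω) := by
    intro ω hω
    have h : ∃ ω', 0 < p ω' ∧ W ω' = W ω := ⟨ω, hω, rfl⟩
    simp only [hF, dif_pos h]
    rw [Fintype.mem_piFinset]
    intro k
    have h1 := hX ω h.choose hω h.choose_spec.1 h.choose_spec.2.symm k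
    rw [abs_le] at h1
    rw [Finset.mem_Icc]
    constructor <;> linarith [h1.1, h1.2]
  refine (CH_le_card hp.nonneg hp.sum_one X W F hmem).trans ?_
  have hc : ∀ ω, 0 < p ω → Real.log ((F (W ω)).card) ≤ ∑ k, Real.log (2 * L k + 1) := by
    intro ω hω
    have h : ∃ ω', 0 < p ω' ∧ W ω' = W ω := ⟨ω, hω, rfl⟩
    have e1 : ((F (W ω)).card : ℝ) = ∏ k : Fin d, ((2 * L k + 1 : ℕ) : ℝ) := by
      simp only [hF, dif_pos h]
      rw [Fintype.card_piFinset]
      push_cast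
      refine Finset.prod_congr rfl fun k _ => ?_
      rw [Int.card_Icc]
      have e2 : X h.choose k + L k + 1 - (X h.choose k - L k) = ((2 * L k + 1 : ℕ) : ℤ) := by
        push_cast
        ring
      rw [e2, Int.toNat_natCast]
      push_cast
      ring
    rw [e1, Real.log_prod (fun k _ => by positivity)]
    refine le_of_eq (Finset.sum_congr rfl fun k _ => ?_)
    push_cast
    rfl
  refine (Ex_mono hp.nonneg hc).trans ?_
  rw [Ex_const hp.sum_one]

variable {m J : ℕ}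

/-- The position in the zoomed family. -/
lemma azm_x (F : Fam m J) (J' : ℕ) (hJ : J' ≤ J) (S : Finset (Fin m)) (g : ℕ)
    (A : F.ζ → Matrix (Fin m) (Fin m) ℝ) (β γ : F.ζ → Fin m → ℝ)
    (hd : ∀ ω i, |azv S g (A (F.Z ω)) (F.d ω) i - β (F.Z ω) i| ≤ 1) (ω : F.Ω) (i : Fin m) :
    |2 ^ J' * ((azm F J' hJ S g A β γ hd).x ω i -
      (azv S g (A (F.Z ω)) (F.x ω) i - (γ (F.Z ω) i + F.t ω * β (F.Z ω) i)))| ≤ 1 := by
  have e1 : azv S g (A (F.Z ω)) (F.x ω) i =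
      azv S g (A (F.Z ω)) (F.u ω) i + F.t ω * azv S g (A (F.Z ω)) (F.d ω) i := by
    have h1 : F.x ω = fun j => F.u ω j + (fun j => F.t ω * F.d ω j) j := by
      funext j
      rfl
    rw [h1, azv_add, azv_smul]
  have e2 : (azm F J' hJ S g A β γ hd).x ω i = azv S g (A (F.Z ω)) (F.u ω) i - γ (F.Z ω) i +
      ((F.T ω / 2 ^ (J - J') : ℕ) : ℝ) / 2 ^ J' *
        (azv S g (A (F.Z ω)) (F.d ω) i - β (F.Z ω) i) := rfl
  rw [e1, e2]
  have e3 : 2 ^ J' * (azv S g (A (F.Z ω)) (F.u ω) i - γ (F.Z ω) i +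
      ((F.T ω / 2 ^ (J - J') : ℕ) : ℝ) / 2 ^ J' *
        (azv S g (A (F.Z ω)) (F.d ω) i - β (F.Z ω) i) -
      (azv S g (A (F.Z ω)) (F.u ω) i + F.t ω * azv S g (A (F.Z ω)) (F.d ω) i -
        (γ (F.Z ω) i + F.t ω * β (F.Z ω) i))) =
      -((2 ^ J' * F.t ω - ((F.T ω / 2 ^ (J - J') : ℕ) : ℝ)) *
        (azv S g (A (F.Z ω)) (F.d ω) i - β (F.Z ω) i)) := by
    have : (2 : ℝ) ^ J' ≠ 0 := by positivity
    field_simp
    ring
  rw [e3, abs_neg, abs_mul]
  have h0 : (2 : ℝ) ^ J = 2 ^ J' * 2 ^ (J - J') := by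
    rw [← pow_add, Nat.add_sub_cancel' hJ]
  have h1 : 2 ^ J' * F.t ω = (F.T ω : ℝ) / 2 ^ (J - J') := by
    unfold Fam.t
    rw [h0]
    have : (2 : ℝ) ^ J' ≠ 0 := by positivity
    field_simp
  have h2 : |2 ^ J' * F.t ω - ((F.T ω / 2 ^ (J - J') : ℕ) : ℝ)| ≤ 1 := by
    rw [h1]
    have p2 : (0 : ℝ) < 2 ^ (J - J') := by positivity
    have h3 : ((F.T ω / 2 ^ (J - J') : ℕ) : ℝ) ≤ (F.T ω : ℝ) / 2 ^ (J - J') := by
      rw [le_div_iff₀ p2]
      exact_mod_cast Nat.div_mul_le_self _ _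
    have h4 : (F.T ω : ℝ) / 2 ^ (J - J') < ((F.T ω / 2 ^ (J - J') : ℕ) : ℝ) + 1 := by
      rw [div_lt_iff₀ p2]
      exact_mod_cast Nat.lt_mul_of_div_lt (a := F.T ω) (b := F.T ω / 2 ^ (J - J') + 1)
        (c := 2 ^ (J - J')) (Nat.lt_succ_self _) (by positivity)
    rw [abs_le]
    constructor <;> linarith
  calc _ ≤ (1 : ℝ) * 1 := mul_le_mul h2 (hd ω i) (abs_nonneg _) (by norm_num)
    _ = 1 := by norm_num

/-- Smaller scales. -/
lemma small_scale {J' j : ℕ} (h : j ≤ J') {a : ℝ} (ha : |2 ^ J' * a| ≤ 1) : |2 ^ j * a| ≤ 1 := by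
  rw [abs_mul] at ha ⊢
  have h1 : |(2 : ℝ) ^ j| ≤ |2 ^ J'| := by
    rw [abs_of_nonneg (by positivity), abs_of_nonneg (by positivity)]
    exact pow_le_pow_right₀ (by norm_num) h
  exact (mul_le_mul_of_nonneg_right h1 (abs_nonneg _)).trans ha

lemma floor_bd {A B A' B' s : ℝ} (h : ⌊A⌋ = ⌊B⌋) (h1 : |A' - (A - s)| ≤ 1)
    (h2 : |B' - (B - s)| ≤ 1) : |((⌊A'⌋ - ⌊B'⌋ : ℤ) : ℝ)| ≤ 49 := by
  have a1 := Int.floor_le A
  have a2 := Int.lt_floor_add_one A
  have b1 := Int.floor_le B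
  have b2 := Int.lt_floor_add_one B
  have a1' := Int.floor_le A'
  have a2' := Int.lt_floor_add_one A'
  have b1' := Int.floor_le B'
  have b2' := Int.lt_floor_add_one B'
  rw [abs_le] at h1 h2
  rw [h] at a1 a2
  rw [abs_le]
  push_cast
  constructor <;> linarith [h1.1, h1.2, h2.1, h2.2]

/-- Positions in the zoomed family and boxes determine each other, given the time. -/
lemma azm_X (F : Fam m J) (J' : ℕ) (hJ : J' ≤ J) (S : Finset (Fin m)) (g : ℕ)
    (A : F.ζ → Matrix (Fin m) (Fin m) ℝ) (β γ : F.ζ → Fin m → ℝ)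
    (hd : ∀ ω i, |azv S g (A (F.Z ω)) (F.d ω) i - β (F.Z ω) i| ≤ 1) {j : ℕ} (hj : j ≤ J') :
    |CH F.p ((azm F J' hJ S g A β γ hd).X j) F.W - CH F.p (XB F S g A j) F.W| ≤ cc m := by
  have hsh : ∀ ω ω', F.W ω = F.W ω' → ∀ k,
      2 ^ j * (γ (F.Z ω) k + F.t ω * β (F.Z ω) k) =
      2 ^ j * (γ (F.Z ω') k + F.t ω' * β (F.Z ω') k) := by
    intro ω ω' h k
    have h1 : F.T ω = F.T ω' := (Prod.ext_iff.mp h).1
    have h2 : F.Z ω = F.Z ω' := (Prod.ext_iff.mp h).2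
    unfold Fam.t
    rw [h1, h2]
  have hcl : ∀ ω k, |2 ^ j * (azm F J' hJ S g A β γ hd).x ω k -
      (2 ^ j * azv S g (A (F.Z ω)) (F.x ω) k -
        2 ^ j * (γ (F.Z ω) k + F.t ω * β (F.Z ω) k))| ≤ 1 := by
    intro ω k
    have h1 := small_scale hj (azm_x F J' hJ S g A β γ hd ω k)
    have e : 2 ^ j * (azm F J' hJ S g A β γ hd).x ω k -
      (2 ^ j * azv S g (A (F.Z ω)) (F.x ω) k -
        2 ^ j * (γ (F.Z ω) k + F.t ω * β (F.Z ω) k)) =
      2 ^ j * ((azm F J' hJ S g A β γ hd).x ω k -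
      (azv S g (A (F.Z ω)) (F.x ω) k - (γ (F.Z ω) k + F.t ω * β (F.Z ω) k))) := by ring
    rw [e]
    exact h1
  have a1 : CH F.p ((azm F J' hJ S g A β γ hd).X j) F.W ≤ CH F.p (XB F S g A j) F.W + cc m := by
    refine TRC.CH_le_round F.isLaw _ _ _ fun ω ω' _ _ hW h k => ?_
    have h1 : ⌊2 ^ j * azv S g (A (F.Z ω)) (F.x ω) k⌋ =
        ⌊2 ^ j * azv S g (A (F.Z ω')) (F.x ω') k⌋ := congrFun h k
    have h2 := hcl ω k
    have h3 := hcl ω' k
    rw [hsh ω ω' hW k] at h2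
    exact floor_bd h1 h2 h3
  have a2 : CH F.p (XB F S g A j) F.W ≤ CH F.p ((azm F J' hJ S g A β γ hd).X j) F.W + cc m := by
    refine TRC.CH_le_round F.isLaw _ _ _ fun ω ω' _ _ hW h k => ?_
    have h1 : ⌊2 ^ j * (azm F J' hJ S g A β γ hd).x ω k⌋ =
        ⌊2 ^ j * (azm F J' hJ S g A β γ hd).x ω' k⌋ := congrFun h k
    have h2 := hcl ω k
    have h3 := hcl ω' k
    rw [hsh ω ω' hW k] at h2
    refine floor_bd (s := -(2 ^ j * (γ (F.Z ω') k + F.t ω' * β (F.Z ω') k))) h1 ?_ ?_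
    · rw [abs_sub_comm]
      have e : 2 ^ j * (azm F J' hJ S g A β γ hd).x ω k -
          -(2 ^ j * (γ (F.Z ω') k + F.t ω' * β (F.Z ω') k)) -
          2 ^ j * azv S g (A (F.Z ω)) (F.x ω) k = 2 ^ j * (azm F J' hJ S g A β γ hd).x ω k -
          (2 ^ j * azv S g (A (F.Z ω)) (F.x ω) k -
            2 ^ j * (γ (F.Z ω') k + F.t ω' * β (F.Z ω') k)) := by ring
      rw [e]
      exact h2
    · rw [abs_sub_comm]
      have e : 2 ^ j * (azm F J' hJ S g A β γ hd).x ω' k -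
          -(2 ^ j * (γ (F.Z ω') k + F.t ω' * β (F.Z ω') k)) -
          2 ^ j * azv S g (A (F.Z ω')) (F.x ω') k = 2 ^ j * (azm F J' hJ S g A β γ hd).x ω' k -
          (2 ^ j * azv S g (A (F.Z ω')) (F.x ω') k -
            2 ^ j * (γ (F.Z ω') k + F.t ω' * β (F.Z ω') k)) := by ring
      rw [e]
      exact h3
  rw [abs_le]
  constructor <;> linarith

/-- The time deficit of the zoomed family. -/
lemma azm_Tm (F : Fam m J) (J' : ℕ) (hJ : J' ≤ J) (S : Finset (Fin m)) (g : ℕ)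
    (A : F.ζ → Matrix (Fin m) (Fin m) ℝ) (β γ : F.ζ → Fin m → ℝ)
    (hd : ∀ ω i, |azv S g (A (F.Z ω)) (F.d ω) i - β (F.Z ω) i| ≤ 1) {e : ℝ} (he : F.Tm e) :
    (azm F J' hJ S g A β γ hd).Tm e := by
  have hp := F.isLaw
  have hp0 := hp.nonneg
  set T' : F.Ω → ℕ := fun ω => F.T ω / 2 ^ (J - J') with hT'
  have c1 := CH_le_add hp0 F.T T' (fun ω => (F.l ω, F.Z ω))
  have c2 : CH F.p F.T (fun ω => (T' ω, (F.l ω, F.Z ω))) ≤ ((J - J' : ℕ) : ℝ) * Real.log 2 :=
    TRC.CH_div hp F.T (fun ω => (F.l ω, F.Z ω)) (J - J')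
  have c3 : CH F.p T' (fun ω => (F.l ω, F.Z ω)) ≤
      CH F.p T' (fun ω => ((azm F J' hJ S g A β γ hd).l ω, F.Z ω)) := by
    refine CH_mono_cond hp0 ?_
    intro ω ω' _ _ h
    have h1 : F.l ω = F.l ω' := (Prod.ext_iff.mp h).1
    have h2 : F.Z ω = F.Z ω' := (Prod.ext_iff.mp h).2
    have h3 : F.u ω = F.u ω' := (Prod.ext_iff.mp h1).1
    have h4 : F.d ω = F.d ω' := (Prod.ext_iff.mp h1).2
    refine Prod.ext (Prod.ext ?_ ?_) h2
    · funext i
      change azv S g (A (F.Z ω)) (F.u ω) i - γ (F.Z ω) i =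
        azv S g (A (F.Z ω')) (F.u ω') i - γ (F.Z ω') i
      rw [h2, h3]
    · funext i
      change azv S g (A (F.Z ω)) (F.d ω) i - β (F.Z ω) i =
        azv S g (A (F.Z ω')) (F.d ω') i - β (F.Z ω') i
      rw [h2, h4]
  unfold Fam.Tm at he ⊢
  have e1 : ((J - J' : ℕ) : ℝ) = (J : ℝ) - J' := by rw [Nat.cast_sub hJ]
  rw [e1] at c2
  change (J' : ℝ) * Real.log 2 - e ≤
    CH F.p T' (fun ω => ((azm F J' hJ S g A β γ hd).l ω, F.Z ω))
  nlinarith

/-- For functions of the line, the coarse time and the side information, the fine time does not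
matter. -/
lemma CH_time (F : Fam m J) (J' : ℕ) (hJ : J' ≤ J) {U : Type} (Y : F.Ω → U) {e : ℝ}
    (he : F.Tm e)
    (hY : Det F.p (fun ω => (F.l ω, (F.T ω / 2 ^ (J - J'), F.Z ω))) Y) :
    CH F.p Y F.W ≤ CH F.p Y (fun ω => (F.T ω / 2 ^ (J - J'), F.Z ω)) ∧
    CH F.p Y (fun ω => (F.T ω / 2 ^ (J - J'), F.Z ω)) ≤ CH F.p Y F.W + e := by
  have hp := F.isLaw
  have hp0 := hp.nonneg
  set T' : F.Ω → ℕ := fun ω => F.T ω / 2 ^ (J - J') with hT'
  have hdet : ∀ ω ω', F.T ω = F.T ω' → T' ω = T' ω' := by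
    intro ω ω' h
    simp only [hT', h]
  have e1 : ((J - J' : ℕ) : ℝ) = (J : ℝ) - J' := by rw [Nat.cast_sub hJ]
  have hlt : ∀ ω, T' ω < 2 ^ J' := by
    intro ω
    simp only [hT']
    rw [Nat.div_lt_iff_lt_mul (by positivity), ← pow_add]
    have h := F.tim ω
    have e : J' + (J - J') = J := Nat.add_sub_cancel' hJ
    rwa [e]
  have c1 := CH_le_add hp0 F.T T' (fun ω => (F.l ω, F.Z ω))
  have c3 : CH F.p T' (fun ω => (F.l ω, F.Z ω)) ≤ J' * Real.log 2 := TRC.CH_lt hp T' _ J' hlt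
  have c4 : CH F.p F.T (fun ω => (T' ω, F.Z ω)) ≤ ((J - J' : ℕ) : ℝ) * Real.log 2 :=
    TRC.CH_div hp F.T F.Z (J - J')
  have d1 : CH F.p Y (fun ω => (F.T ω, (T' ω, F.Z ω))) = CH F.p Y F.W := by
    refine CH_congr hp0 (fun _ _ _ _ h => (Prod.ext_iff.mp h).1)
      (fun _ _ _ _ h => (Prod.ext_iff.mp h).1) ?_ ?_
    · intro ω ω' _ _ h
      have h1 := Prod.ext_iff.mp h
      exact Prod.ext h1.1 (Prod.ext_iff.mp h1.2).2
    · intro ω ω' _ _ h
      have h1 : F.T ω = F.T ω' := (Prod.ext_iff.mp h).1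
      have h2 : F.Z ω = F.Z ω' := (Prod.ext_iff.mp h).2
      exact Prod.ext h1 (Prod.ext (hdet ω ω' h1) h2)
  have d2 := CH_bayes hp0 Y F.T (fun ω => (T' ω, F.Z ω))
  have d3 : CH F.p F.T (fun ω => (F.l ω, (T' ω, F.Z ω))) ≤
      CH F.p F.T (fun ω => (Y ω, (T' ω, F.Z ω))) := by
    refine CH_mono_cond hp0 ?_
    intro ω ω' a b h
    exact Prod.ext (hY ω ω' a b h) (Prod.ext_iff.mp h).2
  have d4 : CH F.p F.T (fun ω => (F.l ω, (T' ω, F.Z ω))) =
      CH F.p F.T (fun ω => (T' ω, (F.l ω, F.Z ω))) := by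
    refine CH_congr hp0 (fun _ _ _ _ h => (Prod.ext_iff.mp h).1)
      (fun _ _ _ _ h => (Prod.ext_iff.mp h).1) ?_ ?_
    · intro ω ω' _ _ h
      simp only [Prod.mk.injEq] at h ⊢
      exact ⟨h.2.1, h.1, h.2.2⟩
    · intro ω ω' _ _ h
      simp only [Prod.mk.injEq] at h ⊢
      exact ⟨h.2.1, h.1, h.2.2⟩
  have d5 : CH F.p Y F.W ≤ CH F.p Y (fun ω => (T' ω, F.Z ω)) := by
    refine CH_mono_cond hp0 ?_
    intro ω ω' _ _ h
    have h1 : F.T ω = F.T ω' := (Prod.ext_iff.mp h).1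
    have h2 : F.Z ω = F.Z ω' := (Prod.ext_iff.mp h).2
    exact Prod.ext (hdet ω ω' h1) h2
  refine ⟨d5, ?_⟩
  unfold Fam.Tm at he
  rw [d1] at d2
  rw [e1] at c4
  change CH F.p Y (fun ω => (T' ω, F.Z ω)) ≤ CH F.p Y F.W + e
  have c5 : (J : ℝ) * Real.log 2 - e - J' * Real.log 2 ≤
      CH F.p F.T (fun ω => (T' ω, (F.l ω, F.Z ω))) := by linarith
  nlinarith

/-- Coordinates of differences. -/
lemma azv_close (S : Finset (Fin m)) (g : ℕ) (A : Matrix (Fin m) (Fin m) ℝ)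
    (hA : ∀ i, ∑ j, |A i j| ≤ 1) {x y : Fin m → ℝ} {r : ℝ} (h : ∀ j, |x j - y j| ≤ r)
    (i : Fin m) : |azv S g A x i - azv S g A y i| ≤ 2 ^ g * r := by
  have hr : 0 ≤ r ∨ m = 0 := by
    rcases Nat.eq_zero_or_pos m with h0 | h0
    · right; exact h0
    · left; exact (abs_nonneg _).trans (h ⟨0, h0⟩)
  rcases hr with hr | hm
  swap
  · subst hm
    exact i.elim0
  have e1 : azv S g A x i - azv S g A y i =
      2 ^ (if i ∈ S then 0 else g) * ∑ j, A i j * (x j - y j) := by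
    unfold azv
    rw [← mul_sub, ← Finset.sum_sub_distrib]
    have : ∑ j, (A i j * x j - A i j * y j) = ∑ j, A i j * (x j - y j) :=
      Finset.sum_congr rfl fun j _ => by ring
    rw [this]
  rw [e1, abs_mul, abs_of_nonneg (a := (2 : ℝ) ^ (if i ∈ S then 0 else g)) (by positivity)]
  have h1 : |∑ j, A i j * (x j - y j)| ≤ r := by
    calc |∑ j, A i j * (x j - y j)| ≤ ∑ j, |A i j * (x j - y j)| :=
          Finset.abs_sum_le_sum_abs _ _
      _ ≤ ∑ j, |A i j| * r := by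
          refine Finset.sum_le_sum fun j _ => ?_
          rw [abs_mul]
          exact mul_le_mul_of_nonneg_left (h j) (abs_nonneg _)
      _ = (∑ j, |A i j|) * r := by rw [Finset.sum_mul]
      _ ≤ 1 * r := mul_le_mul_of_nonneg_right (hA i) hr
      _ = r := one_mul r
  have h2 : (2 : ℝ) ^ (if i ∈ S then 0 else g) ≤ 2 ^ g := by
    refine pow_le_pow_right₀ (by norm_num) ?_
    split_ifs <;> omega
  exact mul_le_mul h2 h1 (abs_nonneg _) (by positivity)

/-- Fine positions from coarse coordinates: the coordinates in `S` miss `g` digits. -/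
lemma fine_le {Ω ζ U : Type} [Fintype Ω] {p : Ω → ℝ} (hp : IsLaw p) (Z : Ω → ζ)
    (S : Finset (Fin m)) (g : ℕ) (A A' : ζ → Matrix (Fin m) (Fin m) ℝ) {ρ : ℝ}
    (hA : GoodA ρ A A') (n : ℕ) (x : Ω → Fin m → ℝ) (W : Ω → U)
    (h : ∀ ω ω', 0 < p ω → 0 < p ω' → W ω = W ω' → Z ω = Z ω' ∧
      ∀ k, |2 ^ n * (∑ j, A (Z ω) k j * x ω j) - 2 ^ n * ∑ j, A (Z ω') k j * x ω' j| ≤
        if k ∈ S then 2 ^ g else 1) :
    CH p (fun ω => fl n (x ω)) W ≤ S.card * (g * Real.log 2) +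
      (2 * m * Real.log 5 + m * Real.log (2 * (|ρ| + 1) + 1)) := by
  classical
  have hp0 := hp.nonneg
  set AX : Ω → Fin m → ℤ := fun ω => fl n (fun k => ∑ j, A (Z ω) k j * x ω j) with hAX
  have c1 := CH_le_add hp0 (fun ω => fl n (x ω)) AX W
  have c2 : CH p AX W ≤ S.card * (g * Real.log 2) + 2 * m * Real.log 5 := by
    refine (CH_le_box hp AX W (fun k => if k ∈ S then 2 ^ g + 1 else 2) ?_).trans ?_
    · intro ω ω' a b hW k
      have h1 := (h ω ω' a b hW).2 k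
      have h2 := floor_sub_le_pair (2 ^ n * (∑ j, A (Z ω) k j * x ω j))
        (2 ^ n * ∑ j, A (Z ω') k j * x ω' j)
      have h3 : |((AX ω k - AX ω' k : ℤ) : ℝ)| ≤ (if k ∈ S then 2 ^ g else 1) + 1 :=
        h2.trans (by linarith)
      have h4 : |((AX ω k - AX ω' k : ℤ) : ℝ)| ≤
          ((if k ∈ S then 2 ^ g + 1 else 2 : ℕ) : ℝ) := by
        refine h3.trans (le_of_eq ?_)
        split_ifs
        · push_cast
          ring
        · norm_num
      have h5 : ((|AX ω k - AX ω' k| : ℤ) : ℝ) ≤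
          (((if k ∈ S then 2 ^ g + 1 else 2 : ℕ) : ℤ) : ℝ) := by
        rw [Int.cast_abs]
        exact_mod_cast h4
      exact_mod_cast h5
    · have h1 : ∀ k : Fin m, Real.log (2 * ((if k ∈ S then 2 ^ g + 1 else 2 : ℕ) : ℝ) + 1) ≤
          (if k ∈ S then g * Real.log 2 + Real.log 5 else Real.log 5) := by
        intro k
        split_ifs
        · have e1 : (1 : ℝ) ≤ 2 ^ g := one_le_pow₀ (by norm_num)
          calc Real.log (2 * ((2 ^ g + 1 : ℕ) : ℝ) + 1) ≤ Real.log (2 ^ g * 5) := by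
                refine Real.log_le_log (by positivity) ?_
                push_cast
                linarith
            _ = g * Real.log 2 + Real.log 5 := by
                rw [Real.log_mul (by positivity) (by norm_num), Real.log_pow]
        · refine Real.log_le_log (by norm_num) (by norm_num)
      have h5 : 0 ≤ Real.log 5 := Real.log_nonneg (by norm_num)
      refine (Finset.sum_le_sum fun k _ => h1 k).trans ?_
      have e2 : ∀ k : Fin m, (if k ∈ S then g * Real.log 2 + Real.log 5 else Real.log 5) =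
          (if k ∈ S then g * Real.log 2 else 0) + Real.log 5 := by
        intro k
        split_ifs
        · rfl
        · ring
      simp only [e2]
      rw [Finset.sum_add_distrib, ← Finset.sum_filter, Finset.sum_const, Finset.sum_const,
        Finset.card_univ, Fintype.card_fin, nsmul_eq_mul, nsmul_eq_mul]
      have e3 : Finset.univ.filter (fun k => k ∈ S) = S := by
        ext k
        simp
      rw [e3]
      nlinarith [mul_nonneg (Nat.cast_nonneg (α := ℝ) m) h5]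
  have c3 : CH p (fun ω => fl n (x ω)) (fun ω => (AX ω, W ω)) ≤
      m * Real.log (2 * (|ρ| + 1) + 1) := by
    have h1 := CH_le_vec hp0 hp.sum_one (fun ω => fl n (x ω)) (fun ω => (AX ω, W ω))
      (fun _ => |ρ| + 1) ?_
    · rwa [Ex_const hp.sum_one] at h1
    · intro ω ω' a b hh i
      have hW : W ω = W ω' := (Prod.ext_iff.mp hh).2
      have hX : AX ω = AX ω' := (Prod.ext_iff.mp hh).1
      have hZ := (h ω ω' a b hW).1
      have h2 : ∀ k, |2 ^ n * (∑ j, A (Z ω) k j * x ω j) -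
          2 ^ n * ∑ j, A (Z ω) k j * x ω' j| ≤ 1 := by
        intro k
        have h3 : ⌊2 ^ n * (∑ j, A (Z ω) k j * x ω j)⌋ =
            ⌊2 ^ n * ∑ j, A (Z ω') k j * x ω' j⌋ := congrFun hX k
        rw [← hZ] at h3
        exact (Int.abs_sub_lt_one_of_floor_eq_floor h3).le
      have h4 : ∀ y : Fin m → ℝ, ∀ i, y i = ∑ k, A' (Z ω) i k * ∑ j, A (Z ω) k j * y j := by
        intro y i
        have h5 : (A' (Z ω)).mulVec ((A (Z ω)).mulVec y) = y := by
          rw [Matrix.mulVec_mulVec, hA.2.2, Matrix.one_mulVec]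
        have h6 := congrFun h5 i
        simp only [Matrix.mulVec, dotProduct] at h6
        exact h6.symm
      have h7 : 2 ^ n * x ω i - 2 ^ n * x ω' i = ∑ k, A' (Z ω) i k *
          (2 ^ n * (∑ j, A (Z ω) k j * x ω j) - 2 ^ n * ∑ j, A (Z ω) k j * x ω' j) := by
        rw [h4 (x ω) i, h4 (x ω') i, Finset.mul_sum, Finset.mul_sum, ← Finset.sum_sub_distrib]
        refine Finset.sum_congr rfl fun k _ => ?_
        ring
      have h8 : |2 ^ n * x ω i - 2 ^ n * x ω' i| ≤ |ρ| := by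
        rw [h7]
        calc |∑ k, A' (Z ω) i k * (2 ^ n * (∑ j, A (Z ω) k j * x ω j) -
              2 ^ n * ∑ j, A (Z ω) k j * x ω' j)| ≤
            ∑ k, |A' (Z ω) i k * (2 ^ n * (∑ j, A (Z ω) k j * x ω j) -
              2 ^ n * ∑ j, A (Z ω) k j * x ω' j)| := Finset.abs_sum_le_sum_abs _ _
          _ ≤ ∑ k, |A' (Z ω) i k| := by
              refine Finset.sum_le_sum fun k _ => ?_
              rw [abs_mul]
              calc _ ≤ |A' (Z ω) i k| * 1 := mul_le_mul_of_nonneg_left (h2 k) (abs_nonneg _)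
                _ = |A' (Z ω) i k| := mul_one _
          _ ≤ ρ := hA.2.1 _ i
          _ ≤ |ρ| := le_abs_self ρ
      have h9 := floor_sub_le_pair (2 ^ n * x ω i) (2 ^ n * x ω' i)
      exact h9.trans (by linarith)
  have c4 := CH_mono_cond (p := p) hp0 (X := fun ω => fl n (x ω)) (W := fun ω => (AX ω, W ω))
    (W' := fun ω => (AX ω, W ω)) (fun _ _ _ _ h => h)
  linarith

/-- Positions and boxes. -/
lemma X_XB (F : Fam m J) (S : Finset (Fin m)) (g : ℕ) (A A' : F.ζ → Matrix (Fin m) (Fin m) ℝ)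
    {ρ : ℝ} (hA : GoodA ρ A A') (j : ℕ) :
    CH F.p (XB F S g A j) F.W ≤ CH F.p (F.X (j + g)) F.W + cc m ∧
    CH F.p (F.X (j + g)) F.W ≤ CH F.p (XB F S g A j) F.W + S.card * (g * Real.log 2) +
      (2 * m * Real.log 5 + m * Real.log (2 * (|ρ| + 1) + 1)) := by
  classical
  constructor
  · refine TRC.CH_le_round F.isLaw _ _ _ fun ω ω' _ _ hW h k => ?_
    have hZ : F.Z ω = F.Z ω' := (Prod.ext_iff.mp hW).2
    have h1 : ∀ i, |F.x ω i - F.x ω' i| ≤ 1 / 2 ^ (j + g) := by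
      intro i
      have h2 : ⌊2 ^ (j + g) * F.x ω i⌋ = ⌊2 ^ (j + g) * F.x ω' i⌋ := congrFun h i
      have h3 := (Int.abs_sub_lt_one_of_floor_eq_floor h2).le
      rw [← mul_sub, abs_mul, abs_of_nonneg (a := (2 : ℝ) ^ (j + g)) (by positivity)] at h3
      rw [le_div_iff₀ (by positivity)]
      linarith
    have h4 := azv_close S g (A (F.Z ω)) (hA.1 _) h1 k
    have h5 : |2 ^ j * azv S g (A (F.Z ω)) (F.x ω) k -
        2 ^ j * azv S g (A (F.Z ω)) (F.x ω') k| ≤ 1 := by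
      rw [← mul_sub, abs_mul, abs_of_nonneg (a := (2 : ℝ) ^ j) (by positivity)]
      calc (2 : ℝ) ^ j * |azv S g (A (F.Z ω)) (F.x ω) k - azv S g (A (F.Z ω)) (F.x ω') k| ≤
          2 ^ j * (2 ^ g * (1 / 2 ^ (j + g))) := mul_le_mul_of_nonneg_left h4 (by positivity)
        _ = 1 := by
            rw [pow_add]
            field_simp
    have h6 := floor_sub_le_pair (2 ^ j * azv S g (A (F.Z ω)) (F.x ω) k)
      (2 ^ j * azv S g (A (F.Z ω)) (F.x ω') k)
    have h7 : XB F S g A j ω' k = ⌊2 ^ j * azv S g (A (F.Z ω)) (F.x ω') k⌋ := by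
      rw [hZ]
      rfl
    have h8 : XB F S g A j ω k = ⌊2 ^ j * azv S g (A (F.Z ω)) (F.x ω) k⌋ := rfl
    rw [h7, h8]
    exact h6.trans (by linarith)
  · have c1 := CH_le_add F.isLaw.nonneg (F.X (j + g)) (XB F S g A j) F.W
    have c2 := fine_le F.isLaw F.Z S g A A' hA (j + g) F.x (fun ω => (XB F S g A j ω, F.W ω)) ?_
    · have e1 : CH F.p (fun ω => fl (j + g) (F.x ω)) (fun ω => (XB F S g A j ω, F.W ω)) =
          CH F.p (F.X (j + g)) (fun ω => (XB F S g A j ω, F.W ω)) := rfl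
      rw [e1] at c2
      linarith
    · intro ω ω' _ _ hh
      have hX : XB F S g A j ω = XB F S g A j ω' := (Prod.ext_iff.mp hh).1
      have hW : F.W ω = F.W ω' := (Prod.ext_iff.mp hh).2
      have hZ : F.Z ω = F.Z ω' := (Prod.ext_iff.mp hW).2
      refine ⟨hZ, fun k => ?_⟩
      have h1 : ⌊2 ^ j * azv S g (A (F.Z ω)) (F.x ω) k⌋ =
          ⌊2 ^ j * azv S g (A (F.Z ω')) (F.x ω') k⌋ := congrFun hX k
      have h2 := (Int.abs_sub_lt_one_of_floor_eq_floor h1).le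
      unfold azv at h2
      split_ifs at h2 ⊢ with hk
      · rw [pow_zero, one_mul, one_mul] at h2
        rw [← mul_sub] at h2 ⊢
        rw [pow_add, mul_comm ((2 : ℝ) ^ j), mul_assoc, abs_mul,
          abs_of_nonneg (a := (2 : ℝ) ^ g) (by positivity)]
        calc _ ≤ (2 : ℝ) ^ g * 1 := mul_le_mul_of_nonneg_left h2 (by positivity)
          _ = 2 ^ g := mul_one _
      · rw [← mul_assoc, ← mul_assoc, ← pow_add] at h2
        exact h2

/-- Directions. -/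
lemma D_azm (F : Fam m J) (J' : ℕ) (hJ : J' ≤ J) (S : Finset (Fin m)) (g : ℕ)
    (A A' : F.ζ → Matrix (Fin m) (Fin m) ℝ) (β γ : F.ζ → Fin m → ℝ)
    (hd : ∀ ω i, |azv S g (A (F.Z ω)) (F.d ω) i - β (F.Z ω) i| ≤ 1)
    {ρ : ℝ} (hA : GoodA ρ A A') (hg : J' + g = J) :
    CH F.p (F.D J) F.Z ≤ CH F.p ((azm F J' hJ S g A β γ hd).D J') F.Z +
      S.card * (g * Real.log 2) +
      (2 * m * Real.log 5 + m * Real.log (2 * (|ρ| + 1) + 1)) := by
  classical
  have c1 := CH_le_add F.isLaw.nonneg (F.D J) ((azm F J' hJ S g A β γ hd).D J') F.Z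
  have c2 := fine_le F.isLaw F.Z S g A A' hA J F.d
    (fun ω => ((azm F J' hJ S g A β γ hd).D J' ω, F.Z ω)) ?_
  · have e1 : CH F.p (fun ω => fl J (F.d ω))
        (fun ω => ((azm F J' hJ S g A β γ hd).D J' ω, F.Z ω)) =
        CH F.p (F.D J) (fun ω => ((azm F J' hJ S g A β γ hd).D J' ω, F.Z ω)) := rfl
    rw [e1] at c2
    linarith
  · intro ω ω' _ _ hh
    have hX : (azm F J' hJ S g A β γ hd).D J' ω = (azm F J' hJ S g A β γ hd).D J' ω' :=
      (Prod.ext_iff.mp hh).1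
    have hZ : F.Z ω = F.Z ω' := (Prod.ext_iff.mp hh).2
    refine ⟨hZ, fun k => ?_⟩
    have h1 : ⌊2 ^ J' * (azv S g (A (F.Z ω)) (F.d ω) k - β (F.Z ω) k)⌋ =
        ⌊2 ^ J' * (azv S g (A (F.Z ω')) (F.d ω') k - β (F.Z ω') k)⌋ := congrFun hX k
    have h2 := (Int.abs_sub_lt_one_of_floor_eq_floor h1).le
    have h3 : 2 ^ J' * (azv S g (A (F.Z ω)) (F.d ω) k - β (F.Z ω) k) -
        2 ^ J' * (azv S g (A (F.Z ω')) (F.d ω') k - β (F.Z ω') k) =
        2 ^ J' * azv S g (A (F.Z ω)) (F.d ω) k - 2 ^ J' * azv S g (A (F.Z ω')) (F.d ω') k := by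
      rw [hZ]
      ring
    rw [h3] at h2
    unfold azv at h2
    have e0 : (2 : ℝ) ^ J = 2 ^ J' * 2 ^ g := by rw [← pow_add, hg]
    rw [e0]
    split_ifs at h2 ⊢ with hk
    · rw [pow_zero, one_mul, one_mul] at h2
      rw [← mul_sub] at h2 ⊢
      rw [mul_comm ((2 : ℝ) ^ J'), mul_assoc, abs_mul,
        abs_of_nonneg (a := (2 : ℝ) ^ g) (by positivity)]
      calc _ ≤ (2 : ℝ) ^ g * 1 := mul_le_mul_of_nonneg_left h2 (by positivity)
        _ = 2 ^ g := mul_one _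
    · rw [← mul_assoc, ← mul_assoc] at h2
      exact h2

theorem azi_thm : AZIStmt := by
  intro m ρ
  set K : ℝ := 2 * m * Real.log 5 + m * Real.log (2 * (|ρ| + 1) + 1) with hK
  have hK0 : 0 ≤ K := by
    have h1 : 0 ≤ Real.log 5 := Real.log_nonneg (by norm_num)
    have h2 : 0 ≤ Real.log (2 * (|ρ| + 1) + 1) := Real.log_nonneg (by linarith [abs_nonneg ρ])
    positivity
  have hcc : 0 ≤ cc m := by
    unfold cc
    exact mul_nonneg (by positivity) (Real.log_nonneg (by norm_num))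
  refine ⟨K + cc m, by linarith, ?_⟩
  intro J J' g F hJ S A A' β γ hd e hg hA he
  have he0 : 0 ≤ e := by
    have h1 := TRC.CH_lt F.isLaw F.T (fun ω => (F.l ω, F.Z ω)) J F.tim
    unfold Fam.Tm at he
    linarith
  refine ⟨azm_Tm F J' hJ S g A β γ hd he, ?_, ?_⟩
  · intro j _
    have h := (X_XB F S g A A' hA j).2
    unfold dfc
    linarith
  · have hD := D_azm F J' hJ S g A A' β γ hd hA hg
    refine ⟨CH F.p ((azm F J' hJ S g A β γ hd).D J') F.Z - CH F.p (F.D J) F.Z +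
      S.card * (g * Real.log 2) + K, by linarith, ?_⟩
    intro j hj
    have h1 := azm_X F J' hJ S g A β γ hd hj
    have h2 := CH_time F J' hJ ((azm F J' hJ S g A β γ hd).X j) he ?_
    · have e1 : (azm F J' hJ S g A β γ hd).V j =
          CH F.p ((azm F J' hJ S g A β γ hd).D J') F.Z -
          CH F.p ((azm F J' hJ S g A β γ hd).X j) (fun ω => (F.T ω / 2 ^ (J - J'), F.Z ω)) -
          m * (((J' : ℝ) - j) * Real.log 2) := rfl
      have e2 : F.V (j + g) = CH F.p (F.D J) F.Z - CH F.p (F.X (j + g)) F.W -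
          m * (((J' : ℝ) - j) * Real.log 2) := by
        unfold Fam.V
        have e3 : (J : ℝ) = J' + g := by
          rw [← hg]
          push_cast
          ring
        rw [e3]
        push_cast
        ring
      unfold dfc
      rw [e1, e2]
      rw [abs_le] at h1 ⊢
      constructor <;> linarith [h1.1, h1.2, h2.1, h2.2]
    · intro ω ω' _ _ hh
      have q1 : F.l ω = F.l ω' := (Prod.ext_iff.mp hh).1
      have q2 : F.T ω / 2 ^ (J - J') = F.T ω' / 2 ^ (J - J') :=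
        (Prod.ext_iff.mp (Prod.ext_iff.mp hh).2).1
      have q3 : F.Z ω = F.Z ω' := (Prod.ext_iff.mp (Prod.ext_iff.mp hh).2).2
      have q4 : F.u ω = F.u ω' := (Prod.ext_iff.mp q1).1
      have q5 : F.d ω = F.d ω' := (Prod.ext_iff.mp q1).2
      change fl j (fun i => azv S g (A (F.Z ω)) (F.u ω) i - γ (F.Z ω) i +
          ((F.T ω / 2 ^ (J - J') : ℕ) : ℝ) / 2 ^ J' *
            (azv S g (A (F.Z ω)) (F.d ω) i - β (F.Z ω) i)) =
        fl j (fun i => azv S g (A (F.Z ω')) (F.u ω') i - γ (F.Z ω') i +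
          ((F.T ω' / 2 ^ (J - J') : ℕ) : ℝ) / 2 ^ J' *
            (azv S g (A (F.Z ω')) (F.d ω') i - β (F.Z ω') i))
      rw [q2, q3, q4, q5]

theorem mas2_thm : MAS2Stmt := by
  intro m J J' g w w' μ lam σ η F F' hJ hw hwJ hJ' hη h1 h2
  have hp : (0 : ℝ) < J' := by exact_mod_cast hJ'
  have hg0 : (0 : ℝ) ≤ g := Nat.cast_nonneg g
  have hJr : (J : ℝ) = J' + g := by
    rw [← hJ]
    push_cast
    ring
  have hwr : (w : ℝ) = w' + g := by
    rw [← hw]
    push_cast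
    ring
  have hp2 : (0 : ℝ) < J := by linarith
  unfold Fam.G at h1 h2
  have e1 : (J' : ℝ) - w' = J - w := by rw [hJr, hwr]; ring
  rw [e1] at h2
  set V := F.V w
  set VJ := F.V J
  set V' := F'.V w'
  set VJ' := F'.V J'
  have key : μ * ((J : ℝ) - w) / J' * ((V - V') - g * V / J) =
      ((J : ℝ) - w) * (μ * V / J) - ((J : ℝ) - w) * (μ * V' / J') := by
    have hne : (J' : ℝ) + g ≠ 0 := by linarith
    rw [hJr]
    field_simp
    ring
  rw [key]
  have h3 : σ * J' = σ * J - g * σ := by rw [hJr]; ring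
  have h4 : η * J' ≤ η * J := by
    rw [hJr]
    nlinarith [mul_nonneg hη hg0]
  nlinarith [h1, h2]

theorem azm_thm : AZMStmt := by
  intro m ρ
  obtain ⟨C, hC, hI⟩ := azi_thm m ρ
  refine ⟨C, hC, ?_⟩
  intro J₀ J J' g₀ g w w₁ w' μ lam σ η F₀ F hJ S A A' β γ hd e hJ0 hJ1 hw0 hw1 hwJ hJ' hη hμ hμl
    hA he h1 h2
  obtain ⟨-, hd0, c, hc, hV⟩ := hI J J' g F hJ S A A' β γ hd e hJ1 hA he
  have he0 : 0 ≤ e := by
    have h1 := TRC.CH_lt F.isLaw F.T (fun ω => (F.l ω, F.Z ω)) J F.tim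
    unfold Fam.Tm at he
    linarith
  have hM := mas2_thm m J₀ J' (g₀ + g) w w' μ lam σ η F₀ (azm F J' hJ S g A β γ hd)
    (by omega) (by omega) hwJ hJ' hη h1 h2
  have v1 := hV w' (by omega)
  have v2 := hV J' le_rfl
  have d1 := hd0 w' (by omega)
  rw [hw1] at v1
  rw [hJ1] at v2
  have hp : (0 : ℝ) < J' := by exact_mod_cast hJ'
  have hwJr : (w : ℝ) ≤ J₀ := by exact_mod_cast hwJ
  set κ : ℝ := μ * ((J₀ : ℝ) - w) / J' with hκ
  have k0 : 0 ≤ κ := by
    rw [hκ]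
    exact div_nonneg (mul_nonneg hμ (by linarith)) hp.le
  have k1 : κ ≤ 1 := by
    rw [hκ, div_le_one hp]
    exact hμl
  set V'' := (azm F J' hJ S g A β γ hd).V w'
  set VJ'' := (azm F J' hJ S g A β γ hd).V J'
  push_cast at hM
  rw [abs_le] at v1 v2
  have s1 : F₀.V w - V'' ≤ (F₀.V w - F.V w₁) - c + dfc F S g A w' + (e + C) := by
    linarith [v1.1]
  have s2 : (F₀.V w - F.V w₁) - c + dfc F S g A w' - (e + C) ≤ F₀.V w - V'' := by
    linarith [v1.2]
  have s3 : F₀.V J₀ - VJ'' ≤ (F₀.V J₀ - F.V J) - c + dfc F S g A J' + (e + C) := by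
    linarith [v2.1]
  have s4 : κ * ((F₀.V w - V'') - ((g₀ : ℝ) + g) * F₀.V w / J₀) ≤
      κ * ((F₀.V w - F.V w₁) - c + dfc F S g A w' + (e + C) -
        ((g₀ : ℝ) + g) * F₀.V w / J₀) := mul_le_mul_of_nonneg_left (by linarith) k0
  have s5 : κ * (e + C) ≤ e + C := by nlinarith
  have s6 : 0 ≤ κ * c := mul_nonneg k0 hc
  have s7 : (1 - κ) * (-C) ≤ (1 - κ) * dfc F S g A w' :=
    mul_le_mul_of_nonneg_left d1 (by linarith)
  have s8 : (1 - κ) * C ≤ C := by nlinarith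
  nlinarith [hM, s1, s2, s3, s4, s5, s6, s7, s8]

end Pool.KAZ
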