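import Pool.Agent.H26.KAZ.AZTd

/-!
# Total defect of saturation
-/

set_option autoImplicit false

namespace Pool.KAZ

open Finset Real
open Pool.Agent.H49.Ent Pool.Agent.H32.Dense Pool.STK Pool.KA Pool.KSAT Pool.KAL.NC1

variable {m J k : ℕ}

open Classical in
/-- **Total defect of saturation.** If, given the exact position, the directions are not
concentrated at scale `2 ^ (-h)`, in the coordinates in the range of `ι`, then the total defect of
the rows `(J', J' + (N + 1) h]` is `O(h)`. -/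
def AZTStmt : Prop :=
  ∀ (m k : ℕ) (c : ℝ), 0 < c → ∃ C : ℝ, 0 ≤ C ∧ ∃ h₀ : ℕ, ∀ (J J' g h N : ℕ) (F : Fam m J)
    (ι : Fin (k + 1) → Fin m) (S : Finset (Fin m)) (A : F.ζ → Matrix (Fin m) (Fin m) ℝ)
    (β : F.ζ → Fin m → ℝ) (e : ℝ), S.card = k + 1 → J' + g = J → g = (N + 1) * h → h₀ ≤ h →
    F.Tm e → (∀ a i, ∑ j, |A a i j| ≤ 1) →
    (∀ ω i, |azv S g (A (F.Z ω)) (F.d ω) i - β (F.Z ω) i| ≤ 1) →
    (∀ ω, 0 < F.p ω → ∀ (v : Fin (k + 1) → ℝ) (B : Fin k → Fin (k + 1) → ℝ),
      (∑ ω', if Near k (4 * 2 ^ h / 2 ^ (2 * h)) v B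
          (fun i => ∑ j, A (F.Z ω') (ι i) j * F.d ω' j)
        then cond F.p (fun ω => (F.X J ω, F.W ω)) (F.X J ω, F.W ω) ω' else 0) ≤
          Real.exp (-(c * h))) →
    dfc F S g A J' ≤ C * (h + N * (1 + e))

section Info

variable (F : Fam m J) (ι : Fin k → Fin m) (A : F.ζ → Matrix (Fin m) (Fin m) ℝ)
  (hA : ∀ a i, ∑ j, |A a i j| ≤ 1)

/-- Information on the direction in one block. -/
lemma info_step (S : Finset (Fin m)) (g J' : ℕ) {w K K' : ℕ} (hw : w + K ≤ J) (hJ : J' ≤ w)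
    (hD : KnD F A S g) :
    CH F.p ((prj F ι A hA).D K') (blab F ι A hA S g J' w) -
      CH F.p ((prj F ι A hA).D K') (fun ω => (blab F ι A hA S g J' w ω,
        (prj F ι A hA).T1 (w + K) ω, (prj F ι A hA).X (w + K) ω)) ≤
    CH F.p ((prj F ι A hA).D K') (blab F ι A hA S g J' w) -
      CH F.p ((prj F ι A hA).D K') (blab F ι A hA S g J' (w + K)) + 2 * c9 m k := by
  have hp0 := F.isLaw.nonneg
  have k9 := k9_le m k
  set B := blab F ι A hA S g J' w with hB
  set B' := blab F ι A hA S g J' (w + K) with hB'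
  set D := (prj F ι A hA).D K' with hDD
  set X2 : F.Ω → Fin k → ℤ := (prj F ι A hA).X (w + K) with hX2
  set τ : F.Ω → ℕ := (prj F ι A hA).T1 (w + K) with hτ
  have s1 := CH_swap hp0 D (fun ω => (B ω, τ ω, X2 ω)) B'
  have s2 : CH F.p (fun ω => (B ω, τ ω, X2 ω)) B' ≤ CH F.p (fun ω => (B ω, X2 ω)) B' := by
    refine CH_mono_left hp0 ?_
    intro ω ω' _ _ hh
    simp only [Prod.mk.injEq] at hh ⊢
    have h1 : F.T1 (w + K) ω = F.T1 (w + K) ω' :=
      (Prod.ext_iff.mp (Prod.ext_iff.mp hh.2).1).1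
    exact ⟨hh.1.1, h1, hh.1.2⟩
  have s3 := CH_subadd hp0 B X2 B'
  have s4 := lab_step F ι A hA S g J' hw hJ hD
  have s5 : CH F.p X2 B' ≤ k * Real.log 9 := by
    refine X_X1 (prj F ι A hA) le_rfl hw _ ?_
    intro ω ω' _ _ hh
    exact (Prod.ext_iff.mp (Prod.ext_iff.mp hh).1).2
  linarith

/-- The directions, given anything. -/
lemma D_bound {k : ℕ} (G : Fam k J) (K : ℕ) {U : Type} (V : G.Ω → U) :
    CH G.p (G.D K) V ≤ k * (Real.log 7 + K * Real.log 2) := by
  have h := CH_vec G.isLaw (G.D K) V (3 * 2 ^ K) ?_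
  · refine h.trans ?_
    refine mul_le_mul_of_nonneg_left ?_ (Nat.cast_nonneg k)
    have e1 : Real.log 7 + K * Real.log 2 = Real.log (7 * 2 ^ K) := by
      rw [Real.log_mul (by norm_num) (by positivity), Real.log_pow]
    rw [e1]
    refine Real.log_le_log (by positivity) ?_
    have : (1 : ℝ) ≤ 2 ^ K := one_le_pow₀ (by norm_num)
    linarith
  · intro ω ω' _ _ _ i
    have h1 : |2 ^ K * G.d ω i - 2 ^ K * G.d ω' i| ≤ 2 ^ K * 2 := by
      rw [← mul_sub, abs_mul, abs_of_nonneg (a := (2 : ℝ) ^ K) (by positivity)]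
      exact mul_le_mul_of_nonneg_left (pd_close G ω ω' i) (by positivity)
    refine (floor_sub_le h1).trans ?_
    have : (1 : ℝ) ≤ 2 ^ K := one_le_pow₀ (by norm_num)
    linarith

end Info

/-- Telescoping with step two. -/
lemma tel_two (f : ℕ → ℝ) (hf : ∀ i, 0 ≤ f i) (N : ℕ) :
    ∑ i ∈ Finset.range N, (f i - f (i + 2)) ≤ f 0 + f 1 := by
  have h : ∀ N, ∑ i ∈ Finset.range N, (f i - f (i + 2)) = f 0 + f 1 - f N - f (N + 1) := by
    intro N
    induction N with
    | zero => simp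
    | succ N ih =>
      rw [Finset.sum_range_succ, ih]
      ring
  rw [h]
  linarith [hf N, hf (N + 1)]

open Classical in
/-- One block. -/
lemma block (hE : EXCStmt) (m k : ℕ) : ∃ C : ℝ, 0 ≤ C ∧ ∀ (c : ℝ), 0 < c → ∃ h₀ : ℕ,
    ∀ (J J' g h w : ℕ) (F : Fam m J) (ι : Fin (k + 1) → Fin m) (S : Finset (Fin m))
      (A : F.ζ → Matrix (Fin m) (Fin m) ℝ) (hA : ∀ a i, ∑ j, |A a i j| ≤ 1) (e : ℝ),
    J' + g = J → w + 2 * h ≤ J → J' ≤ w → h₀ ≤ h → F.Tm e → KnD F A S g →
    (∀ ω, 0 < F.p ω → ∀ (v : Fin (k + 1) → ℝ) (B : Fin k → Fin (k + 1) → ℝ),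
      (∑ ω', if Near k (4 * 2 ^ h / 2 ^ (2 * h)) v B
          (fun i => ∑ j, A (F.Z ω') (ι i) j * F.d ω' j)
        then cond F.p (fun ω => (F.X J ω, F.W ω)) (F.X J ω, F.W ω) ω' else 0) ≤
          Real.exp (-(c * h))) →
    (k + 1) * (h * Real.log 2) - CH F.p ((prj F ι A hA).X (w + 2 * h))
      (fun ω => ((prj F ι A hA).X (w + h) ω, (XB F S g A J' ω, F.W ω))) ≤
    C * (1 + 1 / c) * (1 + e + (CH F.p ((prj F ι A hA).D (2 * h)) (blab F ι A hA S g J' w) -
      CH F.p ((prj F ι A hA).D (2 * h)) (fun ω => (blab F ι A hA S g J' w ω,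
        (prj F ι A hA).T1 (w + 2 * h) ω, (prj F ι A hA).X (w + 2 * h) ω)))) := by
  obtain ⟨C, hC, hX⟩ := hE (k + 1) (k + 2) k (by omega)
  set P : ℝ := 9 ^ (k + 1 + m) with hP
  have hP1 : 1 ≤ P := one_le_pow₀ (by norm_num)
  have hlog2 : 0 < Real.log 2 := Real.log_pos (by norm_num)
  have hlog21 : Real.log 2 ≤ 1 := by
    have := Real.log_two_lt_d9
    linarith
  have hkr : (0 : ℝ) ≤ k := Nat.cast_nonneg k
  set K1 : ℝ := ((k : ℝ) + 2) ^ (k + 1) with hK1
  have hK11 : 1 ≤ K1 := one_le_pow₀ (by linarith)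
  have hc9 : 0 ≤ c9 m (k + 1) := c9_nonneg m (k + 1)
  refine ⟨2 * P * (k + 1) + 4 * (k + 2) * (k + 3) + (k + 3) + C + 5 * c9 m (k + 1),
    by positivity, ?_⟩
  intro c hc
  obtain ⟨h₀, hh₀⟩ := exists_nat_ge (max 2 (max (4 * Real.log K1 / c) (2 / c * Real.log (2 * P))) + 1)
  refine ⟨h₀, ?_⟩
  intro J J' g h w F ι S A hA e hg hw hJ' hh he hD hN
  have hhr : (max 2 (max (4 * Real.log K1 / c) (2 / c * Real.log (2 * P))) + 1 : ℝ) ≤ h :=
    hh₀.trans (by exact_mod_cast hh)
  have h2 : (2 : ℝ) + 1 ≤ h := by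
    have := le_max_left (2 : ℝ) (max (4 * Real.log K1 / c) (2 / c * Real.log (2 * P)))
    linarith
  have h3 : 4 * Real.log K1 / c < h := by
    have := (le_max_left (4 * Real.log K1 / c) (2 / c * Real.log (2 * P))).trans
      (le_max_right (2 : ℝ) (max (4 * Real.log K1 / c) (2 / c * Real.log (2 * P))))
    linarith
  have h4 : 2 / c * Real.log (2 * P) ≤ h := by
    have := (le_max_right (4 * Real.log K1 / c) (2 / c * Real.log (2 * P))).trans
      (le_max_right (2 : ℝ) (max (4 * Real.log K1 / c) (2 / c * Real.log (2 * P))))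
    linarith
  have h2n : 2 ≤ h := by
    have : (2 : ℝ) ≤ h := by linarith
    exact_mod_cast this
  have hp := F.isLaw
  have hp0 := hp.nonneg
  set G := prj F ι A hA with hG
  set B := blab F ι A hA S g J' w with hB
  set x : F.Ω → (Fin m → ℤ) × (ℕ × F.ζ) := fun ω => (F.X J ω, F.W ω) with hx
  set r : ℝ := 4 * 2 ^ h / 2 ^ (2 * h) with hr
  set ρ0 : ℝ := Real.exp (-(c * h)) with hρ0
  set η : ℝ := Real.exp (-(c / 2 * h)) with hη
  have hρpos : 0 < ρ0 := Real.exp_pos _
  have hηpos : 0 < η := Real.exp_pos _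
  have hρη : ρ0 / η = η := by
    rw [div_eq_iff hηpos.ne', hη, hρ0, ← Real.exp_add]
    congr 1
    ring
  -- the good labels
  set NR : (Fin (k + 1) → ℝ) × (Fin k → Fin (k + 1) → ℝ) → F.Ω → Prop := fun c ω' =>
    Near k r c.1 c.2 (fun i => ∑ j, A (F.Z ω') (ι i) j * F.d ω' j) with hNR
  obtain ⟨Gd, hG1, hG2⟩ := ctxE hp NR x B (ρ := ρ0) (η := η) (C := P) hρpos.le hηpos
    (by
      intro ω hω cc
      have h6 : (∑ ω', if NR cc ω' then cond F.p x (x ω) ω' else 0) ≤ ρ0 :=
        hN ω hω cc.1 cc.2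
      rw [sum_cond_Pe, div_le_iff₀ (law_pos hp0 x hω)] at h6
      exact h6)
    (by
      intro ω hω
      have h5 := lab_card F ι A hA S g J' (w := w) (by omega) hJ' hg hD ω hω
      refine le_trans (le_of_eq ?_) h5
      refine congrArg Nat.cast (congrArg Finset.card ?_)
      ext v
      simp only [Finset.mem_image, Finset.mem_filter]
      exact Iff.rfl)
  set A' : F.Ω → Bool := fun ω => decide (Gd (B ω)) with hA'
  have hlaw : law F.p A' true = Pe F.p (fun ω => Gd (B ω)) := by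
    rw [law_eq_Pe]
    congr 1
    funext ω
    simp only [hA', decide_eq_true_eq]
  set pr : ℝ := law F.p A' true with hpr
  have hPη : P * η ≤ 1 / 2 := by
    have h5 : Real.log (2 * P) ≤ c / 2 * h := by
      have := mul_le_mul_of_nonneg_left h4 (show (0 : ℝ) ≤ c / 2 by positivity)
      have e1 : c / 2 * (2 / c * Real.log (2 * P)) = Real.log (2 * P) := by
        field_simp
      linarith
    have h6 : η ≤ 1 / (2 * P) := by
      rw [hη, Real.exp_neg, ← one_div]
      refine one_div_le_one_div_of_le (by positivity) ?_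
      rw [← Real.log_le_iff_le_exp (by positivity)]
      exact h5
    calc P * η ≤ P * (1 / (2 * P)) := mul_le_mul_of_nonneg_left h6 (by positivity)
      _ = 1 / 2 := by
        have : P ≠ 0 := by positivity
        field_simp
  have hpr1 : 1 - P * η ≤ pr := by rw [hlaw]; exact hG1
  have hpr2 : 1 / 2 ≤ pr := by linarith
  have hprpos : 0 < pr := by linarith
  have hprle : pr ≤ 1 := by
    rw [hlaw]
    have h5 := Pe_add_not hp (fun ω => Gd (B ω))
    have h6 := Pe_nonneg hp0 (fun ω => ¬ Gd (B ω))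
    linarith
  have hIL : IsLaw (cond F.p A' true) := ⟨fun ω => cond_nonneg hp0 A' true ω,
    sum_cond F.p A' hprpos.ne'⟩
  -- the information
  set I : ℝ := CH G.p (G.D (2 * h)) B - CH G.p (G.D (2 * h))
    (fun ω => (B ω, G.T1 (w + 2 * h) ω, G.X (w + 2 * h) ω)) with hI
  have hI0 : 0 ≤ I := by
    have : CH G.p (G.D (2 * h)) (fun ω => (B ω, G.T1 (w + 2 * h) ω, G.X (w + 2 * h) ω)) ≤
        CH G.p (G.D (2 * h)) B :=
      CH_mono_cond G.isLaw.nonneg fun ω ω' _ _ hh => (Prod.ext_iff.mp hh).1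
    rw [hI]
    linarith
  have he0 : 0 ≤ e := by
    have h1 := TRC.CH_lt F.isLaw F.T (fun ω => (F.l ω, F.Z ω)) J F.tim
    unfold Fam.Tm at he
    linarith
  set Λ : ℝ := Real.log (1 / (((k + 2 : ℕ) : ℝ) ^ (k + 1) * η ^ (k + 2 - (k + 1)))) with hΛ
  have hexp1 : k + 2 - (k + 1) = 1 := by omega
  have hcast : ((k + 2 : ℕ) : ℝ) = k + 2 := by push_cast; ring
  have hΛ2 : Λ = c / 2 * h - Real.log K1 := by
    rw [hΛ, hexp1, pow_one, one_div, Real.log_inv, hcast, Real.log_mul (by positivity)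
      (by positivity), hη, Real.log_exp]
    ring
  have hΛ3 : c / 4 * h ≤ Λ := by
    rw [hΛ2]
    rw [div_lt_iff₀ hc] at h3
    linarith
  have hΛpos : 0 < Λ := lt_of_lt_of_le (by positivity) hΛ3
  have hlt1 : ((k + 2 : ℕ) : ℝ) ^ (k + 1) * η ^ (k + 2 - (k + 1)) < 1 := by
    by_contra hcon
    push Not at hcon
    have : Λ ≤ 0 := by
      rw [hΛ]
      refine Real.log_nonpos (by positivity) ?_
      rw [div_le_one (by positivity)]
      exact hcon
    linarith
  have hmain := hX J G _ B w (2 * h) h e η I pr A' hIL hw (by omega)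
    (prj_Tm F ι A hA he) ?_ ?_ hprpos le_rfl le_rfl hηpos hlt1 ?_
  · have e1 : w + 2 * h - h = w + h := by omega
    rw [e1] at hmain
    have hev : pr * CH (cond F.p A' true) (G.X (w + 2 * h))
        (fun ω => (G.T1 (w + 2 * h) ω, G.X (w + h) ω, B ω)) ≤
        CH F.p (G.X (w + 2 * h)) (fun ω => (G.T1 (w + 2 * h) ω, G.X (w + h) ω, B ω)) := by
      refine CH_event hp _ _ A' ?_
      intro ω ω' _ _ hh
      simp only [Prod.mk.injEq] at hh
      simp only [hA', hh.2.2]
    have hbl := block_cond F ι A hA S g J' hw hJ' hD he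
    set Q : ℝ := CH (cond F.p A' true) (G.X (w + 2 * h))
        (fun ω => (G.T1 (w + 2 * h) ω, G.X (w + h) ω, B ω)) with hQ
    have hmain2 : ((k : ℝ) + 2) * (h * Real.log 2) * (1 - (((k + 2 : ℕ) : ℝ) * (I / pr) +
        Real.log 2) / Λ) - h * Real.log 2 - ((k + 2 : ℕ) : ℝ) *
          ((e + Real.log 2) / pr + I / pr) - C ≤ Q := hmain
    rw [hcast] at hmain2
    set L : ℝ := Real.log 2 with hL
    -- multiply by `pr`
    have hm := mul_le_mul_of_nonneg_left hmain2 hprpos.le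
    have e2 : pr * (((k : ℝ) + 2) * (h * L) * (1 - (((k : ℝ) + 2) * (I / pr) + L) / Λ) -
        h * L - ((k : ℝ) + 2) * ((e + L) / pr + I / pr) - C) =
        pr * ((k + 1) * (h * L)) - ((k : ℝ) + 2) * L * (h / Λ) * (((k : ℝ) + 2) * I + L * pr) -
          ((k : ℝ) + 2) * (e + L + I) - pr * C := by
      field_simp
      ring
    rw [e2] at hm
    have hhΛ : h / Λ ≤ 4 / c := by
      rw [div_le_div_iff₀ hΛpos hc]
      have : 4 * (c / 4 * h) ≤ 4 * Λ := by linarith
      calc (h : ℝ) * c = 4 * (c / 4 * h) := by ring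
        _ ≤ 4 * Λ := this
    have hhΛ0 : 0 ≤ h / Λ := div_nonneg (Nat.cast_nonneg h) hΛpos.le
    have t2 : ((k : ℝ) + 2) * L * (h / Λ) * (((k : ℝ) + 2) * I + L * pr) ≤
        4 * (k + 2) * (k + 3) * (1 / c) * (1 + I) := by
      have a1 : L * (h / Λ) ≤ 4 / c := by
        calc L * (h / Λ) ≤ 1 * (h / Λ) := mul_le_mul_of_nonneg_right hlog21 hhΛ0
          _ ≤ 4 / c := by rw [one_mul]; exact hhΛ
      have a2 : ((k : ℝ) + 2) * I + L * pr ≤ (k + 3) * (1 + I) := by
        have : L * pr ≤ 1 := by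
          calc L * pr ≤ 1 * 1 := mul_le_mul hlog21 hprle hprpos.le (by norm_num)
            _ = 1 := by norm_num
        nlinarith [mul_nonneg hkr hI0]
      have a3 : 0 ≤ ((k : ℝ) + 2) * I + L * pr := by positivity
      calc ((k : ℝ) + 2) * L * (h / Λ) * (((k : ℝ) + 2) * I + L * pr)
          = (k + 2) * (L * (h / Λ)) * (((k : ℝ) + 2) * I + L * pr) := by ring
        _ ≤ (k + 2) * (4 / c) * ((k + 3) * (1 + I)) := by
            refine mul_le_mul (mul_le_mul_of_nonneg_left a1 (by positivity)) a2 a3 (by positivity)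
        _ = 4 * (k + 2) * (k + 3) * (1 / c) * (1 + I) := by ring
    have t1 : (1 - pr) * ((k + 1) * (h * L)) ≤ 2 * P * (k + 1) * (1 / c) := by
      have a1 : 1 - pr ≤ P * η := by linarith
      have a2 : η * h ≤ 2 / c := by
        have a3 := Real.add_one_le_exp (c / 2 * (h : ℝ))
        have a4 : c / 2 * h * η ≤ 1 := by
          have a5 : η * Real.exp (c / 2 * h) = 1 := by
            rw [hη, ← Real.exp_add]
            simp
          have a6 : c / 2 * (h : ℝ) ≤ Real.exp (c / 2 * h) := by linarith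
          calc c / 2 * h * η ≤ Real.exp (c / 2 * h) * η := mul_le_mul_of_nonneg_right a6 hηpos.le
            _ = 1 := by rw [mul_comm]; exact a5
        rw [le_div_iff₀ hc]
        nlinarith
      have a7 : 0 ≤ 1 - pr := by linarith
      calc (1 - pr) * ((k + 1) * (h * L)) ≤ (P * η) * ((k + 1) * (h * 1)) := by
            refine mul_le_mul a1 ?_ (by positivity) (by positivity)
            refine mul_le_mul_of_nonneg_left ?_ (by positivity)
            exact mul_le_mul_of_nonneg_left hlog21 (by positivity)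
        _ = P * (k + 1) * (η * h) := by ring
        _ ≤ P * (k + 1) * (2 / c) := mul_le_mul_of_nonneg_left a2 (by positivity)
        _ = 2 * P * (k + 1) * (1 / c) := by ring
    have t3 : pr * C ≤ C := by
      calc pr * C ≤ 1 * C := mul_le_mul_of_nonneg_right hprle hC
        _ = C := one_mul C
    -- assemble
    have hfin : (k + 1) * (h * L) - CH F.p (G.X (w + 2 * h))
        (fun ω => (G.X (w + h) ω, (XB F S g A J' ω, F.W ω))) ≤
        2 * P * (k + 1) * (1 / c) + 4 * (k + 2) * (k + 3) * (1 / c) * (1 + I) +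
          ((k : ℝ) + 2) * (e + L + I) + C + 5 * c9 m (k + 1) + e := by
      have e3 : (k + 1) * (h * L) = pr * ((k + 1) * (h * L)) + (1 - pr) * ((k + 1) * (h * L)) := by
        ring
      rw [e3]
      linarith
    refine hfin.trans ?_
    change _ ≤ (2 * P * (k + 1) + 4 * (k + 2) * (k + 3) + (k + 3) + C + 5 * c9 m (k + 1)) *
      (1 + 1 / c) * (1 + e + I)
    have hc1 : 0 < 1 / c := by positivity
    set ic : ℝ := 1 / c with hic
    have u1 : 2 * P * (k + 1) * ic ≤ 2 * P * (k + 1) * ((1 + ic) * (1 + e + I)) := by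
      refine mul_le_mul_of_nonneg_left ?_ (by positivity)
      nlinarith [mul_nonneg hc1.le he0, mul_nonneg hc1.le hI0]
    have u2 : 4 * (k + 2) * (k + 3) * ic * (1 + I) ≤
        4 * (k + 2) * (k + 3) * ((1 + ic) * (1 + e + I)) := by
      rw [mul_assoc (4 * ((k : ℝ) + 2) * (k + 3))]
      refine mul_le_mul_of_nonneg_left ?_ (by positivity)
      nlinarith [mul_nonneg hc1.le he0, mul_nonneg hc1.le hI0]
    have u3 : ((k : ℝ) + 2) * (e + L + I) + e ≤ (k + 3) * ((1 + ic) * (1 + e + I)) := by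
      have v1 : (1 + e + I) ≤ (1 + ic) * (1 + e + I) := by
        nlinarith [mul_nonneg hc1.le he0, mul_nonneg hc1.le hI0]
      have v2 : ((k : ℝ) + 2) * (e + L + I) + e ≤ (k + 3) * (1 + e + I) := by
        nlinarith [mul_nonneg hkr (show (0 : ℝ) ≤ 1 - L by linarith)]
      exact v2.trans (mul_le_mul_of_nonneg_left v1 (by positivity))
    have u4 : C + 5 * c9 m (k + 1) ≤ (C + 5 * c9 m (k + 1)) * ((1 + ic) * (1 + e + I)) := by
      have v1 : 1 ≤ (1 + ic) * (1 + e + I) := by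
        nlinarith [mul_nonneg hc1.le he0, mul_nonneg hc1.le hI0]
      exact le_mul_of_one_le_right (by positivity) v1
    calc _ ≤ 2 * P * (k + 1) * ((1 + ic) * (1 + e + I)) +
          4 * (k + 2) * (k + 3) * ((1 + ic) * (1 + e + I)) +
          (k + 3) * ((1 + ic) * (1 + e + I)) +
          (C + 5 * c9 m (k + 1)) * ((1 + ic) * (1 + e + I)) := by linarith
      _ = _ := by ring
  · intro ω ω' _ _ hh
    have hl : G.l ω = G.l ω' := (Prod.ext_iff.mp hh).1
    have hZ : G.Z ω = G.Z ω' := (Prod.ext_iff.mp (Prod.ext_iff.mp hh).2).1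
    have hT : G.T1 w ω = G.T1 w ω' := (Prod.ext_iff.mp (Prod.ext_iff.mp hh).2).2
    have hl2 : F.l ω = F.l ω' := (Prod.ext_iff.mp hZ).1
    have hZ2 : F.Z ω = F.Z ω' := (Prod.ext_iff.mp hZ).2
    have hu : F.u ω = F.u ω' := (Prod.ext_iff.mp hl2).1
    have hd : F.d ω = F.d ω' := (Prod.ext_iff.mp hl2).2
    have hu2 : G.u ω = G.u ω' := (Prod.ext_iff.mp hl).1
    have hd2 : G.d ω = G.d ω' := (Prod.ext_iff.mp hl).2
    have hTw : F.T1 w ω = F.T1 w ω' := hT
    have hx3 : G.x1 w ω = G.x1 w ω' := by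
      funext i
      unfold Fam.x1
      rw [hT, hu2, hd2]
    have hx4 : F.x1 w ω = F.x1 w ω' := by
      funext i
      unfold Fam.x1
      rw [hTw, hu, hd]
    change blab F ι A hA S g J' w ω = blab F ι A hA S g J' w ω'
    unfold blab
    rw [hTw, hx3, hx4, hZ2]
  · intro ω ω' _ _ hh
    have : B ω = B ω' := (Prod.ext_iff.mp hh).2
    simp only [hA', this]
  · intro ω hω hAω v Bv
    have hGω : Gd (B ω) := by
      simpa only [hA', decide_eq_true_eq] using hAω
    have hl := law_pos hp0 B hω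
    have e1 : (∑ ω', if NR (v, Bv) ω' then cond (cond F.p A' true) B (B ω) ω' else 0) =
        ∑ ω', if NR (v, Bv) ω' then cond F.p B (B ω) ω' else 0 := by
      refine Finset.sum_congr rfl fun ω' _ => ?_
      rw [cond_cond hp0 B Gd A' (fun _ => rfl) hGω hl ω']
    have h5 := hG2 (B ω) hGω (v, Bv)
    rw [hρη] at h5
    have h6 : (∑ ω', if NR (v, Bv) ω' then cond (cond F.p A' true) B (B ω) ω' else 0) ≤ η := by
      rw [e1, sum_cond_Pe, div_le_iff₀ hl]
      exact h5
    exact h6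

theorem azt_thm (hE : EXCStmt) : AZTStmt := by
  classical
  intro m k c hc
  obtain ⟨Cb, hCb, hB⟩ := block hE m k
  obtain ⟨h₀, hblock⟩ := hB c hc
  have hc9 : 0 ≤ c9 m (k + 1) := c9_nonneg m (k + 1)
  have hkr : (0 : ℝ) ≤ k := Nat.cast_nonneg k
  have hic : 0 < 1 / c := by positivity
  have hlog2 : 0 < Real.log 2 := Real.log_pos (by norm_num)
  have hlog21 : Real.log 2 ≤ 1 := by
    have := Real.log_two_lt_d9
    linarith
  refine ⟨(k + 1) + c9 m (k + 1) + Cb * (1 + 1 / c) * (1 + 2 * c9 m (k + 1) + 8 * (k + 1)),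
    by positivity, max h₀ 1, ?_⟩
  intro J J' g h N F ι S A β e hS hg hgN hh he hA hd hN
  have hh0 : h₀ ≤ h := (le_max_left _ _).trans hh
  have hh1 : 1 ≤ h := (le_max_right _ _).trans hh
  have hhr : (1 : ℝ) ≤ h := by exact_mod_cast hh1
  have hD := knD_of F A S g β hd
  have he0 : 0 ≤ e := by
    have h1 := TRC.CH_lt F.isLaw F.T (fun ω => (F.l ω, F.Z ω)) J F.tim
    unfold Fam.Tm at he
    linarith
  set f : ℕ → ℝ := fun i =>
    CH F.p ((prj F ι A hA).D (2 * h)) (blab F ι A hA S g J' (J' + i * h)) with hf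
  have hf0 : ∀ i, 0 ≤ f i := fun i => CH_nonneg F.isLaw.nonneg _ _
  have hfb : ∀ i, f i ≤ 4 * (k + 1) * h := by
    intro i
    refine (D_bound (prj F ι A hA) (2 * h) _).trans ?_
    have hl9 := Real.log_two_lt_d9
    have h7 : Real.log 7 ≤ 21 / 10 := by
      have h8 : Real.log 7 ≤ Real.log (2 ^ 3) := Real.log_le_log (by norm_num) (by norm_num)
      rw [Real.log_pow] at h8
      push_cast at h8
      linarith
    push_cast
    have : Real.log 7 + 2 * h * Real.log 2 ≤ 4 * h := by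
      have h10 : 2 * h * Real.log 2 ≤ 2 * h * (7 / 10) :=
        mul_le_mul_of_nonneg_left (by linarith) (by positivity)
      linarith
    calc ((k : ℝ) + 1) * (Real.log 7 + 2 * h * Real.log 2) ≤ (k + 1) * (4 * h) :=
          mul_le_mul_of_nonneg_left this (by positivity)
      _ = 4 * (k + 1) * h := by ring
  -- the blocks
  set V : F.Ω → (Fin m → ℤ) × (ℕ × F.ζ) := fun ω => (XB F S g A J' ω, F.W ω) with hV
  have hle : ∀ i < N, J' + i * h + 2 * h ≤ J := by
    intro i hi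
    rw [← hg, hgN]
    have : i + 2 ≤ N + 1 := by omega
    have h5 := Nat.mul_le_mul_right h this
    have e1 : (i + 2) * h = i * h + 2 * h := by ring
    omega
  have hstep : ∀ i ∈ Finset.range N, (k + 1) * (h * Real.log 2) -
      CH F.p ((prj F ι A hA).X (J' + i * h + 2 * h))
        (fun ω => ((prj F ι A hA).X (J' + i * h + h) ω, V ω)) ≤
      Cb * (1 + 1 / c) * (1 + e + (f i - f (i + 2) + 2 * c9 m (k + 1))) := by
    intro i hi
    have hi' := Finset.mem_range.mp hi
    have h5 := hblock J J' g h (J' + i * h) F ι S A hA e hg (hle i hi') (by omega) hh0 he hD hN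
    refine h5.trans ?_
    refine mul_le_mul_of_nonneg_left ?_ (by positivity)
    have h6 := info_step F ι A hA S g J' (K := 2 * h) (K' := 2 * h) (hle i hi') (by omega) hD
    have e1 : J' + i * h + 2 * h = J' + (i + 2) * h := by ring
    have e2 : f (i + 2) = CH F.p ((prj F ι A hA).D (2 * h))
        (blab F ι A hA S g J' (J' + i * h + 2 * h)) := by
      rw [e1]
    rw [e2]
    have e3 : f i = CH F.p ((prj F ι A hA).D (2 * h))
        (blab F ι A hA S g J' (J' + i * h)) := rfl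
    rw [e3]
    linarith
  have hsum := Finset.sum_le_sum hstep
  rw [Finset.sum_sub_distrib, Finset.sum_const, Finset.card_range, nsmul_eq_mul,
    ← Finset.mul_sum] at hsum
  have htel : ∑ i ∈ Finset.range N, (1 + e + (f i - f (i + 2) + 2 * c9 m (k + 1))) ≤
      N * (1 + e) + (f 0 + f 1) + N * (2 * c9 m (k + 1)) := by
    have h5 := tel_two f hf0 N
    have e1 : ∑ i ∈ Finset.range N, (1 + e + (f i - f (i + 2) + 2 * c9 m (k + 1))) =
        ∑ i ∈ Finset.range N, (f i - f (i + 2)) +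
          ∑ _i ∈ Finset.range N, (1 + e + 2 * c9 m (k + 1)) := by
      rw [← Finset.sum_add_distrib]
      exact Finset.sum_congr rfl fun i _ => by ring
    rw [e1, Finset.sum_const, Finset.card_range, nsmul_eq_mul]
    linarith
  have htel2 : ∑ i ∈ Finset.range N, CH F.p ((prj F ι A hA).X (J' + i * h + 2 * h))
      (fun ω => ((prj F ι A hA).X (J' + i * h + h) ω, V ω)) ≤
      CH F.p ((prj F ι A hA).X (J' + N * h + h)) V := tel2 (prj F ι A hA) J' h V N
  have hJJ : J' + N * h + h = J := by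
    rw [← hg, hgN]
    ring
  rw [hJJ] at htel2
  have htel1 := tel1 F ι A hA S hg
  have hCbc : 0 ≤ Cb * (1 + 1 / c) := by positivity
  have hsum2 := mul_le_mul_of_nonneg_left htel hCbc
  have hdef : dfc F S g A J' = ((k + 1 : ℕ) : ℝ) * (g * Real.log 2) -
      (CH F.p (F.X J) F.W - CH F.p (XB F S g A J') F.W) := by
    unfold dfc
    rw [hS, hg]
  have hgr : (g : ℝ) = (N + 1) * h := by
    rw [hgN]
    push_cast
    ring
  rw [hdef, hgr]
  push_cast
  have hN0 : (0 : ℝ) ≤ N := Nat.cast_nonneg N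
  have hfs : f 0 + f 1 ≤ 8 * (k + 1) * h := by linarith [hfb 0, hfb 1]
  have hA1 : ((k : ℝ) + 1) * ((N + 1) * h * Real.log 2) -
      (CH F.p (F.X J) F.W - CH F.p (XB F S g A J') F.W) ≤
      (k + 1) * h + c9 m (k + 1) + Cb * (1 + 1 / c) * (N * (1 + e) + (f 0 + f 1) +
        N * (2 * c9 m (k + 1))) := by
    have e1 : ((k : ℝ) + 1) * ((N + 1) * h * Real.log 2) = (k + 1) * (h * Real.log 2) +
        N * ((k + 1) * (h * Real.log 2)) := by ring
    have e2 : ((k : ℝ) + 1) * (h * Real.log 2) ≤ (k + 1) * h := by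
      refine mul_le_mul_of_nonneg_left ?_ (by positivity)
      nlinarith
    rw [e1]
    linarith
  refine hA1.trans ?_
  have hq : N * (1 + e) + (f 0 + f 1) + N * (2 * c9 m (k + 1)) ≤
      (1 + 2 * c9 m (k + 1) + 8 * (k + 1)) * (h + N * (1 + e)) := by
    have v1 : 0 ≤ N * (1 + e) := by positivity
    have v2 : N * (2 * c9 m (k + 1)) ≤ 2 * c9 m (k + 1) * (N * (1 + e)) := by
      have : N * 1 ≤ N * (1 + e) := mul_le_mul_of_nonneg_left (by linarith) hN0
      nlinarith
    have v3 : 0 ≤ 2 * c9 m (k + 1) * h := by positivity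
    have v4 : 0 ≤ 8 * ((k : ℝ) + 1) * (N * (1 + e)) := by positivity
    nlinarith
  have hq2 := mul_le_mul_of_nonneg_left hq hCbc
  have w1 : ((k : ℝ) + 1) * h + c9 m (k + 1) ≤
      ((k : ℝ) + 1 + c9 m (k + 1)) * (h + N * (1 + e)) := by
    have v1 : 0 ≤ N * (1 + e) := by positivity
    have v2 : c9 m (k + 1) ≤ c9 m (k + 1) * h := le_mul_of_one_le_right hc9 hhr
    nlinarith [mul_nonneg hkr v1, mul_nonneg hc9 v1]
  calc _ ≤ ((k : ℝ) + 1 + c9 m (k + 1)) * (h + N * (1 + e)) + Cb * (1 + 1 / c) *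
        ((1 + 2 * c9 m (k + 1) + 8 * (k + 1)) * (h + N * (1 + e))) := by linarith
    _ = _ := by ring

end Pool.KAZ
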