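import Pool.Agent.H26.KAZ.AZI
import Pool.Agent.H7.KSAT.S1Defs

/-!
# Total defect of saturation: the projected family, its labels, rounding
-/

set_option autoImplicit false

namespace Pool.KAZ

open Finset Real
open Pool.Agent.H49.Ent Pool.Agent.H32.Dense Pool.STK Pool.KA Pool.KSAT

variable {m J k : ℕ}

/-! ### Calculus -/

theorem CH_vec {Ω T : Type} [Fintype Ω] {d : ℕ} {p : Ω → ℝ} (hp : IsLaw p)
    (X : Ω → Fin d → ℤ) (W : Ω → T) (L : ℝ)
    (hX : ∀ ω ω', 0 < p ω → 0 < p ω' → W ω = W ω' → ∀ k, |((X ω k - X ω' k : ℤ) : ℝ)| ≤ L) :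
    CH p X W ≤ d * Real.log (2 * L + 1) := by
  have h := CH_le_vec hp.nonneg hp.sum_one X W (fun _ => L) hX
  rwa [Ex_const hp.sum_one] at h

/-- Change of the condition. -/
theorem CH_swap {Ω S T U : Type} [Fintype Ω] {p : Ω → ℝ} (hp : ∀ ω, 0 ≤ p ω) (Y : Ω → S)
    (V : Ω → T) (V' : Ω → U) : CH p Y V' ≤ CH p Y V + CH p V V' := by
  have h1 := CH_le_add hp Y V V'
  have h2 : CH p Y (fun ω => (V ω, V' ω)) ≤ CH p Y V :=
    CH_mono_cond hp fun ω ω' _ _ h => (Prod.ext_iff.mp h).1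
  linarith

lemma floor_sub_le {a b r : ℝ} (h : |a - b| ≤ r) : |((⌊a⌋ - ⌊b⌋ : ℤ) : ℝ)| ≤ r + 1 := by
  have a1 := Int.floor_le a
  have a2 := Int.lt_floor_add_one a
  have b1 := Int.floor_le b
  have b2 := Int.lt_floor_add_one b
  rw [abs_le] at h ⊢
  push_cast
  constructor <;> linarith [h.1, h.2]

lemma fl_eq_close {d j : ℕ} {x y : Fin d → ℝ} (h : fl j x = fl j y) (i : Fin d) :
    |2 ^ j * x i - 2 ^ j * y i| ≤ 1 := by
  have h2 : ⌊2 ^ j * x i⌋ = ⌊2 ^ j * y i⌋ := congrFun h i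
  exact (Int.abs_sub_lt_one_of_floor_eq_floor h2).le

/-! ### The projected family -/

/-- The projection of the family to some of the coordinates. The exact line is put into the side
information. -/
noncomputable def prj (F : Fam m J) (ι : Fin k → Fin m) (A : F.ζ → Matrix (Fin m) (Fin m) ℝ)
    (hA : ∀ a i, ∑ j, |A a i j| ≤ 1) : Fam k J where
  Ω := F.Ω
  ζ := ((Fin m → ℝ) × (Fin m → ℝ)) × F.ζ
  fin := F.fin
  p := F.p
  u := fun ω i => ∑ j, A (F.Z ω) (ι i) j * F.u ω j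
  d := fun ω i => ∑ j, A (F.Z ω) (ι i) j * F.d ω j
  T := F.T
  Z := fun ω => (F.l ω, F.Z ω)
  isLaw := F.isLaw
  dir := fun ω i => by
    refine (Finset.abs_sum_le_sum_abs _ _).trans ?_
    refine (Finset.sum_le_sum fun j _ => ?_).trans (hA (F.Z ω) (ι i))
    rw [abs_mul]
    exact mul_le_of_le_one_right (abs_nonneg _) (F.dir ω j)
  tim := F.tim

variable (F : Fam m J) (ι : Fin k → Fin m) (A : F.ζ → Matrix (Fin m) (Fin m) ℝ)
  (hA : ∀ a i, ∑ j, |A a i j| ≤ 1)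

lemma prj_x (ω : F.Ω) (i : Fin k) :
    (prj F ι A hA).x ω i = ∑ j, A (F.Z ω) (ι i) j * F.x ω j := by
  have h : ∑ j, A (F.Z ω) (ι i) j * F.x ω j =
      ∑ j, (A (F.Z ω) (ι i) j * F.u ω j + F.t ω * (A (F.Z ω) (ι i) j * F.d ω j)) :=
    Finset.sum_congr rfl fun j _ => by unfold Fam.x; ring
  rw [h, Finset.sum_add_distrib, ← Finset.mul_sum]
  rfl

lemma prj_x1 (w : ℕ) (ω : F.Ω) (i : Fin k) :
    (prj F ι A hA).x1 w ω i = ∑ j, A (F.Z ω) (ι i) j * F.x1 w ω j := by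
  have h : ∑ j, A (F.Z ω) (ι i) j * F.x1 w ω j =
      ∑ j, (A (F.Z ω) (ι i) j * F.u ω j +
        (F.T1 w ω : ℝ) / 2 ^ w * (A (F.Z ω) (ι i) j * F.d ω j)) :=
    Finset.sum_congr rfl fun j _ => by unfold Fam.x1; ring
  rw [h, Finset.sum_add_distrib, ← Finset.mul_sum]
  rfl

lemma prj_Tm {e : ℝ} (he : F.Tm e) : (prj F ι A hA).Tm e := by
  have h : CH F.p F.T (fun ω => (F.l ω, F.Z ω)) =
      CH F.p F.T (fun ω => ((prj F ι A hA).l ω, ((F.l ω, F.Z ω) :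
        ((Fin m → ℝ) × (Fin m → ℝ)) × F.ζ))) := by
    refine CH_congr F.isLaw.nonneg ?_ ?_ ?_ ?_
    · intro ω ω' _ _ hh
      exact (Prod.ext_iff.mp hh).1
    · intro ω ω' _ _ hh
      exact (Prod.ext_iff.mp hh).1
    · intro ω ω' _ _ hh
      have h1 : F.l ω = F.l ω' := (Prod.ext_iff.mp hh).1
      have h2 : F.Z ω = F.Z ω' := (Prod.ext_iff.mp hh).2
      have h3 : F.u ω = F.u ω' := (Prod.ext_iff.mp h1).1
      have h4 : F.d ω = F.d ω' := (Prod.ext_iff.mp h1).2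
      refine Prod.ext ?_ hh
      refine Prod.ext ?_ ?_
      · funext i
        change ∑ j, A (F.Z ω) (ι i) j * F.u ω j = ∑ j, A (F.Z ω') (ι i) j * F.u ω' j
        rw [h2, h3]
      · funext i
        change ∑ j, A (F.Z ω) (ι i) j * F.d ω j = ∑ j, A (F.Z ω') (ι i) j * F.d ω' j
        rw [h2, h4]
    · intro ω ω' _ _ hh
      exact (Prod.ext_iff.mp hh).2
  unfold Fam.Tm at he ⊢
  rw [h] at he
  exact he

/-- The label of the window: time and position at its beginning, the latter in the stretched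
coordinates, and the side information. -/
noncomputable def blab (S : Finset (Fin m)) (g J' w : ℕ) (ω : F.Ω) :
    (ℕ × (Fin k → ℤ)) × ((Fin m → ℤ) × F.ζ) :=
  ((F.T1 w ω, fl w ((prj F ι A hA).x1 w ω)),
    (fl J' (azv S g (A (F.Z ω)) (F.x1 w ω)), F.Z ω))

/-! ### Closeness -/

lemma azv_lin (S : Finset (Fin m)) (g : ℕ) (M : Matrix (Fin m) (Fin m) ℝ) (x d : Fin m → ℝ)
    (c : ℝ) (i : Fin m) :
    azv S g M (fun j => x j + c * d j) i = azv S g M x i + c * azv S g M d i := by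
  have h := azv_add S g M x (fun j => c * d j) i
  rw [azv_smul] at h
  exact h

/-- Position at the time and at the beginning of the window. -/
lemma x_x1 {k : ℕ} (G : Fam k J) {j w : ℕ} (hj : j ≤ w) (hw : w ≤ J) (ω : G.Ω) (i : Fin k) :
    |2 ^ j * G.x ω i - 2 ^ j * G.x1 w ω i| ≤ 1 := by
  have t1 := T1_real G hw ω
  have e1 : 2 ^ j * G.x ω i - 2 ^ j * G.x1 w ω i =
      (2 ^ j / 2 ^ w * (2 ^ w * G.t ω - G.T1 w ω)) * G.d ω i := by
    unfold Fam.x Fam.x1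
    field_simp
    ring
  rw [e1, abs_mul]
  have h1 : (2 : ℝ) ^ j / 2 ^ w ≤ 1 := by
    rw [div_le_one (by positivity)]
    exact pow_le_pow_right₀ (by norm_num) hj
  have h2 : |(2 : ℝ) ^ j / 2 ^ w * (2 ^ w * G.t ω - G.T1 w ω)| ≤ 1 := by
    rw [abs_mul, abs_of_nonneg (a := (2 : ℝ) ^ j / 2 ^ w) (by positivity), abs_of_nonneg t1.1]
    have : (2 : ℝ) ^ j / 2 ^ w * (2 ^ w * G.t ω - G.T1 w ω) ≤ 1 * 1 :=
      mul_le_mul h1 t1.2.le t1.1 (by norm_num)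
    linarith
  calc _ ≤ 1 * 1 := mul_le_mul h2 (G.dir ω i) (abs_nonneg _) (by norm_num)
    _ = 1 := by norm_num

/-- The shift between the beginnings of two windows. -/
lemma T1_shift {w K : ℕ} (h : w + K ≤ J) (ω : F.Ω) :
    0 ≤ 2 ^ w * ((F.T1 (w + K) ω : ℝ) / 2 ^ (w + K) - (F.T1 w ω : ℝ) / 2 ^ w) ∧
    2 ^ w * ((F.T1 (w + K) ω : ℝ) / 2 ^ (w + K) - (F.T1 w ω : ℝ) / 2 ^ w) ≤ 1 := by
  have h1 := T1_div F h ω
  have a1 := Nat.div_add_mod (F.T1 (w + K) ω) (2 ^ K)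
  have a2 := Nat.mod_lt (F.T1 (w + K) ω) (show 0 < 2 ^ K by positivity)
  rw [← h1] at a1
  have b1 : ((2 ^ K * F.T1 w ω + F.T1 (w + K) ω % 2 ^ K : ℕ) : ℝ) = F.T1 (w + K) ω := by
    exact_mod_cast a1
  have b2 : ((F.T1 (w + K) ω % 2 ^ K : ℕ) : ℝ) < 2 ^ K := by exact_mod_cast a2
  have b3 : (0 : ℝ) ≤ ((F.T1 (w + K) ω % 2 ^ K : ℕ) : ℝ) := by positivity
  have e1 : 2 ^ w * ((F.T1 (w + K) ω : ℝ) / 2 ^ (w + K) - (F.T1 w ω : ℝ) / 2 ^ w) =
      ((F.T1 (w + K) ω % 2 ^ K : ℕ) : ℝ) / 2 ^ K := by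
    rw [← b1]
    push_cast
    rw [pow_add]
    field_simp
    ring
  rw [e1]
  constructor
  · positivity
  · rw [div_le_one (by positivity)]
    exact b2.le

lemma T1_T {w : ℕ} (hw : w ≤ J) (ω : F.Ω) :
    0 ≤ 2 ^ w * (F.t ω - (F.T1 w ω : ℝ) / 2 ^ w) ∧
    2 ^ w * (F.t ω - (F.T1 w ω : ℝ) / 2 ^ w) ≤ 1 := by
  have t1 := T1_real F hw ω
  have e1 : 2 ^ w * (F.t ω - (F.T1 w ω : ℝ) / 2 ^ w) = 2 ^ w * F.t ω - F.T1 w ω := by
    field_simp
  rw [e1]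
  exact ⟨t1.1, t1.2.le⟩

/-- Two linear motions with the same time increment. -/
lemma lin_close {a a' b b' c N r : ℝ} (hN : |N * a - N * a'| ≤ 1) (hc : 0 ≤ N * c)
    (hc1 : N * c ≤ 1) (hb : |b - b'| ≤ r) :
    |N * (a + c * b) - N * (a' + c * b')| ≤ 1 + r ∧
    |N * (a - c * b) - N * (a' - c * b')| ≤ 1 + r := by
  have h1 : |N * c * (b - b')| ≤ r := by
    rw [abs_mul, abs_of_nonneg hc]
    calc _ ≤ 1 * r := mul_le_mul hc1 hb (abs_nonneg _) (by norm_num)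
      _ = r := one_mul r
  rw [abs_le] at hN h1
  constructor
  · rw [abs_le]
    have e1 : N * (a + c * b) - N * (a' + c * b') = (N * a - N * a') + N * c * (b - b') := by
      ring
    rw [e1]
    constructor <;> linarith [hN.1, hN.2, h1.1, h1.2]
  · rw [abs_le]
    have e1 : N * (a - c * b) - N * (a' - c * b') = (N * a - N * a') - N * c * (b - b') := by
      ring
    rw [e1]
    constructor <;> linarith [hN.1, hN.2, h1.1, h1.2]

end Pool.KAZ
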