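import Pool.Agent.H26.KAZ.AZTa

/-!
# Total defect of saturation: comparison of the labels
-/

set_option autoImplicit false

namespace Pool.KAZ

open Finset Real
open Pool.Agent.H49.Ent Pool.Agent.H32.Dense Pool.STK Pool.KA Pool.KSAT

variable {m J k : ℕ}

/-- The constant. -/
noncomputable def c9 (m k : ℕ) : ℝ := (k + m) * Real.log 9

lemma c9_nonneg (m k : ℕ) : 0 ≤ c9 m k := by
  unfold c9
  exact mul_nonneg (by positivity) (Real.log_nonneg (by norm_num))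

variable (F : Fam m J) (ι : Fin k → Fin m) (A : F.ζ → Matrix (Fin m) (Fin m) ℝ)
  (hA : ∀ a i, ∑ j, |A a i j| ≤ 1)

lemma azv_x1 (S : Finset (Fin m)) (g w K : ℕ) (ω : F.Ω) (i : Fin m) :
    azv S g (A (F.Z ω)) (F.x1 w ω) i = azv S g (A (F.Z ω)) (F.x1 (w + K) ω) i -
      ((F.T1 (w + K) ω : ℝ) / 2 ^ (w + K) - (F.T1 w ω : ℝ) / 2 ^ w) *
        azv S g (A (F.Z ω)) (F.d ω) i := by
  have h : F.x1 w ω = fun j => F.x1 (w + K) ω j +
      (-((F.T1 (w + K) ω : ℝ) / 2 ^ (w + K) - (F.T1 w ω : ℝ) / 2 ^ w)) * F.d ω j := by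
    funext j
    unfold Fam.x1
    ring
  rw [h, azv_lin]
  ring

lemma azv_xT (S : Finset (Fin m)) (g w : ℕ) (ω : F.Ω) (i : Fin m) :
    azv S g (A (F.Z ω)) (F.x ω) i = azv S g (A (F.Z ω)) (F.x1 w ω) i +
      (F.t ω - (F.T1 w ω : ℝ) / 2 ^ w) * azv S g (A (F.Z ω)) (F.d ω) i := by
  have h : F.x ω = fun j => F.x1 w ω j +
      (F.t ω - (F.T1 w ω : ℝ) / 2 ^ w) * F.d ω j := by
    funext j
    unfold Fam.x1 Fam.x
    ring
  rw [h, azv_lin]

lemma x1_x1 {k : ℕ} (G : Fam k J) (w K : ℕ) (ω : G.Ω) (i : Fin k) :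
    G.x1 w ω i = G.x1 (w + K) ω i -
      ((G.T1 (w + K) ω : ℝ) / 2 ^ (w + K) - (G.T1 w ω : ℝ) / 2 ^ w) * G.d ω i := by
  unfold Fam.x1
  ring

lemma x_xT {k : ℕ} (G : Fam k J) (w : ℕ) (ω : G.Ω) (i : Fin k) :
    G.x1 w ω i = G.x ω i - (G.t ω - (G.T1 w ω : ℝ) / 2 ^ w) * G.d ω i := by
  unfold Fam.x1 Fam.x
  ring

/-- Data for the comparison: the directions are known in the stretched coordinates. -/
def KnD (S : Finset (Fin m)) (g : ℕ) : Prop :=
  ∀ ω ω', 0 < F.p ω → 0 < F.p ω' → F.Z ω = F.Z ω' → ∀ i,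
    |azv S g (A (F.Z ω)) (F.d ω) i - azv S g (A (F.Z ω')) (F.d ω') i| ≤ 2

lemma knD_of (S : Finset (Fin m)) (g : ℕ) (β : F.ζ → Fin m → ℝ)
    (hd : ∀ ω i, |azv S g (A (F.Z ω)) (F.d ω) i - β (F.Z ω) i| ≤ 1) : KnD F A S g := by
  intro ω ω' _ _ hZ i
  have h1 := hd ω i
  have h2 := hd ω' i
  rw [← hZ] at h2
  rw [← hZ]
  rw [abs_le] at h1 h2 ⊢
  constructor <;> linarith [h1.1, h1.2, h2.1, h2.2]

lemma pd_close {k : ℕ} (G : Fam k J) (ω ω' : G.Ω) (i : Fin k) : |G.d ω i - G.d ω' i| ≤ 2 := by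
  have h1 := G.dir ω i
  have h2 := G.dir ω' i
  rw [abs_le] at h1 h2 ⊢
  constructor <;> linarith [h1.1, h1.2, h2.1, h2.2]

/-- From a label to a coarser one. -/
lemma lab_step (S : Finset (Fin m)) (g J' : ℕ) {w K : ℕ} (h : w + K ≤ J) (hJ : J' ≤ w)
    (hD : KnD F A S g) :
    CH F.p (blab F ι A hA S g J' w) (blab F ι A hA S g J' (w + K)) ≤ c9 m k := by
  have hp := F.isLaw
  have hp0 := hp.nonneg
  set V := blab F ι A hA S g J' (w + K) with hV
  set P : F.Ω → Fin k → ℤ := fun ω => fl w ((prj F ι A hA).x1 w ω) with hP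
  set Q : F.Ω → Fin m → ℤ := fun ω => fl J' (azv S g (A (F.Z ω)) (F.x1 w ω)) with hQ
  have hT : ∀ ω ω', V ω = V ω' → F.T1 (w + K) ω = F.T1 (w + K) ω' ∧ F.T1 w ω = F.T1 w ω' ∧
      F.Z ω = F.Z ω' ∧
      fl (w + K) ((prj F ι A hA).x1 (w + K) ω) = fl (w + K) ((prj F ι A hA).x1 (w + K) ω') ∧
      fl J' (azv S g (A (F.Z ω)) (F.x1 (w + K) ω)) =
        fl J' (azv S g (A (F.Z ω')) (F.x1 (w + K) ω')) := by
    intro ω ω' hh
    have q1 := (Prod.ext_iff.mp (Prod.ext_iff.mp hh).1)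
    have q2 := (Prod.ext_iff.mp (Prod.ext_iff.mp hh).2)
    have q3 : F.T1 (w + K) ω = F.T1 (w + K) ω' := q1.1
    refine ⟨q3, ?_, q2.2, q1.2, q2.1⟩
    rw [T1_div F h, T1_div F h, q3]
  have c1 : CH F.p (blab F ι A hA S g J' w) V ≤ CH F.p (fun ω => (P ω, Q ω)) V := by
    refine CH_mono_left hp0 ?_
    intro ω ω' _ _ hh
    obtain ⟨-, h1, h2, -, -⟩ := hT ω ω' (Prod.ext_iff.mp hh).2
    have h3 := Prod.ext_iff.mp (Prod.ext_iff.mp hh).1
    exact Prod.ext (Prod.ext h1 h3.1) (Prod.ext h3.2 h2)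
  have c2 := CH_subadd hp0 P Q V
  have c3 : CH F.p P V ≤ k * Real.log (2 * 4 + 1) := by
    refine CH_vec hp P V 4 ?_
    intro ω ω' a b hh i
    obtain ⟨h1, h2, h3, h4, h5⟩ := hT ω ω' hh
    have hsh := T1_shift F h ω
    have e1 := x1_x1 (prj F ι A hA) w K ω i
    have e2 := x1_x1 (prj F ι A hA) w K ω' i
    have e3 : (prj F ι A hA).T1 (w + K) ω = F.T1 (w + K) ω := rfl
    have e4 : (prj F ι A hA).T1 w ω = F.T1 w ω := rfl
    have e5 : (prj F ι A hA).T1 (w + K) ω' = F.T1 (w + K) ω' := rfl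
    have e6 : (prj F ι A hA).T1 w ω' = F.T1 w ω' := rfl
    rw [e3, e4] at e1
    rw [e5, e6, ← h1, ← h2] at e2
    have h6 := fl_eq_close h4 i
    have h7 : |2 ^ w * (prj F ι A hA).x1 (w + K) ω i - 2 ^ w * (prj F ι A hA).x1 (w + K) ω' i| ≤
        1 := by
      rw [← mul_sub, abs_mul] at h6 ⊢
      refine le_trans (mul_le_mul_of_nonneg_right ?_ (abs_nonneg _)) h6
      rw [abs_of_nonneg (by positivity), abs_of_nonneg (by positivity)]
      exact pow_le_pow_right₀ (by norm_num) (by omega)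
    have h8 := (lin_close (N := (2 : ℝ) ^ w) h7 hsh.1 hsh.2
      (pd_close (prj F ι A hA) ω ω' i)).2
    rw [← e1, ← e2] at h8
    have h9 := floor_sub_le h8
    have e7 : (1 : ℝ) + 2 + 1 = 4 := by norm_num
    rw [e7] at h9
    exact h9
  have c4 : CH F.p Q V ≤ m * Real.log (2 * 4 + 1) := by
    refine CH_vec hp Q V 4 ?_
    intro ω ω' a b hh i
    obtain ⟨h1, h2, h3, h4, h5⟩ := hT ω ω' hh
    have hsh := T1_shift F h ω
    have e1 := azv_x1 F A S g w K ω i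
    have e2 := azv_x1 F A S g w K ω' i
    rw [← h1, ← h2] at e2
    have h6 := fl_eq_close h5 i
    have h10 : 2 ^ J' * ((F.T1 (w + K) ω : ℝ) / 2 ^ (w + K) - (F.T1 w ω : ℝ) / 2 ^ w) ≤
        2 ^ w * ((F.T1 (w + K) ω : ℝ) / 2 ^ (w + K) - (F.T1 w ω : ℝ) / 2 ^ w) := by
      refine mul_le_mul_of_nonneg_right (pow_le_pow_right₀ (by norm_num) hJ) ?_
      exact nonneg_of_mul_nonneg_right hsh.1 (by positivity)
    have h11 : 0 ≤ 2 ^ J' * ((F.T1 (w + K) ω : ℝ) / 2 ^ (w + K) - (F.T1 w ω : ℝ) / 2 ^ w) :=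
      mul_nonneg (by positivity) (nonneg_of_mul_nonneg_right hsh.1 (by positivity))
    have h8 := (lin_close (N := (2 : ℝ) ^ J') h6 h11 (h10.trans hsh.2) (hD ω ω' a b h3 i)).2
    rw [← e1, ← e2] at h8
    have h9 := floor_sub_le h8
    have e7 : (1 : ℝ) + 2 + 1 = 4 := by norm_num
    rw [e7] at h9
    exact h9
  unfold c9
  have e9 : (2 : ℝ) * 4 + 1 = 9 := by norm_num
  rw [e9] at c3 c4
  linarith

/-- From the label and the time to the box. -/
lemma XB_lab (S : Finset (Fin m)) (g J' : ℕ) {w : ℕ} (hw : w ≤ J) (hJ : J' ≤ w)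
    (hD : KnD F A S g) :
    CH F.p (XB F S g A J') (fun ω => (F.T ω, blab F ι A hA S g J' w ω)) ≤ c9 m k := by
  have hp := F.isLaw
  have h0 : CH F.p (XB F S g A J') (fun ω => (F.T ω, blab F ι A hA S g J' w ω)) ≤
      m * Real.log (2 * 4 + 1) := by
    refine CH_vec hp _ _ 4 ?_
    intro ω ω' a b hh i
    have hT : F.T ω = F.T ω' := (Prod.ext_iff.mp hh).1
    have hb := (Prod.ext_iff.mp hh).2
    have q2 := (Prod.ext_iff.mp (Prod.ext_iff.mp hb).2)
    have h3 : F.Z ω = F.Z ω' := q2.2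
    have h5 : fl J' (azv S g (A (F.Z ω)) (F.x1 w ω)) =
      fl J' (azv S g (A (F.Z ω')) (F.x1 w ω')) := q2.1
    have ht : F.t ω = F.t ω' := by
      unfold Fam.t
      rw [hT]
    have h1 : F.T1 w ω = F.T1 w ω' := by
      unfold Fam.T1
      rw [hT]
    have hsh := T1_T F hw ω
    have e1 := azv_xT F A S g w ω i
    have e2 := azv_xT F A S g w ω' i
    rw [← h1, ← ht] at e2
    have h6 := fl_eq_close h5 i
    have hpos : 0 ≤ F.t ω - (F.T1 w ω : ℝ) / 2 ^ w :=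
      nonneg_of_mul_nonneg_right hsh.1 (by positivity)
    have h10 : 2 ^ J' * (F.t ω - (F.T1 w ω : ℝ) / 2 ^ w) ≤
        2 ^ w * (F.t ω - (F.T1 w ω : ℝ) / 2 ^ w) :=
      mul_le_mul_of_nonneg_right (pow_le_pow_right₀ (by norm_num) hJ) hpos
    have h11 : 0 ≤ 2 ^ J' * (F.t ω - (F.T1 w ω : ℝ) / 2 ^ w) := mul_nonneg (by positivity) hpos
    have h8 := (lin_close (N := (2 : ℝ) ^ J') h6 h11 (h10.trans hsh.2) (hD ω ω' a b h3 i)).1
    rw [← e1, ← e2] at h8
    have h9 := floor_sub_le h8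
    have e7 : (1 : ℝ) + 2 + 1 = 4 := by norm_num
    rw [e7] at h9
    exact h9
  unfold c9
  have e9 : (2 : ℝ) * 4 + 1 = 9 := by norm_num
  rw [e9] at h0
  have h1 : 0 ≤ (k : ℝ) * Real.log 9 :=
    mul_nonneg (by positivity) (Real.log_nonneg (by norm_num))
  linarith

/-- The position at the time and at the beginning of a window determine each other. -/
lemma X_X1 {k : ℕ} (G : Fam k J) {j w : ℕ} (hj : j ≤ w) (hw : w ≤ J) {U : Type} (V : G.Ω → U)
    (hV : Det G.p V (fun ω => fl j (G.x1 w ω))) :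
    CH G.p (fun ω => fl j (G.x ω)) V ≤ k * Real.log 9 := by
  have h0 : CH G.p (fun ω => fl j (G.x ω)) V ≤ k * Real.log (2 * 4 + 1) := by
    refine CH_vec G.isLaw _ _ 4 ?_
    intro ω ω' a b hh i
    have h1 := fl_eq_close (hV ω ω' a b hh) i
    have h2 := x_x1 G hj hw ω i
    have h3 := x_x1 G hj hw ω' i
    have h4 : |2 ^ j * G.x ω i - 2 ^ j * G.x ω' i| ≤ 3 := by
      rw [abs_le] at h1 h2 h3 ⊢
      constructor <;> linarith [h1.1, h1.2, h2.1, h2.2, h3.1, h3.2]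
    have h9 := floor_sub_le h4
    have e7 : (3 : ℝ) + 1 = 4 := by norm_num
    rw [e7] at h9
    exact h9
  have e9 : (2 : ℝ) * 4 + 1 = 9 := by norm_num
  rw [e9] at h0
  exact h0

lemma X1_X {k : ℕ} (G : Fam k J) {j w : ℕ} (hj : j ≤ w) (hw : w ≤ J) {U : Type} (V : G.Ω → U)
    (hV : Det G.p V (fun ω => fl j (G.x ω))) :
    CH G.p (fun ω => fl j (G.x1 w ω)) V ≤ k * Real.log 9 := by
  have h0 : CH G.p (fun ω => fl j (G.x1 w ω)) V ≤ k * Real.log (2 * 4 + 1) := by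
    refine CH_vec G.isLaw _ _ 4 ?_
    intro ω ω' a b hh i
    have h1 := fl_eq_close (hV ω ω' a b hh) i
    have h2 := x_x1 G hj hw ω i
    have h3 := x_x1 G hj hw ω' i
    have h4 : |2 ^ j * G.x1 w ω i - 2 ^ j * G.x1 w ω' i| ≤ 3 := by
      rw [abs_le] at h1 h2 h3 ⊢
      constructor <;> linarith [h1.1, h1.2, h2.1, h2.2, h3.1, h3.2]
    have h9 := floor_sub_le h4
    have e7 : (3 : ℝ) + 1 = 4 := by norm_num
    rw [e7] at h9
    exact h9
  have e9 : (2 : ℝ) * 4 + 1 = 9 := by norm_num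
  rw [e9] at h0
  exact h0

/-- Number of labels which are compatible with a position. -/
lemma lab_card (S : Finset (Fin m)) (g J' : ℕ) {w : ℕ} (hw : w ≤ J) (hJ : J' ≤ w)
    (hg : J' + g = J) (hD : KnD F A S g) (ω : F.Ω) (h0 : 0 < F.p ω) [DecidableEq
      ((ℕ × (Fin k → ℤ)) × ((Fin m → ℤ) × F.ζ))]
    [DecidablePred fun ω' => 0 < F.p ω' ∧ (F.X J ω', F.W ω') = (F.X J ω, F.W ω)] :
    (((Finset.univ.filter fun ω' => 0 < F.p ω' ∧ (F.X J ω', F.W ω') = (F.X J ω, F.W ω)).image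
      (blab F ι A hA S g J' w)).card : ℝ) ≤ 9 ^ (k + m) := by
  classical
  set P0 : Fin k → ℤ := fl w ((prj F ι A hA).x1 w ω) with hP0
  set Q0 : Fin m → ℤ := fl J' (azv S g (A (F.Z ω)) (F.x1 w ω)) with hQ0
  set N : Finset ((ℕ × (Fin k → ℤ)) × ((Fin m → ℤ) × F.ζ)) :=
    ((Fintype.piFinset fun i => Finset.Icc (P0 i - 4) (P0 i + 4)) ×ˢ
      (Fintype.piFinset fun i => Finset.Icc (Q0 i - 4) (Q0 i + 4))).image
      (fun v => ((F.T1 w ω, v.1), (v.2, F.Z ω))) with hN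
  have hcard : N.card ≤ 9 ^ (k + m) := by
    refine Finset.card_image_le.trans ?_
    rw [Finset.card_product, Fintype.card_piFinset, Fintype.card_piFinset]
    have e1 : ∀ a : ℤ, (Finset.Icc (a - 4) (a + 4)).card = 9 := by
      intro a
      rw [Int.card_Icc]
      have : a + 4 + 1 - (a - 4) = 9 := by ring
      rw [this]
      rfl
    simp only [e1, Finset.prod_const, Finset.card_univ, Fintype.card_fin]
    rw [pow_add]
  have hsub : (Finset.univ.filter fun ω' => 0 < F.p ω' ∧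
      (F.X J ω', F.W ω') = (F.X J ω, F.W ω)).image (blab F ι A hA S g J' w) ⊆ N := by
    intro v hv
    obtain ⟨ω', hω', rfl⟩ := Finset.mem_image.mp hv
    obtain ⟨hp', hx⟩ := (Finset.mem_filter.mp hω').2
    have hX : F.X J ω' = F.X J ω := (Prod.ext_iff.mp hx).1
    have hW := Prod.ext_iff.mp (Prod.ext_iff.mp hx).2
    have hT : F.T ω' = F.T ω := hW.1
    have hZ : F.Z ω' = F.Z ω := hW.2
    have ht : F.t ω' = F.t ω := by
      unfold Fam.t
      rw [hT]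
    have h1 : F.T1 w ω' = F.T1 w ω := by
      unfold Fam.T1
      rw [hT]
    have hx2 : ∀ j, |F.x ω' j - F.x ω j| ≤ 1 / 2 ^ J := by
      intro j
      have := fl_eq_close hX j
      rw [← mul_sub, abs_mul, abs_of_nonneg (a := (2 : ℝ) ^ J) (by positivity)] at this
      rw [le_div_iff₀ (by positivity)]
      linarith
    have hsh := T1_T F hw ω
    have hpos : 0 ≤ F.t ω - (F.T1 w ω : ℝ) / 2 ^ w :=
      nonneg_of_mul_nonneg_right hsh.1 (by positivity)
    refine Finset.mem_image.mpr ⟨(fl w ((prj F ι A hA).x1 w ω'),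
      fl J' (azv S g (A (F.Z ω')) (F.x1 w ω'))), ?_, ?_⟩
    · rw [Finset.mem_product]
      constructor
      · rw [Fintype.mem_piFinset]
        intro i
        have e1 := x_xT (prj F ι A hA) w ω i
        have e2 := x_xT (prj F ι A hA) w ω' i
        have e3 : (prj F ι A hA).t ω = F.t ω := rfl
        have e4 : (prj F ι A hA).t ω' = F.t ω' := rfl
        have e5 : (prj F ι A hA).T1 w ω = F.T1 w ω := rfl
        have e6 : (prj F ι A hA).T1 w ω' = F.T1 w ω' := rfl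
        rw [e3, e5] at e1
        rw [e4, e6, h1, ht] at e2
        have h6 : |(prj F ι A hA).x ω' i - (prj F ι A hA).x ω i| ≤ 1 / 2 ^ J := by
          rw [prj_x, prj_x, hZ, ← Finset.sum_sub_distrib]
          refine (Finset.abs_sum_le_sum_abs _ _).trans ?_
          have : ∀ j ∈ Finset.univ, |A (F.Z ω) (ι i) j * F.x ω' j -
              A (F.Z ω) (ι i) j * F.x ω j| ≤ |A (F.Z ω) (ι i) j| * (1 / 2 ^ J) := by
            intro j _
            rw [← mul_sub, abs_mul]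
            exact mul_le_mul_of_nonneg_left (hx2 j) (abs_nonneg _)
          refine (Finset.sum_le_sum this).trans ?_
          rw [← Finset.sum_mul]
          calc _ ≤ 1 * (1 / (2 : ℝ) ^ J) :=
              mul_le_mul_of_nonneg_right (hA _ _) (by positivity)
            _ = _ := one_mul _
        have h7 : |2 ^ w * (prj F ι A hA).x ω' i - 2 ^ w * (prj F ι A hA).x ω i| ≤ 1 := by
          rw [← mul_sub, abs_mul, abs_of_nonneg (a := (2 : ℝ) ^ w) (by positivity)]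
          calc _ ≤ (2 : ℝ) ^ J * (1 / 2 ^ J) :=
              mul_le_mul (pow_le_pow_right₀ (by norm_num) hw) h6 (abs_nonneg _) (by positivity)
            _ = 1 := by field_simp
        have h8 := (lin_close (N := (2 : ℝ) ^ w) h7 hsh.1 hsh.2
          (pd_close (prj F ι A hA) ω' ω i)).2
        rw [← e1, ← e2] at h8
        have h9 := floor_sub_le h8
        have e7 : (1 : ℝ) + 2 + 1 = 4 := by norm_num
        rw [e7, abs_le] at h9
        have h10 : P0 i = ⌊2 ^ w * (prj F ι A hA).x1 w ω i⌋ := rfl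
        rw [Finset.mem_Icc]
        change P0 i - 4 ≤ ⌊2 ^ w * (prj F ι A hA).x1 w ω' i⌋ ∧
          ⌊2 ^ w * (prj F ι A hA).x1 w ω' i⌋ ≤ P0 i + 4
        rw [h10]
        obtain ⟨h12, h13⟩ := h9
        have h14 : (-4 : ℤ) ≤ ⌊2 ^ w * (prj F ι A hA).x1 w ω' i⌋ -
            ⌊2 ^ w * (prj F ι A hA).x1 w ω i⌋ := by exact_mod_cast h12
        have h15 : ⌊2 ^ w * (prj F ι A hA).x1 w ω' i⌋ -
            ⌊2 ^ w * (prj F ι A hA).x1 w ω i⌋ ≤ 4 := by exact_mod_cast h13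
        constructor <;> linarith
      · rw [Fintype.mem_piFinset]
        intro i
        have e1 := azv_xT F A S g w ω i
        have e2 := azv_xT F A S g w ω' i
        rw [h1, ht] at e2
        have h6 : |2 ^ J' * azv S g (A (F.Z ω')) (F.x ω') i -
            2 ^ J' * azv S g (A (F.Z ω)) (F.x ω) i| ≤ 1 := by
          rw [hZ, ← mul_sub, abs_mul, abs_of_nonneg (a := (2 : ℝ) ^ J') (by positivity)]
          have h7 := azv_close S g (A (F.Z ω)) (hA _) hx2 i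
          calc _ ≤ (2 : ℝ) ^ J' * (2 ^ g * (1 / 2 ^ J)) :=
              mul_le_mul_of_nonneg_left h7 (by positivity)
            _ = 1 := by
              rw [← hg, pow_add]
              field_simp
        have h10 : 2 ^ J' * (F.t ω - (F.T1 w ω : ℝ) / 2 ^ w) ≤
            2 ^ w * (F.t ω - (F.T1 w ω : ℝ) / 2 ^ w) :=
          mul_le_mul_of_nonneg_right (pow_le_pow_right₀ (by norm_num) hJ) hpos
        have h11 : 0 ≤ 2 ^ J' * (F.t ω - (F.T1 w ω : ℝ) / 2 ^ w) :=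
          mul_nonneg (by positivity) hpos
        have h8 := (lin_close (N := (2 : ℝ) ^ J') h6 h11 (h10.trans hsh.2)
          (hD ω' ω hp' h0 hZ i)).2
        have e3 : azv S g (A (F.Z ω')) (F.x ω') i - (F.t ω - (F.T1 w ω : ℝ) / 2 ^ w) *
            azv S g (A (F.Z ω')) (F.d ω') i = azv S g (A (F.Z ω')) (F.x1 w ω') i := by
          rw [e2]
          ring
        have e4 : azv S g (A (F.Z ω)) (F.x ω) i - (F.t ω - (F.T1 w ω : ℝ) / 2 ^ w) *
            azv S g (A (F.Z ω)) (F.d ω) i = azv S g (A (F.Z ω)) (F.x1 w ω) i := by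
          rw [e1]
          ring
        rw [e3, e4] at h8
        have h9 := floor_sub_le h8
        have e7 : (1 : ℝ) + 2 + 1 = 4 := by norm_num
        rw [e7, abs_le] at h9
        have h12 : Q0 i = ⌊2 ^ J' * azv S g (A (F.Z ω)) (F.x1 w ω) i⌋ := rfl
        rw [Finset.mem_Icc]
        change Q0 i - 4 ≤ ⌊2 ^ J' * azv S g (A (F.Z ω')) (F.x1 w ω') i⌋ ∧
          ⌊2 ^ J' * azv S g (A (F.Z ω')) (F.x1 w ω') i⌋ ≤ Q0 i + 4
        rw [h12]
        obtain ⟨h14, h15⟩ := h9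
        have h16 : (-4 : ℤ) ≤ ⌊2 ^ J' * azv S g (A (F.Z ω')) (F.x1 w ω') i⌋ -
            ⌊2 ^ J' * azv S g (A (F.Z ω)) (F.x1 w ω) i⌋ := by exact_mod_cast h14
        have h17 : ⌊2 ^ J' * azv S g (A (F.Z ω')) (F.x1 w ω') i⌋ -
            ⌊2 ^ J' * azv S g (A (F.Z ω)) (F.x1 w ω) i⌋ ≤ 4 := by exact_mod_cast h15
        constructor <;> linarith
    · rw [← h1, ← hZ]
      rfl
  calc _ ≤ (N.card : ℝ) := by exact_mod_cast Finset.card_le_card hsub
    _ ≤ ((9 ^ (k + m) : ℕ) : ℝ) := by exact_mod_cast hcard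
    _ = 9 ^ (k + m) := by push_cast; rfl

end Pool.KAZ
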