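import Pool.Agent.H26.KAZ.AZTb
import Pool.Agent.H13.KAL.NC1
import Pool.Agent.H33.KSAT.RES2

/-!
# Total defect of saturation: time, chain rules, contexts
-/

set_option autoImplicit false

namespace Pool.KAZ

open Finset Real
open Pool.Agent.H49.Ent Pool.Agent.H32.Dense Pool.STK Pool.KA Pool.KSAT Pool.KAL.NC1

variable {m J k : ℕ}

/-- The time, given functions of the line and of the first digits of the time. -/
lemma time3 {k : ℕ} (G : Fam k J) {w : ℕ} (hw : w ≤ J) {U S : Type} (Y : G.Ω → S) (V : G.Ω → U)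
    {e : ℝ} (he : G.Tm e)
    (hY : Det G.p (fun ω => (G.l ω, (G.T1 w ω, G.Z ω))) (fun ω => (Y ω, V ω))) :
    CH G.p Y (fun ω => (G.T1 w ω, V ω)) ≤ CH G.p Y (fun ω => (G.T ω, V ω)) + e := by
  have hp := G.isLaw
  have h0 := hp.nonneg
  have b1 := CH_bayes h0 Y G.T (fun ω => (G.T1 w ω, V ω))
  have b2 : CH G.p Y (fun ω => (G.T ω, (G.T1 w ω, V ω))) = CH G.p Y (fun ω => (G.T ω, V ω)) := by
    refine CH_congr h0 ?_ ?_ ?_ ?_
    · intro ω ω' _ _ hh
      exact (Prod.ext_iff.mp hh).1
    · intro ω ω' _ _ hh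
      exact (Prod.ext_iff.mp hh).1
    · intro ω ω' _ _ hh
      simp only [Prod.mk.injEq] at hh ⊢
      exact ⟨hh.1, hh.2.2⟩
    · intro ω ω' _ _ hh
      simp only [Prod.mk.injEq] at hh ⊢
      refine ⟨hh.1, ?_, hh.2⟩
      unfold Fam.T1
      rw [hh.1]
  have b3 : CH G.p G.T (fun ω => (G.T1 w ω, V ω)) ≤ ((J - w : ℕ) : ℝ) * Real.log 2 :=
    TRC.CH_div hp G.T V (J - w)
  have b4 : CH G.p G.T (fun ω => (G.T1 w ω, (G.l ω, G.Z ω))) ≤
      CH G.p G.T (fun ω => (Y ω, (G.T1 w ω, V ω))) := by
    refine CH_mono_cond h0 ?_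
    intro ω ω' a b hh
    simp only [Prod.mk.injEq] at hh
    have h1 := hY ω ω' a b (by
      simp only [Prod.mk.injEq]
      exact ⟨hh.2.1, hh.1, hh.2.2⟩)
    simp only [Prod.mk.injEq] at h1 ⊢
    exact ⟨h1.1, hh.1, h1.2⟩
  have b5 := CH_le_add h0 G.T (G.T1 w) (fun ω => (G.l ω, G.Z ω))
  have b6 : CH G.p (G.T1 w) (fun ω => (G.l ω, G.Z ω)) ≤ w * Real.log 2 := by
    refine TRC.CH_lt hp _ _ w ?_
    intro ω
    unfold Fam.T1
    rw [Nat.div_lt_iff_lt_mul (by positivity), ← pow_add]
    have h1 := G.tim ω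
    have e1 : w + (J - w) = J := by omega
    rwa [e1]
  have e1 : ((J - w : ℕ) : ℝ) = J - w := by
    rw [Nat.cast_sub hw]
  rw [e1] at b3
  unfold Fam.Tm at he
  have e2 : ((J : ℝ) - w) * Real.log 2 = J * Real.log 2 - w * Real.log 2 := by ring
  rw [e2] at b3
  linarith

/-! ### Contexts -/

open Classical in
/-- From the position to a context, for a family of events. -/
theorem ctxE {Ω T U κ : Type} [Fintype Ω] {p : Ω → ℝ} (hp : IsLaw p) (E : κ → Ω → Prop)
    (x : Ω → T) (b : Ω → U) {ρ η C : ℝ} (hρ : 0 ≤ ρ) (hη : 0 < η)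
    (h1 : ∀ ω, 0 < p ω → ∀ c, Pe p (fun ω' => x ω' = x ω ∧ E c ω') ≤ ρ * law p x (x ω))
    (h2 : ∀ ω, 0 < p ω →
      (((univ.filter fun ω' => 0 < p ω' ∧ x ω' = x ω).image b).card : ℝ) ≤ C) :
    ∃ G : U → Prop, 1 - C * η ≤ Pe p (fun ω => G (b ω)) ∧
      ∀ u, G u → ∀ c, Pe p (fun ω => b ω = u ∧ E c ω) ≤ ρ / η * law p b u := by
  have hp0 := hp.nonneg
  set M : U → ℝ := fun u => Pe p (fun ω => Cmp p x b (x ω) u) with hM
  have hM0 : ∀ u, 0 ≤ M u := fun u => Pe_nonneg hp0 _
  refine ⟨fun u => η * M u ≤ law p b u, ?_, ?_⟩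
  · have h3 := Pe_add_not hp (fun ω => η * M (b ω) ≤ law p b (b ω))
    have h4 : Pe p (fun ω => ¬ η * M (b ω) ≤ law p b (b ω)) ≤ C * η := by
      have e1 : Pe p (fun ω => ¬ η * M (b ω) ≤ law p b (b ω)) ≤
          ∑ ω, p ω * (η * M (b ω) / law p b (b ω)) := by
        unfold Pe
        refine Finset.sum_le_sum fun ω _ => ?_
        rcases (hp0 ω).eq_or_lt with h0 | h0
        · rw [← h0]; simp
        have l0 := law_pos hp0 b h0
        split_ifs with hh
        · have : 1 ≤ η * M (b ω) / law p b (b ω) := by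
            rw [one_le_div l0]
            exact (not_le.mp hh).le
          calc p ω = p ω * 1 := (mul_one _).symm
            _ ≤ _ := mul_le_mul_of_nonneg_left this h0.le
        · exact mul_nonneg h0.le (div_nonneg (mul_nonneg hη.le (hM0 _)) l0.le)
      refine e1.trans ?_
      rw [sum_mul_eq_sum_image p b (fun u => η * M u / law p b u)]
      set I : Finset U := (univ.filter fun ω => 0 < p ω).image b with hI
      have e2 : ∑ u ∈ univ.image b, law p b u * (η * M u / law p b u) ≤
          ∑ u ∈ I, η * M u := by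
        have e3 : ∑ u ∈ univ.image b, law p b u * (η * M u / law p b u) =
            ∑ u ∈ I, law p b u * (η * M u / law p b u) := by
          symm
          refine Finset.sum_subset (Finset.image_subset_image (Finset.filter_subset _ _)) ?_
          intro u _ hu
          have : law p b u = 0 := by
            unfold law
            refine Finset.sum_eq_zero fun ω _ => ?_
            split_ifs with hh
            · by_contra hne
              refine hu (Finset.mem_image.mpr ⟨ω, ?_, hh⟩)
              exact Finset.mem_filter.mpr ⟨Finset.mem_univ _,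
                lt_of_le_of_ne (hp0 ω) (Ne.symm hne)⟩
            · rfl
          rw [this, zero_mul]
        rw [e3]
        refine Finset.sum_le_sum fun u _ => ?_
        by_cases h0 : law p b u = 0
        · rw [h0, zero_mul]
          exact mul_nonneg hη.le (hM0 u)
        · rw [mul_div_cancel₀ _ h0]
      refine e2.trans ?_
      rw [← Finset.mul_sum]
      have e4 : ∑ u ∈ I, M u ≤ C := by
        simp only [hM]
        unfold Pe
        rw [Finset.sum_comm]
        have e5 : ∀ ω, ∑ u ∈ I, (if Cmp p x b (x ω) u then p ω else 0) ≤ p ω * C := by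
          intro ω
          rcases (hp0 ω).eq_or_lt with h0 | h0
          · rw [← h0]; simp
          rw [← Finset.sum_filter, Finset.sum_const, nsmul_eq_mul, mul_comm]
          refine mul_le_mul_of_nonneg_left (le_trans ?_ (h2 ω h0)) h0.le
          have : I.filter (fun u => Cmp p x b (x ω) u) ⊆
              (univ.filter fun ω' => 0 < p ω' ∧ x ω' = x ω).image b := by
            intro u hu
            obtain ⟨_, ω', k1, k2, k3⟩ := Finset.mem_filter.mp hu
            exact Finset.mem_image.mpr ⟨ω', Finset.mem_filter.mpr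
              ⟨Finset.mem_univ _, k1, k2⟩, k3⟩
          exact_mod_cast Finset.card_le_card this
        refine (Finset.sum_le_sum fun ω _ => e5 ω).trans ?_
        rw [← Finset.sum_mul, hp.sum_one, one_mul]
      nlinarith
    linarith
  · intro u hu c
    set IU : Finset T := (univ.image x).filter (fun s => Cmp p x b s u) with hIU
    have l0 : Pe p (fun ω => b ω = u ∧ E c ω) ≤ ρ * M u := by
      have e1 : Pe p (fun ω => b ω = u ∧ E c ω) ≤ Pe p (fun ω => x ω ∈ IU ∧ E c ω) :=
        Pe_mono hp0 fun ω h0 hh => ⟨Finset.mem_filter.mpr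
          ⟨Finset.mem_image_of_mem x (Finset.mem_univ ω), ω, h0, rfl, hh.1⟩, hh.2⟩
      refine e1.trans ?_
      rw [← Pe_sum_eq]
      have e2 : ∀ s ∈ IU, Pe p (fun ω => x ω = s ∧ E c ω) ≤ ρ * law p x s := by
        intro s hs
        obtain ⟨_, ω, k1, k2, k3⟩ := Finset.mem_filter.mp hs
        have := h1 ω k1 c
        rwa [k2] at this
      refine (Finset.sum_le_sum e2).trans ?_
      rw [← Finset.mul_sum]
      refine mul_le_mul_of_nonneg_left ?_ hρ
      have e3 : ∀ s, law p x s = Pe p (fun ω => x ω = s ∧ True) := by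
        intro s
        rw [law_eq_Pe]
        simp
      simp only [e3]
      rw [Pe_sum_eq]
      exact Pe_mono hp0 fun _ _ h => (Finset.mem_filter.mp h.1).2
    calc _ ≤ ρ * M u := l0
      _ = ρ / η * (η * M u) := by field_simp
      _ ≤ ρ / η * law p b u := mul_le_mul_of_nonneg_left hu (div_nonneg hρ hη.le)

open Classical in
/-- Sums over the conditional law. -/
lemma sum_cond_Pe {Ω T : Type} [Fintype Ω] {p : Ω → ℝ} (x : Ω → T) (s : T) (E : Ω → Prop) :
    (∑ ω, if E ω then cond p x s ω else 0) = Pe p (fun ω => x ω = s ∧ E ω) / law p x s := by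
  unfold Pe
  rw [Finset.sum_div]
  refine Finset.sum_congr rfl fun ω _ => ?_
  unfold Pool.Agent.H49.Ent.cond
  by_cases h1 : E ω <;> by_cases h2 : x ω = s <;> simp [h1, h2]

open Classical in
/-- Conditioning to an event which is determined by the label. -/
lemma cond_cond {Ω T : Type} [Fintype Ω] {p : Ω → ℝ} (hp : ∀ ω, 0 ≤ p ω) (b : Ω → T)
    (G : T → Prop) (A : Ω → Bool) (hA : ∀ ω, A ω = decide (G (b ω))) {u : T} (hu : G u)
    (hl : 0 < law p b u) (ω : Ω) :
    cond (cond p A true) b u ω = cond p b u ω := by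
  have hAu : ∀ ω, b ω = u → A ω = true := by
    intro ω h
    rw [hA, h]
    exact decide_eq_true hu
  have hlA : 0 < law p A true := by
    have h1 : law p b u ≤ law p A true := by
      rw [law_eq_Pe, law_eq_Pe]
      exact Pe_mono hp fun ω _ h => hAu ω h
    linarith
  have e1 : law (cond p A true) b u = law p b u / law p A true := by
    unfold law
    rw [Finset.sum_div]
    refine Finset.sum_congr rfl fun ω' _ => ?_
    by_cases h : b ω' = u
    · rw [if_pos h, if_pos h]
      unfold Pool.Agent.H49.Ent.cond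
      rw [if_pos (hAu ω' h)]
      rfl
    · rw [if_neg h, if_neg h, zero_div]
  by_cases h : b ω = u
  · have e2 : cond (cond p A true) b u ω = cond p A true ω / law (cond p A true) b u := by
      conv_lhs => unfold Pool.Agent.H49.Ent.cond
      rw [if_pos h]
      rfl
    have e3 : cond p A true ω = p ω / law p A true := by
      unfold Pool.Agent.H49.Ent.cond
      rw [if_pos (hAu ω h)]
    have e4 : cond p b u ω = p ω / law p b u := by
      unfold Pool.Agent.H49.Ent.cond
      rw [if_pos h]
    rw [e2, e1, e3, e4]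
    field_simp
  · have e2 : cond (cond p A true) b u ω = 0 := by
      conv_lhs => unfold Pool.Agent.H49.Ent.cond
      rw [if_neg h]
    have e4 : cond p b u ω = 0 := by
      unfold Pool.Agent.H49.Ent.cond
      rw [if_neg h]
    rw [e2, e4]

/-- The entropy inside an event which is determined by the condition. -/
lemma CH_event {Ω S T : Type} [Fintype Ω] {p : Ω → ℝ} (hp : IsLaw p) (Y : Ω → S) (V : Ω → T)
    (A : Ω → Bool) (hA : Det p V A) :
    law p A true * CH (cond p A true) Y V ≤ CH p Y V := by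
  have h := res2_thm Ω S T S Bool p Y V Y A true hp
    (fun ω ω' a b hh => hA ω ω' a b (Prod.ext_iff.mp hh).2)
  have e1 : CH (cond p A true) Y (fun ω => (V ω, Y ω)) = 0 :=
    CH_eq_zero (fun ω => cond_nonneg hp.nonneg A true ω)
      (fun ω ω' _ _ hh => (Prod.ext_iff.mp hh).2)
  have e2 : 0 ≤ CH p Y (fun ω => (V ω, Y ω)) := CH_nonneg hp.nonneg _ _
  rw [e1, sub_zero] at h
  linarith

end Pool.KAZ
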