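import Pool.Agent.H26.KAZ.AZTc

/-!
# Total defect of saturation: blocks and sums
-/

set_option autoImplicit false

namespace Pool.KAZ

open Finset Real
open Pool.Agent.H49.Ent Pool.Agent.H32.Dense Pool.STK Pool.KA Pool.KSAT Pool.KAL.NC1

variable {m J k : ℕ} (F : Fam m J) (ι : Fin k → Fin m) (A : F.ζ → Matrix (Fin m) (Fin m) ℝ)
  (hA : ∀ a i, ∑ j, |A a i j| ≤ 1)

lemma k9_le (m k : ℕ) : (k : ℝ) * Real.log 9 ≤ c9 m k := by
  unfold c9
  have : 0 ≤ (m : ℝ) * Real.log 9 := mul_nonneg (by positivity) (Real.log_nonneg (by norm_num))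
  linarith

/-- One block: conditions of the saturation lemma and conditions of the chain rule. -/
lemma block_cond (S : Finset (Fin m)) (g J' : ℕ) {w h : ℕ} (hw : w + 2 * h ≤ J) (hJ : J' ≤ w)
    (hD : KnD F A S g) {e : ℝ} (he : F.Tm e) :
    CH F.p ((prj F ι A hA).X (w + 2 * h)) (fun ω => ((prj F ι A hA).T1 (w + 2 * h) ω,
      (prj F ι A hA).X (w + h) ω, blab F ι A hA S g J' w ω)) ≤
    CH F.p ((prj F ι A hA).X (w + 2 * h)) (fun ω => ((prj F ι A hA).X (w + h) ω,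
      (XB F S g A J' ω, F.W ω))) + 5 * c9 m k + e := by
  have hp0 := F.isLaw.nonneg
  have hwJ : w ≤ J := by omega
  have h1J : w + h ≤ w + 2 * h := by omega
  have k9 := k9_le m k
  have hG := prj_Tm F ι A hA he
  set Y2 : F.Ω → Fin k → ℤ := (prj F ι A hA).X (w + 2 * h) with hY2
  set Y1 : F.Ω → Fin k → ℤ := (prj F ι A hA).X (w + h) with hY1
  set Z2 : F.Ω → Fin k → ℤ := fun ω => fl (w + 2 * h) ((prj F ι A hA).x1 (w + 2 * h) ω) with hZ2
  set Z1 : F.Ω → Fin k → ℤ := fun ω => fl (w + h) ((prj F ι A hA).x1 (w + 2 * h) ω) with hZ1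
  set τ : F.Ω → ℕ := (prj F ι A hA).T1 (w + 2 * h) with hτ
  set B := blab F ι A hA S g J' w with hB
  -- (i)
  have s1 := CH_le_add hp0 Y2 Z2 (fun ω => (τ ω, Y1 ω, B ω))
  have s1' : CH F.p Y2 (fun ω => (Z2 ω, (τ ω, Y1 ω, B ω))) ≤ k * Real.log 9 :=
    X_X1 (prj F ι A hA) le_rfl hw _ (fun ω ω' _ _ hh => (Prod.ext_iff.mp hh).1)
  -- (ii)
  have s2 := CH_swap hp0 Z2 (fun ω => (τ ω, Z1 ω, B ω)) (fun ω => (τ ω, Y1 ω, B ω))
  have s2' : CH F.p (fun ω => (τ ω, Z1 ω, B ω)) (fun ω => (τ ω, Y1 ω, B ω)) ≤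
      CH F.p Z1 (fun ω => (τ ω, Y1 ω, B ω)) := by
    refine CH_mono_left hp0 ?_
    intro ω ω' _ _ hh
    simp only [Prod.mk.injEq] at hh ⊢
    exact ⟨hh.2.1, hh.1, hh.2.2.2⟩
  have s2'' : CH F.p Z1 (fun ω => (τ ω, Y1 ω, B ω)) ≤ k * Real.log 9 :=
    X1_X (prj F ι A hA) h1J hw _ (fun ω ω' _ _ hh =>
      (Prod.ext_iff.mp (Prod.ext_iff.mp hh).2).1)
  -- (iii)
  have s3 : CH F.p Z2 (fun ω => (τ ω, Z1 ω, B ω)) ≤
      CH F.p Z2 (fun ω => (F.T ω, Z1 ω, B ω)) + e := by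
    refine time3 (prj F ι A hA) hw Z2 (fun ω => (Z1 ω, B ω)) hG ?_
    intro ω ω' _ _ hh
    have hT : (prj F ι A hA).T1 (w + 2 * h) ω = (prj F ι A hA).T1 (w + 2 * h) ω' :=
      (Prod.ext_iff.mp (Prod.ext_iff.mp hh).2).1
    have hl : (prj F ι A hA).l ω = (prj F ι A hA).l ω' := (Prod.ext_iff.mp hh).1
    have hZ : (prj F ι A hA).Z ω = (prj F ι A hA).Z ω' :=
      (Prod.ext_iff.mp (Prod.ext_iff.mp hh).2).2
    have hl2 : F.l ω = F.l ω' := (Prod.ext_iff.mp hZ).1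
    have hZ2 : F.Z ω = F.Z ω' := (Prod.ext_iff.mp hZ).2
    have hu : F.u ω = F.u ω' := (Prod.ext_iff.mp hl2).1
    have hd : F.d ω = F.d ω' := (Prod.ext_iff.mp hl2).2
    have hu2 : (prj F ι A hA).u ω = (prj F ι A hA).u ω' := (Prod.ext_iff.mp hl).1
    have hd2 : (prj F ι A hA).d ω = (prj F ι A hA).d ω' := (Prod.ext_iff.mp hl).2
    have hTw : F.T1 w ω = F.T1 w ω' := by
      have e1 := T1_div F hw ω
      have e2 := T1_div F hw ω'
      have e3 : F.T1 (w + 2 * h) ω = F.T1 (w + 2 * h) ω' := hT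
      rw [e1, e2, e3]
    have hx2 : (prj F ι A hA).x1 (w + 2 * h) ω = (prj F ι A hA).x1 (w + 2 * h) ω' := by
      funext i
      unfold Fam.x1
      rw [hT, hu2, hd2]
    have hx3 : (prj F ι A hA).x1 w ω = (prj F ι A hA).x1 w ω' := by
      funext i
      have hTw' : (prj F ι A hA).T1 w ω = (prj F ι A hA).T1 w ω' := hTw
      unfold Fam.x1
      rw [hTw', hu2, hd2]
    have hx4 : F.x1 w ω = F.x1 w ω' := by
      funext i
      unfold Fam.x1
      rw [hTw, hu, hd]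
    have hB2 : B ω = B ω' := by
      rw [hB]
      unfold blab
      rw [hTw, hx3, hx4, hZ2]
    have hz2 : Z2 ω = Z2 ω' := congrArg (fl (w + 2 * h)) hx2
    have hz1 : Z1 ω = Z1 ω' := congrArg (fl (w + h)) hx2
    simp only [Prod.mk.injEq]
    exact ⟨hz2, hz1, hB2⟩
  -- (iv)
  have s4 := CH_swap hp0 Z2 (fun ω => (F.T ω, Y1 ω, B ω)) (fun ω => (F.T ω, Z1 ω, B ω))
  have s4' : CH F.p (fun ω => (F.T ω, Y1 ω, B ω)) (fun ω => (F.T ω, Z1 ω, B ω)) ≤
      CH F.p Y1 (fun ω => (F.T ω, Z1 ω, B ω)) := by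
    refine CH_mono_left hp0 ?_
    intro ω ω' _ _ hh
    simp only [Prod.mk.injEq] at hh ⊢
    exact ⟨hh.2.1, hh.1, hh.2.2.2⟩
  have s4'' : CH F.p Y1 (fun ω => (F.T ω, Z1 ω, B ω)) ≤ k * Real.log 9 :=
    X_X1 (prj F ι A hA) h1J hw _ (fun ω ω' _ _ hh =>
      (Prod.ext_iff.mp (Prod.ext_iff.mp hh).2).1)
  -- (v)
  have s5 := CH_le_add hp0 Z2 Y2 (fun ω => (F.T ω, Y1 ω, B ω))
  have s5' : CH F.p Z2 (fun ω => (Y2 ω, (F.T ω, Y1 ω, B ω))) ≤ k * Real.log 9 :=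
    X1_X (prj F ι A hA) le_rfl hw _ (fun ω ω' _ _ hh => (Prod.ext_iff.mp hh).1)
  -- (vi)
  have s6 := CH_swap hp0 Y2 (fun ω => (Y1 ω, (XB F S g A J' ω, F.W ω)))
    (fun ω => (F.T ω, Y1 ω, B ω))
  have s6' : CH F.p (fun ω => (Y1 ω, (XB F S g A J' ω, F.W ω))) (fun ω => (F.T ω, Y1 ω, B ω)) ≤
      CH F.p (XB F S g A J') (fun ω => (F.T ω, Y1 ω, B ω)) := by
    refine CH_mono_left hp0 ?_
    intro ω ω' _ _ hh
    simp only [Prod.mk.injEq] at hh ⊢
    have hb : F.Z ω = F.Z ω' := (Prod.ext_iff.mp (Prod.ext_iff.mp hh.2.2.2).2).2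
    exact ⟨hh.2.2.1, hh.1, Prod.ext hh.2.1 hb⟩
  have s6'' : CH F.p (XB F S g A J') (fun ω => (F.T ω, Y1 ω, B ω)) ≤
      CH F.p (XB F S g A J') (fun ω => (F.T ω, B ω)) := by
    refine CH_mono_cond hp0 ?_
    intro ω ω' _ _ hh
    simp only [Prod.mk.injEq] at hh ⊢
    exact ⟨hh.1, hh.2.2⟩
  have s6''' := XB_lab F ι A hA S g J' hwJ hJ hD
  linarith

/-- From the position to the first block. -/
lemma tel1 (S : Finset (Fin m)) {g J' : ℕ} (hg : J' + g = J) :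
    CH F.p ((prj F ι A hA).X J) (fun ω => (XB F S g A J' ω, F.W ω)) ≤
      CH F.p (F.X J) F.W - CH F.p (XB F S g A J') F.W + c9 m k := by
  have hp0 := F.isLaw.nonneg
  have c1 := CH_chain hp0 ((prj F ι A hA).X J) (XB F S g A J') F.W
  have c2 := CH_le_add hp0 (fun ω => ((prj F ι A hA).X J ω, XB F S g A J' ω)) (F.X J) F.W
  have c3 := CH_subadd hp0 ((prj F ι A hA).X J) (XB F S g A J') (fun ω => (F.X J ω, F.W ω))
  have hx2 : ∀ ω ω', F.X J ω = F.X J ω' → ∀ j, |F.x ω j - F.x ω' j| ≤ 1 / 2 ^ J := by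
    intro ω ω' hX j
    have := fl_eq_close hX j
    rw [← mul_sub, abs_mul, abs_of_nonneg (a := (2 : ℝ) ^ J) (by positivity)] at this
    rw [le_div_iff₀ (by positivity)]
    linarith
  have c4 : CH F.p ((prj F ι A hA).X J) (fun ω => (F.X J ω, F.W ω)) ≤
      k * Real.log (2 * 4 + 1) := by
    refine CH_vec F.isLaw _ _ 4 ?_
    intro ω ω' _ _ hh i
    have hX : F.X J ω = F.X J ω' := (Prod.ext_iff.mp hh).1
    have hZ : F.Z ω = F.Z ω' := (Prod.ext_iff.mp (Prod.ext_iff.mp hh).2).2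
    have h6 : |(prj F ι A hA).x ω i - (prj F ι A hA).x ω' i| ≤ 1 / 2 ^ J := by
      rw [prj_x, prj_x, hZ, ← Finset.sum_sub_distrib]
      refine (Finset.abs_sum_le_sum_abs _ _).trans ?_
      have : ∀ j ∈ Finset.univ, |A (F.Z ω') (ι i) j * F.x ω j -
          A (F.Z ω') (ι i) j * F.x ω' j| ≤ |A (F.Z ω') (ι i) j| * (1 / 2 ^ J) := by
        intro j _
        rw [← mul_sub, abs_mul]
        exact mul_le_mul_of_nonneg_left (hx2 ω ω' hX j) (abs_nonneg _)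
      refine (Finset.sum_le_sum this).trans ?_
      rw [← Finset.sum_mul]
      calc _ ≤ 1 * (1 / (2 : ℝ) ^ J) :=
          mul_le_mul_of_nonneg_right (hA _ _) (by positivity)
        _ = _ := one_mul _
    have h7 : |2 ^ J * (prj F ι A hA).x ω i - 2 ^ J * (prj F ι A hA).x ω' i| ≤ 1 := by
      rw [← mul_sub, abs_mul, abs_of_nonneg (a := (2 : ℝ) ^ J) (by positivity)]
      calc _ ≤ (2 : ℝ) ^ J * (1 / 2 ^ J) := mul_le_mul_of_nonneg_left h6 (by positivity)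
        _ = 1 := by field_simp
    have h9 := floor_sub_le h7
    refine le_trans h9 (by norm_num)
  have c5 : CH F.p (XB F S g A J') (fun ω => (F.X J ω, F.W ω)) ≤ m * Real.log (2 * 4 + 1) := by
    refine CH_vec F.isLaw _ _ 4 ?_
    intro ω ω' _ _ hh i
    have hX : F.X J ω = F.X J ω' := (Prod.ext_iff.mp hh).1
    have hZ : F.Z ω = F.Z ω' := (Prod.ext_iff.mp (Prod.ext_iff.mp hh).2).2
    have h6 : |2 ^ J' * azv S g (A (F.Z ω)) (F.x ω) i -
        2 ^ J' * azv S g (A (F.Z ω')) (F.x ω') i| ≤ 1 := by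
      rw [hZ, ← mul_sub, abs_mul, abs_of_nonneg (a := (2 : ℝ) ^ J') (by positivity)]
      have h7 := azv_close S g (A (F.Z ω')) (hA _) (hx2 ω ω' hX) i
      calc _ ≤ (2 : ℝ) ^ J' * (2 ^ g * (1 / 2 ^ J)) :=
          mul_le_mul_of_nonneg_left h7 (by positivity)
        _ = 1 := by
          have e1 : (2 : ℝ) ^ J = 2 ^ J' * 2 ^ g := by rw [← hg, pow_add]
          rw [e1]
          field_simp
    have h9 := floor_sub_le h6
    refine le_trans h9 (by norm_num)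
  have e9 : (2 : ℝ) * 4 + 1 = 9 := by norm_num
  rw [e9] at c4 c5
  unfold c9
  linarith

/-- Coarser digits. -/
lemma X_coarse {k : ℕ} (G : Fam k J) (w h : ℕ) {U : Type} (V : G.Ω → U) :
    CH G.p (G.X (w + h)) V = CH G.p (G.X w) V + CH G.p (G.X (w + h)) (fun ω => (G.X w ω, V ω)) := by
  have hp0 := G.isLaw.nonneg
  rw [← CH_chain hp0]
  refine CH_congr hp0 ?_ ?_ (fun _ _ _ _ hh => hh) (fun _ _ _ _ hh => hh)
  · intro ω ω' _ _ hh
    have h1 : G.X (w + h) ω = G.X (w + h) ω' := (Prod.ext_iff.mp hh).1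
    refine Prod.ext h1 ?_
    have h2 : ∀ ω'', G.X w ω'' = fun i => G.X (w + h) ω'' i / 2 ^ h := by
      intro ω''
      funext i
      change ⌊2 ^ w * G.x ω'' i⌋ = ⌊2 ^ (w + h) * G.x ω'' i⌋ / 2 ^ h
      have h3 := Int.floor_div_natCast (2 ^ (w + h) * G.x ω'' i) (2 ^ h)
      have e1 : 2 ^ (w + h) * G.x ω'' i / ((2 ^ h : ℕ) : ℝ) = 2 ^ w * G.x ω'' i := by
        push_cast
        rw [pow_add]
        field_simp
      rw [e1] at h3
      rw [h3]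
      push_cast
      rfl
    change G.X w ω = G.X w ω'
    rw [h2 ω, h2 ω', h1]
  · intro ω ω' _ _ hh
    exact (Prod.ext_iff.mp (Prod.ext_iff.mp hh).1).1

/-- The sum over the blocks. -/
lemma tel2 {k : ℕ} (G : Fam k J) (J' h : ℕ) {U : Type} (V : G.Ω → U) (N : ℕ) :
    ∑ i ∈ Finset.range N, CH G.p (G.X (J' + i * h + 2 * h))
      (fun ω => (G.X (J' + i * h + h) ω, V ω)) ≤ CH G.p (G.X (J' + N * h + h)) V := by
  induction N with
  | zero =>
    rw [Finset.sum_range_zero]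
    exact CH_nonneg G.isLaw.nonneg _ _
  | succ N ih =>
    rw [Finset.sum_range_succ]
    have h1 := X_coarse G (J' + N * h + h) h V
    have e1 : J' + N * h + h + h = J' + N * h + 2 * h := by ring
    have e2 : J' + (N + 1) * h + h = J' + N * h + 2 * h := by ring
    rw [e1] at h1
    rw [e2, h1]
    linarith

end Pool.KAZ
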