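import Pool.Agent.H9.KA.Stmts
import Pool.Agent.H32.Dense.Pair

/-!
# The A-zoom: definitions and statements

A family of lines is written in linear coordinates which may depend on the side information. The
coordinates outside a set `S` are magnified by `2 ^ g`, after an affine motion which depends on
the side information only. The result is a family of resolution `J'`.
-/

set_option autoImplicit false

namespace Pool.KAZ

open Finset Real
open Pool.Agent.H49.Ent Pool.Agent.H32.Dense Pool.STK Pool.KA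

variable {m J : ℕ}

/-- Linear coordinates; those outside `S` are magnified by `2 ^ g`. -/
noncomputable def azv (S : Finset (Fin m)) (g : ℕ) (A : Matrix (Fin m) (Fin m) ℝ)
    (x : Fin m → ℝ) (i : Fin m) : ℝ :=
  2 ^ (if i ∈ S then 0 else g) * ∑ j, A i j * x j

lemma azv_add (S : Finset (Fin m)) (g : ℕ) (A : Matrix (Fin m) (Fin m) ℝ) (x y : Fin m → ℝ)
    (i : Fin m) : azv S g A (fun j => x j + y j) i = azv S g A x i + azv S g A y i := by
  unfold azv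
  rw [← mul_add, ← Finset.sum_add_distrib]
  have h : ∑ j, A i j * (x j + y j) = ∑ j, (A i j * x j + A i j * y j) :=
    Finset.sum_congr rfl fun j _ => by ring
  rw [h]

lemma azv_smul (S : Finset (Fin m)) (g : ℕ) (A : Matrix (Fin m) (Fin m) ℝ) (c : ℝ)
    (x : Fin m → ℝ) (i : Fin m) : azv S g A (fun j => c * x j) i = c * azv S g A x i := by
  unfold azv
  have h : ∑ j, A i j * (c * x j) = c * ∑ j, A i j * x j := by
    rw [Finset.mul_sum]
    exact Finset.sum_congr rfl fun j _ => by ring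
  rw [h]
  ring

/-- The A-zoom. -/
noncomputable def azm (F : Fam m J) (J' : ℕ) (hJ : J' ≤ J) (S : Finset (Fin m)) (g : ℕ)
    (A : F.ζ → Matrix (Fin m) (Fin m) ℝ) (β γ : F.ζ → Fin m → ℝ)
    (hd : ∀ ω i, |azv S g (A (F.Z ω)) (F.d ω) i - β (F.Z ω) i| ≤ 1) : Fam m J' where
  Ω := F.Ω
  ζ := F.ζ
  fin := F.fin
  p := F.p
  u := fun ω i => azv S g (A (F.Z ω)) (F.u ω) i - γ (F.Z ω) i
  d := fun ω i => azv S g (A (F.Z ω)) (F.d ω) i - β (F.Z ω) i
  T := fun ω => F.T ω / 2 ^ (J - J')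
  Z := F.Z
  isLaw := F.isLaw
  dir := hd
  tim := fun ω => by
    rw [Nat.div_lt_iff_lt_mul (by positivity), ← pow_add]
    have h := F.tim ω
    have e : J' + (J - J') = J := Nat.add_sub_cancel' hJ
    rwa [e]

/-- The anisotropic box: resolution `j` in the coordinates in `S`, and `j + g` in the others. -/
noncomputable def XB (F : Fam m J) (S : Finset (Fin m)) (g : ℕ)
    (A : F.ζ → Matrix (Fin m) (Fin m) ℝ) (j : ℕ) (ω : F.Ω) : Fin m → ℤ :=
  fl j (azv S g (A (F.Z ω)) (F.x ω))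

/-- The defect of saturation of the rows `(j, j + g]` along the coordinates in `S`. -/
noncomputable def dfc (F : Fam m J) (S : Finset (Fin m)) (g : ℕ)
    (A : F.ζ → Matrix (Fin m) (Fin m) ℝ) (j : ℕ) : ℝ :=
  S.card * (g * Real.log 2) - (CH F.p (F.X (j + g)) F.W - CH F.p (XB F S g A j) F.W)

/-- Good coordinates: bounded, with bounded inverse. -/
def GoodA {ζ : Type} (ρ : ℝ) (A A' : ζ → Matrix (Fin m) (Fin m) ℝ) : Prop :=
  (∀ a i, ∑ j, |A a i j| ≤ 1) ∧ (∀ a i, ∑ j, |A' a i j| ≤ ρ) ∧ ∀ a, A' a * A a = 1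

/-- The A-zoom and its violation. -/
def AZIStmt : Prop :=
  ∀ (m : ℕ) (ρ : ℝ), ∃ C : ℝ, 0 ≤ C ∧ ∀ (J J' g : ℕ) (F : Fam m J) (hJ : J' ≤ J)
    (S : Finset (Fin m)) (A A' : F.ζ → Matrix (Fin m) (Fin m) ℝ) (β γ : F.ζ → Fin m → ℝ)
    (hd : ∀ ω i, |azv S g (A (F.Z ω)) (F.d ω) i - β (F.Z ω) i| ≤ 1) (e : ℝ),
    J' + g = J → GoodA ρ A A' → F.Tm e →
    (azm F J' hJ S g A β γ hd).Tm e ∧
    (∀ j ≤ J', -C ≤ dfc F S g A j) ∧
    ∃ c : ℝ, 0 ≤ c ∧ ∀ j ≤ J',
      |(azm F J' hJ S g A β γ hd).V j - (F.V (j + g) + c - dfc F S g A j)| ≤ e + C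

/-- The master inequality, for two families of resolutions `J` and `J'`. -/
def MAS2Stmt : Prop :=
  ∀ (m J J' g w w' : ℕ) (μ lam σ η : ℝ) (F : Fam m J) (F' : Fam m J'), J' + g = J → w' + g = w →
    w ≤ J → 0 < J' → 0 ≤ η →
    (σ - η) * J ≤ F.G μ lam w → F'.G μ lam w' ≤ (σ + η) * J' →
    (F.V w - F'.V w') - (F.V J - F'.V J') + g * σ ≤
      μ * ((J : ℝ) - w) / J' * ((F.V w - F'.V w') - g * F.V w / J) + 2 * η * J

/-- **The A-zoom master inequality.** `F₀` is a near-maximiser of resolution `J₀`, `F` is a family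
of resolution `J` derived from it (window, side information), and `F` is zoomed by `g`. The price
at `w` is `F₀.V w - F.V (w - g₀)`. -/
def AZMStmt : Prop :=
  ∀ (m : ℕ) (ρ : ℝ), ∃ C : ℝ, 0 ≤ C ∧ ∀ (J₀ J J' g₀ g w w₁ w' : ℕ) (μ lam σ η : ℝ)
    (F₀ : Fam m J₀) (F : Fam m J) (hJ : J' ≤ J)
    (S : Finset (Fin m)) (A A' : F.ζ → Matrix (Fin m) (Fin m) ℝ) (β γ : F.ζ → Fin m → ℝ)
    (hd : ∀ ω i, |azv S g (A (F.Z ω)) (F.d ω) i - β (F.Z ω) i| ≤ 1) (e : ℝ),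
    J + g₀ = J₀ → J' + g = J → w₁ + g₀ = w → w' + g = w₁ → w ≤ J₀ → 0 < J' → 0 ≤ η → 0 ≤ μ →
    μ * ((J₀ : ℝ) - w) ≤ J' → GoodA ρ A A' → F.Tm e →
    (σ - η) * J₀ ≤ F₀.G μ lam w →
    (azm F J' hJ S g A β γ hd).G μ lam w' ≤ (σ + η) * J' →
    (F₀.V w - F.V w₁) - (F₀.V J₀ - F.V J) + ((g₀ : ℝ) + g) * σ ≤
      μ * ((J₀ : ℝ) - w) / J' * ((F₀.V w - F.V w₁) - ((g₀ : ℝ) + g) * F₀.V w / J₀) +
        dfc F S g A J' + 2 * η * J₀ + 4 * (e + C)

end Pool.KAZ
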