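import Pool.Agent.H26.KAZ.NCD

/-!
# One coordinate: nonconcentration of the directions, from the atoms of the rounded directions
-/

set_option autoImplicit false

namespace Pool.KAZ

open Finset Real
open Pool.Agent.H49.Ent Pool.Agent.H32.Dense Pool.STK Pool.KA Pool.KSAT Pool.KAL.NC1

open Classical in
/-- If the directions are known to `g ≥ h` digits in all coordinates but one, and if the rounded
directions have no atoms given the position, then the remaining coordinate is not concentrated. -/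
def NC1Stmt : Prop :=
  ∀ (m : ℕ) (ρ c : ℝ), 0 < c → ∃ h₀ : ℕ, ∀ (J g h : ℕ) (F : Fam m J) (i₀ : Fin m)
    (A A' : F.ζ → Matrix (Fin m) (Fin m) ℝ) (β : F.ζ → Fin m → ℝ), h₀ ≤ h → h ≤ g →
    GoodA ρ A A' →
    (∀ ω i, |azv {i₀} g (A (F.Z ω)) (F.d ω) i - β (F.Z ω) i| ≤ 1) →
    (∀ ω, 0 < F.p ω → law F.p (fun ω => (F.D h ω, (F.X J ω, F.W ω)))
      (F.D h ω, (F.X J ω, F.W ω)) ≤
        Real.exp (-(c * h)) * law F.p (fun ω => (F.X J ω, F.W ω)) (F.X J ω, F.W ω)) →
    ∀ ω, 0 < F.p ω → ∀ (v : Fin (0 + 1) → ℝ) (B : Fin 0 → Fin (0 + 1) → ℝ),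
      (∑ ω', if Near 0 (4 * 2 ^ h / 2 ^ (2 * h)) v B
          (fun i => ∑ j, A (F.Z ω') ((fun _ : Fin (0 + 1) => i₀) i) j * F.d ω' j)
        then cond F.p (fun ω => (F.X J ω, F.W ω)) (F.X J ω, F.W ω) ω' else 0) ≤
          Real.exp (-(c / 2 * h))

theorem nc1_thm : NC1Stmt := by
  classical
  intro m ρ c hc
  set M : ℝ := (2 * (|ρ| * 8 + 1) + 1) ^ m with hM
  have hM1 : 1 ≤ M := one_le_pow₀ (by linarith [abs_nonneg ρ])
  obtain ⟨h₀, hh₀⟩ := exists_nat_ge (2 / c * Real.log M)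
  refine ⟨h₀, ?_⟩
  intro J g h F i₀ A A' β hh hhg hA hd hat ω hω v B
  have hp := F.isLaw
  have hp0 := hp.nonneg
  set x : F.Ω → (Fin m → ℤ) × (ℕ × F.ζ) := fun ω => (F.X J ω, F.W ω) with hx
  set E : F.Ω → Prop := fun ω' => Near 0 (4 * 2 ^ h / 2 ^ (2 * h)) v B
    (fun i => ∑ j, A (F.Z ω') ((fun _ : Fin (0 + 1) => i₀) i) j * F.d ω' j) with hE
  have hgoal : (∑ ω', if E ω' then cond F.p x (x ω) ω' else 0) ≤ Real.exp (-(c / 2 * h)) := by
    rw [sum_cond_Pe, div_le_iff₀ (law_pos hp0 x hω)]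
    -- closeness of two directions in the event
    have hr : (4 : ℝ) * 2 ^ h / 2 ^ (2 * h) = 4 / 2 ^ h := by
      rw [two_mul h, pow_add]
      field_simp
    have hcoord : ∀ ω', x ω' = x ω → E ω' → ∀ i, |∑ j, A (F.Z ω) i j * F.d ω' j -
        (if i = i₀ then v 0 else β (F.Z ω) i / 2 ^ g)| ≤ 4 / 2 ^ h := by
      intro ω' hx' hE' i
      have hZ : F.Z ω' = F.Z ω := (Prod.ext_iff.mp (Prod.ext_iff.mp hx').2).2
      by_cases hi : i = i₀
      · rw [if_pos hi]
        obtain ⟨cc, hcc⟩ := hE'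
        have h1 : |∑ j, A (F.Z ω') i₀ j * F.d ω' j - v 0 - ∑ i : Fin 0, cc i * B i 0| ≤
          4 * 2 ^ h / 2 ^ (2 * h) := hcc 0
        have e1 : ∑ i : Fin 0, cc i * B i 0 = 0 := Finset.sum_of_isEmpty _
        rw [e1, sub_zero, hr, hZ] at h1
        rw [hi]
        exact h1
      · rw [if_neg hi]
        have h1 := hd ω' i
        unfold azv at h1
        have h2 : i ∉ ({i₀} : Finset (Fin m)) := by
          rw [Finset.mem_singleton]
          exact hi
        rw [if_neg h2, hZ] at h1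
        have e1 : ∑ j, A (F.Z ω) i j * F.d ω' j - β (F.Z ω) i / 2 ^ g =
            (2 ^ g * ∑ j, A (F.Z ω) i j * F.d ω' j - β (F.Z ω) i) / 2 ^ g := by
          field_simp
        rw [e1, abs_div, abs_of_nonneg (a := (2 : ℝ) ^ g) (by positivity)]
        calc _ ≤ 1 / (2 : ℝ) ^ g := div_le_div_of_nonneg_right h1 (by positivity)
          _ ≤ 1 / 2 ^ h := one_div_le_one_div_of_le (by positivity)
            (pow_le_pow_right₀ (by norm_num) hhg)
          _ ≤ 4 / 2 ^ h := div_le_div_of_nonneg_right (by norm_num) (by positivity)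
    have hclose : ∀ ω' ω'', x ω' = x ω → E ω' → x ω'' = x ω → E ω'' → ∀ i,
        |2 ^ h * F.d ω' i - 2 ^ h * F.d ω'' i| ≤ |ρ| * 8 := by
      intro ω' ω'' a1 a2 a3 a4 i
      have hinv := congrFun (congrFun (hA.2.2 (F.Z ω)) i)
      have h1 : F.d ω' i - F.d ω'' i = ∑ l, A' (F.Z ω) i l *
          ∑ j, A (F.Z ω) l j * (F.d ω' j - F.d ω'' j) := by
        have e1 : ∑ l, A' (F.Z ω) i l * ∑ j, A (F.Z ω) l j * (F.d ω' j - F.d ω'' j) =
            ∑ j, (∑ l, A' (F.Z ω) i l * A (F.Z ω) l j) * (F.d ω' j - F.d ω'' j) := by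
          simp only [Finset.mul_sum, Finset.sum_mul]
          rw [Finset.sum_comm]
          refine Finset.sum_congr rfl fun j _ => Finset.sum_congr rfl fun l _ => ?_
          ring
        rw [e1]
        have e2 : ∀ j, (∑ l, A' (F.Z ω) i l * A (F.Z ω) l j) = if i = j then 1 else 0 := by
          intro j
          have := hinv j
          rw [Matrix.mul_apply] at this
          rw [this, Matrix.one_apply]
        simp only [e2, ite_mul, one_mul, zero_mul, Finset.sum_ite_eq, Finset.mem_univ, if_true]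
      have h2 : ∀ l, |∑ j, A (F.Z ω) l j * (F.d ω' j - F.d ω'' j)| ≤ 8 / 2 ^ h := by
        intro l
        have e1 : ∑ j, A (F.Z ω) l j * (F.d ω' j - F.d ω'' j) =
            (∑ j, A (F.Z ω) l j * F.d ω' j - (if l = i₀ then v 0 else β (F.Z ω) l / 2 ^ g)) -
            (∑ j, A (F.Z ω) l j * F.d ω'' j -
              (if l = i₀ then v 0 else β (F.Z ω) l / 2 ^ g)) := by
          have : ∑ j, A (F.Z ω) l j * (F.d ω' j - F.d ω'' j) =
              ∑ j, A (F.Z ω) l j * F.d ω' j - ∑ j, A (F.Z ω) l j * F.d ω'' j := by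
            rw [← Finset.sum_sub_distrib]
            exact Finset.sum_congr rfl fun j _ => by ring
          rw [this]
          ring
        rw [e1]
        have h3 := hcoord ω' a1 a2 l
        have h4 := hcoord ω'' a3 a4 l
        have e2 : (8 : ℝ) / 2 ^ h = 4 / 2 ^ h + 4 / 2 ^ h := by ring
        rw [e2]
        exact (abs_sub _ _).trans (add_le_add h3 h4)
      rw [← mul_sub, abs_mul, abs_of_nonneg (a := (2 : ℝ) ^ h) (by positivity), h1]
      have h5 : |∑ l, A' (F.Z ω) i l * ∑ j, A (F.Z ω) l j * (F.d ω' j - F.d ω'' j)| ≤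
          |ρ| * (8 / 2 ^ h) := by
        refine (Finset.abs_sum_le_sum_abs _ _).trans ?_
        have h6 : ∀ l ∈ Finset.univ, |A' (F.Z ω) i l * ∑ j, A (F.Z ω) l j *
            (F.d ω' j - F.d ω'' j)| ≤ |A' (F.Z ω) i l| * (8 / 2 ^ h) := by
          intro l _
          rw [abs_mul]
          exact mul_le_mul_of_nonneg_left (h2 l) (abs_nonneg _)
        refine (Finset.sum_le_sum h6).trans ?_
        rw [← Finset.sum_mul]
        exact mul_le_mul_of_nonneg_right ((hA.2.1 (F.Z ω) i).trans (le_abs_self ρ))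
          (by positivity)
      calc (2 : ℝ) ^ h * _ ≤ 2 ^ h * (|ρ| * (8 / 2 ^ h)) :=
            mul_le_mul_of_nonneg_left h5 (by positivity)
        _ = |ρ| * 8 := by field_simp
    -- the number of rounded directions
    set VS : Finset (Fin m → ℤ) :=
      (Finset.univ.filter fun ω' => 0 < F.p ω' ∧ x ω' = x ω ∧ E ω').image (F.D h) with hVS
    have hcard : (VS.card : ℝ) ≤ M := by
      rcases VS.eq_empty_or_nonempty with h0 | ⟨D0, hD0⟩
      · rw [h0, Finset.card_empty]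
        push_cast
        linarith
      obtain ⟨ω1, hω1, hω1D⟩ := Finset.mem_image.mp hD0
      obtain ⟨-, -, hx1, hE1⟩ := Finset.mem_filter.mp hω1
      set R : ℤ := ⌊|ρ| * 8 + 1⌋ with hR
      have hsub : VS ⊆ Fintype.piFinset fun i => Finset.Icc (D0 i - R) (D0 i + R) := by
        intro D hD
        obtain ⟨ω2, hω2, hω2D⟩ := Finset.mem_image.mp hD
        obtain ⟨-, -, hx2, hE2⟩ := Finset.mem_filter.mp hω2
        rw [Fintype.mem_piFinset]
        intro i
        have h1 := floor_sub_le (hclose ω2 ω1 hx2 hE2 hx1 hE1 i)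
        have h2 : D i = ⌊2 ^ h * F.d ω2 i⌋ := by
          rw [← hω2D]
          rfl
        have h3 : D0 i = ⌊2 ^ h * F.d ω1 i⌋ := by
          rw [← hω1D]
          rfl
        rw [← h2, ← h3, abs_le] at h1
        have h4 : D i - D0 i ≤ R := by
          rw [hR, Int.le_floor]
          exact h1.2
        have h5 : D0 i - D i ≤ R := by
          rw [hR, Int.le_floor]
          push_cast at h1 ⊢
          linarith [h1.1]
        rw [Finset.mem_Icc]
        constructor <;> linarith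
      have hc2 := Finset.card_le_card hsub
      rw [Fintype.card_piFinset] at hc2
      have hR0 : 0 ≤ R := Int.floor_nonneg.mpr (by positivity)
      have e1 : ∀ i : Fin m, (Finset.Icc (D0 i - R) (D0 i + R)).card = (2 * R + 1).toNat := by
        intro i
        rw [Int.card_Icc]
        congr 1
        ring
      simp only [e1, Finset.prod_const, Finset.card_univ, Fintype.card_fin] at hc2
      calc (VS.card : ℝ) ≤ (((2 * R + 1).toNat ^ m : ℕ) : ℝ) := by exact_mod_cast hc2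
        _ = (((2 * R + 1).toNat : ℕ) : ℝ) ^ m := by push_cast; rfl
        _ ≤ M := by
          rw [hM]
          refine pow_le_pow_left₀ (by positivity) ?_ m
          have e2 : (((2 * R + 1).toNat : ℕ) : ℝ) = 2 * (R : ℝ) + 1 := by
            have : (((2 * R + 1).toNat : ℕ) : ℤ) = 2 * R + 1 := Int.toNat_of_nonneg (by linarith)
            have h6 : (((2 * R + 1).toNat : ℕ) : ℝ) = ((2 * R + 1 : ℤ) : ℝ) := by
              exact_mod_cast this
            rw [h6]
            push_cast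
            ring
          rw [e2]
          have := Int.floor_le (|ρ| * 8 + 1)
          linarith
    have hsum : Pe F.p (fun ω' => x ω' = x ω ∧ E ω') ≤
        ∑ D ∈ VS, law F.p (fun ω => (F.D h ω, x ω)) (D, x ω) := by
      simp only [law_eq_Pe]
      refine Pe_le_sum hp0 _ _ _ fun ω' h0 hh' => ⟨F.D h ω', ?_, ?_⟩
      · exact Finset.mem_image_of_mem _ (Finset.mem_filter.mpr
          ⟨Finset.mem_univ _, h0, hh'.1, hh'.2⟩)
      · exact Prod.ext rfl hh'.1
    refine hsum.trans ?_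
    have hterm : ∀ D ∈ VS, law F.p (fun ω => (F.D h ω, x ω)) (D, x ω) ≤
        Real.exp (-(c * h)) * law F.p x (x ω) := by
      intro D hD
      obtain ⟨ω2, hω2, hω2D⟩ := Finset.mem_image.mp hD
      obtain ⟨-, hp2, hx2, -⟩ := Finset.mem_filter.mp hω2
      have h1 : law F.p (fun ω => (F.D h ω, x ω)) (F.D h ω2, x ω2) ≤
          Real.exp (-(c * h)) * law F.p x (x ω2) := hat ω2 hp2
      rw [hω2D, hx2] at h1
      exact h1
    refine (Finset.sum_le_sum hterm).trans ?_
    rw [Finset.sum_const, nsmul_eq_mul]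
    have hlp := law_pos hp0 x hω
    have hexp : M * Real.exp (-(c * h)) ≤ Real.exp (-(c / 2 * h)) := by
      have h1 : 2 / c * Real.log M ≤ h := hh₀.trans (by exact_mod_cast hh)
      have h2 : Real.log M ≤ c / 2 * h := by
        have := mul_le_mul_of_nonneg_left h1 (show (0 : ℝ) ≤ c / 2 by positivity)
        have e1 : c / 2 * (2 / c * Real.log M) = Real.log M := by field_simp
        linarith
      have h3 : M ≤ Real.exp (c / 2 * h) := by
        rw [← Real.log_le_iff_le_exp (by positivity)]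
        exact h2
      calc M * Real.exp (-(c * h)) ≤ Real.exp (c / 2 * h) * Real.exp (-(c * h)) :=
            mul_le_mul_of_nonneg_right h3 (Real.exp_pos _).le
        _ = Real.exp (-(c / 2 * h)) := by
          rw [← Real.exp_add]
          congr 1
          ring
    calc (VS.card : ℝ) * (Real.exp (-(c * h)) * law F.p x (x ω)) ≤
          M * (Real.exp (-(c * h)) * law F.p x (x ω)) :=
          mul_le_mul_of_nonneg_right hcard (by positivity)
      _ = M * Real.exp (-(c * h)) * law F.p x (x ω) := by ring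
      _ ≤ Real.exp (-(c / 2 * h)) * law F.p x (x ω) :=
          mul_le_mul_of_nonneg_right hexp hlp.le
  exact hgoal

open Classical in
/-- **No constant direction, one coordinate.** -/
def NCD1Stmt : Prop :=
  ∀ (m : ℕ) (ρ c a R : ℝ), 0 < c → 1 ≤ a → 0 ≤ R → UBa m a R → ∃ C : ℝ, 0 ≤ C ∧
    ∀ b₀ ε : ℝ, 0 < b₀ → 0 < ε → ∃ θ : ℝ, 0 < θ ∧ ∃ J₀ : ℕ, ∀ (J J' g h N : ℕ) (F : Fam m J)
    (i₀ : Fin m) (A A' : F.ζ → Matrix (Fin m) (Fin m) ℝ)
    (β : F.ζ → Fin m → ℝ) (x : ℝ), J₀ ≤ J → J' + g = J → J ≤ 2 * J' →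
    g = (N + 1) * h → b₀ * J ≤ (h : ℝ) → (h : ℝ) ≤ 2 * b₀ * J →
    F.Tm (θ * J) → GoodA ρ A A' → (R - x) * J ≤ F.Ga a →
    (∀ ω i, |azv {i₀} g (A (F.Z ω)) (F.d ω) i - β (F.Z ω) i| ≤ 1) →
    (∀ ω, 0 < F.p ω → law F.p (fun ω => (F.D h ω, (F.X J ω, F.W ω)))
      (F.D h ω, (F.X J ω, F.W ω)) ≤
        Real.exp (-(c * h)) * law F.p (fun ω => (F.X J ω, F.W ω)) (F.X J ω, F.W ω)) →
    (R + (a - 1) * Real.log 2) * g ≤ (C * b₀ + x + ε) * J

theorem ncd1_thm : NCD1Stmt := by
  classical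
  intro m ρ c a R hc ha hR hUB
  obtain ⟨C, hC, hN⟩ := ncd m 0 ρ (c / 2) a R (by positivity) ha hR hUB
  obtain ⟨h₀, hh₀⟩ := nc1_thm m ρ c hc
  refine ⟨C, hC, ?_⟩
  intro b₀ ε hb₀ hε
  obtain ⟨θ, hθ, J₀, hJ₀⟩ := hN b₀ ε hb₀ hε
  obtain ⟨n1, hn1⟩ := exists_nat_ge ((h₀ : ℝ) / b₀)
  refine ⟨θ, hθ, max J₀ n1, ?_⟩
  intro J J' g h N F i₀ A A' β x hJ hg hJ2 hgN hb hb2 he hA hx hd hat
  have hJ0 : J₀ ≤ J := (le_max_left _ _).trans hJ
  have hJn : n1 ≤ J := (le_max_right _ _).trans hJ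
  have hh : h₀ ≤ h := by
    have h1 : (h₀ : ℝ) / b₀ ≤ J := hn1.trans (by exact_mod_cast hJn)
    rw [div_le_iff₀ hb₀] at h1
    have h2 : (h₀ : ℝ) ≤ h := by linarith
    exact_mod_cast h2
  have hhg : h ≤ g := by
    rw [hgN]
    exact Nat.le_mul_of_pos_left h (Nat.succ_pos N)
  have hNC := hh₀ J g h F i₀ A A' β hh hhg hA hd hat
  have hmain := hJ₀ J J' g h N F (fun _ => i₀) {i₀} A A' β x hJ0 (Finset.card_singleton i₀) hg
    hJ2 hgN hb hb2 he hA hx hd hNC
  have e1 : (R + (a - 1) * (((0 : ℕ) + 1) * Real.log 2)) * (g : ℝ) =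
      (R + (a - 1) * Real.log 2) * g := by
    push_cast
    ring
  rw [e1] at hmain
  exact hmain

end Pool.KAZ
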