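import Pool.Agent.H26.KAZ.AP7
import Pool.Agent.H26.KAZ.AZT
import Pool.Agent.H64.KSAT.EXC
import Pool.Agent.H34.KA.TYA
import Pool.Agent.H7.KSAT.All

/-!
# No constant direction in the class `(a, R)`
-/

set_option autoImplicit false

namespace Pool.KAZ

open Finset Real
open Pool.Agent.H49.Ent Pool.Agent.H32.Dense Pool.STK Pool.KA Pool.KSAT Pool.KAL.NC1

theorem azt : AZTStmt := azt_thm (exc_thm slSat res2_thm tya_thm)

open Classical in
/-- **No constant direction, class `(a, R)`.** `F` has defect at most `x J` from the maximum. The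
side information fixes linear coordinates such that the directions are known to `g` digits along
all coordinates except `k + 1` of them, along which the directions are not concentrated at scale
`2 ^ (-h)`, given the exact position. Then `g` is at most `(C b₀ + x + ε) J` divided by
`R + (a - 1) (k + 1) log 2`. -/
def NCDStmt : Prop :=
  ∀ (m k : ℕ) (ρ c a R : ℝ), 0 < c → 1 ≤ a → 0 ≤ R → UBa m a R → ∃ C : ℝ, 0 ≤ C ∧
    ∀ b₀ ε : ℝ, 0 < b₀ → 0 < ε → ∃ θ : ℝ, 0 < θ ∧ ∃ J₀ : ℕ, ∀ (J J' g h N : ℕ) (F : Fam m J)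
    (ι : Fin (k + 1) → Fin m) (S : Finset (Fin m)) (A A' : F.ζ → Matrix (Fin m) (Fin m) ℝ)
    (β : F.ζ → Fin m → ℝ) (x : ℝ), J₀ ≤ J → S.card = k + 1 → J' + g = J → J ≤ 2 * J' →
    g = (N + 1) * h → b₀ * J ≤ (h : ℝ) → (h : ℝ) ≤ 2 * b₀ * J →
    F.Tm (θ * J) → GoodA ρ A A' → (R - x) * J ≤ F.Ga a →
    (∀ ω i, |azv S g (A (F.Z ω)) (F.d ω) i - β (F.Z ω) i| ≤ 1) →
    (∀ ω, 0 < F.p ω → ∀ (v : Fin (k + 1) → ℝ) (B : Fin k → Fin (k + 1) → ℝ),
      (∑ ω', if Near k (4 * 2 ^ h / 2 ^ (2 * h)) v B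
          (fun i => ∑ j, A (F.Z ω') (ι i) j * F.d ω' j)
        then cond F.p (fun ω => (F.X J ω, F.W ω)) (F.X J ω, F.W ω) ω' else 0) ≤
          Real.exp (-(c * h))) →
    (R + (a - 1) * ((k + 1) * Real.log 2)) * g ≤ (C * b₀ + x + ε) * J

theorem ncd_thm (hT : AZTStmt) : NCDStmt := by
  classical
  intro m k ρ c a R hc ha hR hUB
  obtain ⟨C1, hC1, h₀, hz⟩ := hT m k c hc
  obtain ⟨C2, hC2, hP⟩ := ap7_thm m ρ
  refine ⟨2 * a * C1, by positivity, ?_⟩
  intro b₀ ε hb₀ hε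
  -- the universal bound
  obtain ⟨θ₁, hθ₁, J₁, hub⟩ := hUB (ε / 4) (by positivity)
  -- the time deficit
  set D : ℝ := a * (C1 / b₀ + 1) with hD
  have hDpos : 0 < D := by positivity
  set θ : ℝ := min (θ₁ / 2) (ε / (4 * D)) with hθ
  have hθpos : 0 < θ := lt_min (by positivity) (by positivity)
  obtain ⟨n1, hn1⟩ := exists_nat_ge (((h₀ : ℝ) + 1) / b₀)
  obtain ⟨n2, hn2⟩ := exists_nat_ge ((a * (C1 / b₀) + a * C2 + C2) / (ε / 4))
  refine ⟨θ, hθpos, max (max n1 n2) (2 * J₁ + 1), ?_⟩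
  intro J J' g h N F ι S A A' β x hJ hS hg hJ2 hgN hb hb2 he hA hx hd hNC
  have hJn1 : n1 ≤ J := (le_max_left _ _).trans ((le_max_left _ _).trans hJ)
  have hJn2 : n2 ≤ J := (le_max_right _ _).trans ((le_max_left _ _).trans hJ)
  have hJJ1 : 2 * J₁ + 1 ≤ J := (le_max_right _ _).trans hJ
  have hJpos : (0 : ℝ) < J := by
    have : 0 < J := by omega
    exact_mod_cast this
  have hJ'1 : J₁ ≤ J' := by omega
  have hJle : J' ≤ J := by omega
  have hh0 : h₀ ≤ h := by
    have h1 : ((h₀ : ℝ) + 1) / b₀ ≤ J := hn1.trans (by exact_mod_cast hJn1)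
    rw [div_le_iff₀ hb₀] at h1
    have h2 : (h₀ : ℝ) ≤ h := by linarith
    exact_mod_cast h2
  have hhpos : (0 : ℝ) < h := lt_of_lt_of_le (by positivity) hb
  -- the number of blocks
  have hgr : (g : ℝ) = (N + 1) * h := by
    rw [hgN]
    push_cast
    ring
  have hgJ : (g : ℝ) ≤ J := by
    have : g ≤ J := by omega
    exact_mod_cast this
  have hN1 : (N : ℝ) ≤ 1 / b₀ := by
    rw [le_div_iff₀ hb₀]
    have h1 : ((N : ℝ) + 1) * (b₀ * J) ≤ J := by
      calc ((N : ℝ) + 1) * (b₀ * J) ≤ (N + 1) * h :=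
            mul_le_mul_of_nonneg_left hb (by positivity)
        _ = g := hgr.symm
        _ ≤ J := hgJ
    have h2 : (((N : ℝ) + 1) * b₀) * J ≤ 1 * J := by linarith
    have h3 := le_of_mul_le_mul_right h2 hJpos
    nlinarith
  have hN0 : (0 : ℝ) ≤ N := Nat.cast_nonneg N
  -- the total defect
  have hdef := hz J J' g h N F ι S A β (θ * J) hS hg hgN hh0 he hA.1 hd hNC
  -- the zoomed family
  obtain ⟨hTm, hGa⟩ := hP J J' g F hJle S A A' β (fun _ _ => 0) hd (θ * J) a hg hA he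
    (by linarith)
  have hub' := hub J' hJ'1 (azm F J' hJle S g A β (fun _ _ => 0) hd) (by
    unfold Fam.Tm at hTm ⊢
    have h1 : θ * J ≤ θ₁ * J' := by
      have h2 : (J : ℝ) ≤ 2 * J' := by exact_mod_cast hJ2
      calc θ * J ≤ θ₁ / 2 * J := mul_le_mul_of_nonneg_right (min_le_left _ _) hJpos.le
        _ ≤ θ₁ / 2 * (2 * J') := mul_le_mul_of_nonneg_left h2 (by positivity)
        _ = θ₁ * J' := by ring
    linarith)
  have hJr : (J' : ℝ) = J - g := by
    rw [← hg]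
    push_cast
    ring
  have hcard : (S.card : ℝ) = k + 1 := by
    rw [hS]
    push_cast
    ring
  rw [hcard] at hGa
  rw [hJr] at hub'
  -- bounds for the errors
  have hθD : D * (θ * J) ≤ ε / 4 * J := by
    have h1 : D * θ ≤ ε / 4 := by
      calc D * θ ≤ D * (ε / (4 * D)) := mul_le_mul_of_nonneg_left (min_le_right _ _) hDpos.le
        _ = ε / 4 := by field_simp
    calc D * (θ * J) = D * θ * J := by ring
      _ ≤ ε / 4 * J := mul_le_mul_of_nonneg_right h1 hJpos.le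
  have hn2' : a * (C1 / b₀) + a * C2 + C2 ≤ ε / 4 * J := by
    have h1 : (a * (C1 / b₀) + a * C2 + C2) / (ε / 4) ≤ J := hn2.trans (by exact_mod_cast hJn2)
    rw [div_le_iff₀ (by positivity)] at h1
    linarith
  have hN2 : (N : ℝ) * (1 + θ * J) ≤ 1 / b₀ * (1 + θ * J) :=
    mul_le_mul_of_nonneg_right hN1 (by positivity)
  have hdef2 : a * (dfc F S g A J' + θ * J + C2) ≤
      2 * a * C1 * b₀ * J + a * (C1 / b₀) + D * (θ * J) + a * C2 := by
    have h1 : dfc F S g A J' ≤ C1 * (2 * b₀ * J + 1 / b₀ * (1 + θ * J)) :=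
      hdef.trans (mul_le_mul_of_nonneg_left (add_le_add hb2 hN2) hC1)
    have h2 := mul_le_mul_of_nonneg_left h1 (show (0 : ℝ) ≤ a by linarith)
    have e1 : a * (C1 * (2 * b₀ * J + 1 / b₀ * (1 + θ * J))) + a * (θ * J) =
        2 * a * C1 * b₀ * J + a * (C1 / b₀) + D * (θ * J) := by
      rw [hD]
      field_simp
      ring
    nlinarith
  have hεg : 0 ≤ ε / 4 * g := by positivity
  have hfin : (R + (a - 1) * ((k + 1) * Real.log 2)) * g ≤
      x * J + ε / 4 * J + (2 * a * C1 * b₀ * J + a * (C1 / b₀) + D * (θ * J) + a * C2) + C2 := by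
    have e1 : (R + ε / 4) * (J - g) = R * J + ε / 4 * J - R * g - ε / 4 * g := by ring
    have e2 : (R - x) * J = R * J - x * J := by ring
    have e3 : (a - 1) * ((k + 1) * (g * Real.log 2)) =
        (a - 1) * ((k + 1) * Real.log 2) * g := by ring
    rw [e1] at hub'
    rw [e2] at hx
    rw [e3] at hGa
    have e4 : (R + (a - 1) * ((k + 1) * Real.log 2)) * g =
        R * g + (a - 1) * ((k + 1) * Real.log 2) * g := by ring
    rw [e4]
    linarith
  have e5 : (2 * a * C1 * b₀ + x + ε) * J = 2 * a * C1 * b₀ * J + x * J + ε * J := by ring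
  rw [e5]
  have e6 : ε * J = ε / 4 * J + ε / 4 * J + ε / 4 * J + ε / 4 * J := by ring
  have hεJ : 0 ≤ ε / 4 * J := by positivity
  linarith

theorem ncd : NCDStmt := ncd_thm azt

end Pool.KAZ
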