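import Pool.Agent.H26.KAZ.NCVc

/-!
# No constant fan direction: exact form

In a regular near-maximal family of the class `(a, R)` and on a large event, suppose that the
directions at each exact point lie on a line up to `2 ^ (-g)`, and that the slopes are known from
the line and the window of length `2 ^ (-w)`. Then `g ≤ C (w + b₀ J)`.
-/

set_option autoImplicit false

namespace Pool.KAZ

open Finset Real
open Pool.Agent.H49.Ent Pool.Agent.H32.Dense Pool.STK Pool.KA Pool.KSAT Pool.KAL.NC1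

/-- The last step. -/
lemma ncv_arith {a R C₁ C₂ b₀ J J2 w g g' h x Kτ L Q : ℝ} (hR : 0 < R) (ha : 1 ≤ a)
    (hC₁ : 0 ≤ C₁) (hC₂ : 0 ≤ C₂) (hb₀ : 0 < b₀) (hJ : 0 < J) (hJ2 : J2 ≤ J) (hJ20 : 0 < J2)
    (hw : 0 ≤ w) (hg' : 0 ≤ g') (hL : 0 ≤ L)
    (hmain : (R + (a - 1) * L) * g' ≤ (C₁ * b₀ + x + b₀) * J2)
    (hx : x = C₂ * (Kτ + w / J) + a * (Kτ * J + Q) / J2) (hK : Kτ ≤ b₀)
    (hQ : Q ≤ b₀ * J) (hgg : g ≤ 4 * (g' + h)) (hh : h ≤ 2 * b₀ * J) :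
    g ≤ (4 / R * (C₁ + C₂ + 2 * a + 1) + 24) * (w + b₀ * J) := by
  have e1 : x * J2 = C₂ * Kτ * J2 + C₂ * (w * (J2 / J)) + a * (Kτ * J + Q) := by
    rw [hx]
    field_simp
  have r1 : J2 / J ≤ 1 := by
    rw [div_le_one hJ]
    exact hJ2
  have e2 : C₂ * (w * (J2 / J)) ≤ C₂ * w := by
    refine mul_le_mul_of_nonneg_left ?_ hC₂
    exact mul_le_of_le_one_right hw r1
  have e3 : C₂ * Kτ * J2 ≤ C₂ * (b₀ * J) := by
    have : Kτ * J2 ≤ b₀ * J := mul_le_mul hK hJ2 hJ20.le hb₀.le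
    calc C₂ * Kτ * J2 = C₂ * (Kτ * J2) := by ring
      _ ≤ _ := mul_le_mul_of_nonneg_left this hC₂
  have e4 : a * (Kτ * J + Q) ≤ a * (2 * (b₀ * J)) := by
    refine mul_le_mul_of_nonneg_left ?_ (by linarith)
    have : Kτ * J ≤ b₀ * J := mul_le_mul_of_nonneg_right hK hJ.le
    linarith
  have e5 : (C₁ * b₀ + b₀) * J2 ≤ (C₁ + 1) * (b₀ * J) := by
    have : b₀ * J2 ≤ b₀ * J := mul_le_mul_of_nonneg_left hJ2 hb₀.le
    calc (C₁ * b₀ + b₀) * J2 = (C₁ + 1) * (b₀ * J2) := by ring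
      _ ≤ _ := mul_le_mul_of_nonneg_left this (by linarith)
  have e6 : 0 ≤ (a - 1) * L * g' := mul_nonneg (mul_nonneg (by linarith) hL) hg'
  have e7 : R * g' ≤ (C₁ + C₂ + 2 * a + 1) * (w + b₀ * J) := by
    have f1 : (R + (a - 1) * L) * g' = R * g' + (a - 1) * L * g' := by ring
    have f2 : (C₁ * b₀ + x + b₀) * J2 = (C₁ * b₀ + b₀) * J2 + x * J2 := by ring
    rw [f1, f2, e1] at hmain
    have f3 : 0 ≤ C₁ * w := mul_nonneg hC₁ hw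
    have f4 : 0 ≤ a * w := mul_nonneg (by linarith) hw
    have f5 : 0 ≤ b₀ * J := by positivity
    nlinarith
  have e8 : g' ≤ (C₁ + C₂ + 2 * a + 1) * (w + b₀ * J) / R := by
    rw [le_div_iff₀ hR]
    linarith
  have e9 : (C₁ + C₂ + 2 * a + 1) * (w + b₀ * J) / R * 4 =
      4 / R * (C₁ + C₂ + 2 * a + 1) * (w + b₀ * J) := by
    field_simp
  have e10 : 0 ≤ b₀ * J := by positivity
  have e11 : (4 / R * (C₁ + C₂ + 2 * a + 1) + 24) * (w + b₀ * J) =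
      4 / R * (C₁ + C₂ + 2 * a + 1) * (w + b₀ * J) + 24 * (w + b₀ * J) := by ring
  rw [e11]
  linarith

/-- Windows and labels. -/
lemma ncv_win (m : ℕ) {a R : ℝ} (ha : 1 ≤ a) {C₂ : ℝ}
    (hM : ∀ (J : ℕ) (F : Fam m J) (τ c : ℝ),
      1 ≤ J → 0 ≤ τ → 0 ≤ c → c ≤ 1 / 4 → 1 ≤ τ * J → F.Mx a R τ →
      ∀ g : ℕ, g ≤ J → (g : ℝ) ≤ c * J → (F.win g).Mx a R (C₂ * (τ + c)))
    {C₁ b₀ θ : ℝ} {J₀ : ℕ}
    (hN : ∀ (J J' g h N : ℕ) (F : Fam m J)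
    (i₀ : Fin m) (A A' : F.ζ → Matrix (Fin m) (Fin m) ℝ)
    (β : F.ζ → Fin m → ℝ) (x : ℝ), J₀ ≤ J → J' + g = J → J ≤ 2 * J' →
    g = (N + 1) * h → b₀ * J ≤ (h : ℝ) → (h : ℝ) ≤ 2 * b₀ * J →
    F.Tm (θ * J) → GoodA 25 A A' → (R - x) * J ≤ F.Ga a →
    (∀ ω i, |azv {i₀} g (A (F.Z ω)) (F.d ω) i - β (F.Z ω) i| ≤ 1) →
    (∀ ω, 0 < F.p ω → law F.p (fun ω => (F.D h ω, (F.X J ω, F.W ω)))
      (F.D h ω, (F.X J ω, F.W ω)) ≤
        Real.exp (-(R / (4 * a) * h)) * law F.p (fun ω => (F.X J ω, F.W ω)) (F.X J ω, F.W ω)) →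
    (R + (a - 1) * Real.log 2) * g ≤ (C₁ * b₀ + x + b₀) * J)
    {J : ℕ} (F : Fam m J) {κ x : ℝ} {w J2 g' h N : ℕ} (hJ1 : 1 ≤ J) (hκ : 0 ≤ κ)
    (hw4 : (w : ℝ) ≤ J / 4) (hw : w ≤ J) (hκJ : 1 ≤ κ * J) (hMx : F.Mx a R κ)
    (hJ2 : J2 = J - w) (hJ2p : 0 < J2)
    (i₀ : Fin m) (s : F.Ω → Fin m → ℝ)
    (e n : (Fin m → ℤ) × (ℕ × F.ζ) → Fin m → ℝ)
    (he : ∀ ω, 0 < F.p ω → ∀ j, |e (Pool.K2S.Fam.pt F ω) j| ≤ 2)
    (hs : ∀ ω, 0 < F.p ω → ∀ j, |e (Pool.K2S.Fam.pt F ω) j - s ω j| ≤ 1 / 2 ^ g')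
    (hn : ∀ ω, 0 < F.p ω → ∀ j, |F.d ω j - e (Pool.K2S.Fam.pt F ω) j * F.d ω i₀ -
      n (Pool.K2S.Fam.pt F ω) j| ≤ 1 / 2 ^ g')
    (hsd : ∀ ω ω', 0 < F.p ω → 0 < F.p ω' → F.l ω = F.l ω' → F.T1 w ω = F.T1 w ω' →
      F.Z ω = F.Z ω' → s ω = s ω')
    (hx : x = C₂ * (κ + w / J) + a * (κ * J + 2 * (m * Real.log 5)) / J2)
    (hJ₀ : J₀ ≤ J2) (hg' : g' ≤ J2 / 2) (hgN : g' = (N + 1) * h) (hh1 : b₀ * J2 ≤ h)
    (hh2 : (h : ℝ) ≤ 2 * b₀ * J2) (hθ : κ * J ≤ θ * J2)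
    (hat : ∀ ω, 0 < F.p ω → law F.p (fun ω => (F.D h ω, ((F.win w).X (J - w) ω,
      (F.T ω % 2 ^ (J - w), (labz i₀ g' (s ω) (F.d ω), F.c w ω)))))
        (F.D h ω, ((F.win w).X (J - w) ω,
      (F.T ω % 2 ^ (J - w), (labz i₀ g' (s ω) (F.d ω), F.c w ω)))) ≤
        Real.exp (-(R / (4 * a) * h)) * law F.p (fun ω => ((F.win w).X (J - w) ω,
      (F.T ω % 2 ^ (J - w), (labz i₀ g' (s ω) (F.d ω), F.c w ω)))) ((F.win w).X (J - w) ω,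
      (F.T ω % 2 ^ (J - w), (labz i₀ g' (s ω) (F.d ω), F.c w ω)))) :
    (R + (a - 1) * Real.log 2) * g' ≤ (C₁ * b₀ + x + b₀) * J2 := by
  have hJ0 : (0 : ℝ) < J := by exact_mod_cast hJ1
  have hJ2r : (0 : ℝ) < J2 := by exact_mod_cast hJ2p
  have Mx4 := hM J F κ (w / J) hJ1 hκ (by positivity) (by rw [div_le_iff₀ hJ0]; linarith) hκJ hMx w
    hw (by rw [div_mul_cancel₀ _ hJ0.ne'])
  have Tm4 := (win_thm m J F w hw).1 _ hMx.1
  have hzdet : Det (F.win w).p (fun ω => ((F.win w).l ω, (F.win w).Z ω))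
      (fun ω => labz i₀ g' (s ω) (F.d ω)) := by
    intro ω ω' k1 k2 k
    obtain ⟨e1, e2⟩ := Prod.ext_iff.mp k
    obtain ⟨f1, f2, f4⟩ := Pool.K2S.NPL.win_det F w e1 e2
    have f3 : F.d ω = F.d ω' := (Prod.ext_iff.mp f1).2
    show labz i₀ g' (s ω) (F.d ω) = labz i₀ g' (s ω') (F.d ω')
    rw [f3, hsd ω ω' k1 k2 f1 f2 f4]
  have hzvis := labz_CH F hw i₀ g' s e n he hs hn
  have hcast : ((J - w : ℕ) : ℝ) = J2 := by rw [hJ2]
  obtain ⟨Tm5, Ga5⟩ := cnd_vis (F.win w) ha Tm4 (fun ω => labz i₀ g' (s ω) (F.d ω)) hzdet hzvis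
  have hG5 : (R - x) * ((J - w : ℕ) : ℝ) ≤
      ((F.win w).cnd (fun ω => labz i₀ g' (s ω) (F.d ω))).Ga a := by
    have h1 : (R - C₂ * (κ + w / J)) * ((J - w : ℕ) : ℝ) ≤ (F.win w).Ga a := Mx4.2
    rw [hcast] at h1 ⊢
    have h2 : x * J2 = C₂ * (κ + w / J) * J2 + a * (κ * J + 2 * (m * Real.log 5)) := by
      rw [hx]
      field_simp
    have h3 : (R - x) * (J2 : ℝ) = R * J2 - x * J2 := by ring
    rw [h3, h2]
    have h4 : (R - C₂ * (κ + w / J)) * (J2 : ℝ) = R * J2 - C₂ * (κ + w / J) * J2 := by ring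
    rw [h4] at h1
    linarith
  have hTm5 : ((F.win w).cnd (fun ω => labz i₀ g' (s ω) (F.d ω))).Tm (θ * ((J - w : ℕ) : ℝ)) := by
    refine AP5.Tm_mono Tm5 ?_
    rw [hcast]
    exact hθ
  have hmain := hN (J - w) (J - w - g') g' h N
    ((F.win w).cnd (fun ω => labz i₀ g' (s ω) (F.d ω))) i₀ (fun v => frA i₀ (slp g' v.1.1))
    (fun v => frA' i₀ (slp g' v.1.1)) (fun v j => (v.1.2 j : ℝ)) x
    (by rw [← hJ2]; exact hJ₀) (by omega) (by omega) hgN (by rw [hcast]; exact hh1)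
    (by rw [hcast]; exact hh2) hTm5
    (frA_lab i₀ g') hG5
    (fun ω i => labz_one i₀ g' (s ω) (F.d ω) i) hat
  rw [hcast] at hmain
  exact hmain

/-- **No constant fan direction, exact form.** -/
theorem ncv_thm (m : ℕ) (a R : ℝ) (ha : 1 ≤ a) (hR : 0 < R) (hU : UBa m a R) :
    ∃ C : ℝ, 0 < C ∧ ∀ b₀ : ℝ, 0 < b₀ → ∃ τ > 0, ∃ J₁ : ℕ, ∀ J ≥ J₁, ∀ (F : Fam m J)
      (A : F.Ω → Prop), Pool.K2S.Fam.Stt F a R τ A → ∀ (w g : ℕ) (i₀ : Fin m)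
      (e n : (Fin m → ℤ) × (ℕ × F.ζ) → Fin m → ℝ) (s : F.Ω → Fin m → ℝ), w ≤ J → g ≤ J →
      Pool.K2S.OnL i₀ (1 / 2 ^ g) (Pool.K2S.Fam.pt F) F.d A e n →
      (∀ ω, A ω → ∀ j, |e (Pool.K2S.Fam.pt F ω) j| ≤ 2) →
      (∀ ω ω', 0 < F.p ω → 0 < F.p ω' → A ω → A ω' → F.l ω = F.l ω' → F.T1 w ω = F.T1 w ω' →
        F.Z ω = F.Z ω' → s ω = s ω') →
      (∀ ω, A ω → ∀ j, |e (Pool.K2S.Fam.pt F ω) j - s ω j| ≤ 1 / 2 ^ g) →
      (g : ℝ) ≤ C * (w + b₀ * J) := by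
  classical
  obtain ⟨C₁, hC₁, hN⟩ := ncd1_thm m 25 (R / (4 * a)) a R (by positivity) ha hR.le hU
  obtain ⟨C₂, hC₂, hM⟩ := mop_thm aop_thm m a R ha hR
  have hlog0 : 0 < Real.log 2 := Real.log_pos (by norm_num)
  obtain ⟨K, hK⟩ : ∃ K : ℝ, K = 60 * (1 + a) := ⟨_, rfl⟩
  have hK0 : 0 < K := by rw [hK]; linarith
  obtain ⟨C, hC⟩ : ∃ C : ℝ, C = 4 / R * (C₁ + C₂ + 2 * a + 1) + 24 := ⟨_, rfl⟩
  have hC24 : 24 ≤ C := by
    rw [hC]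
    have : 0 ≤ 4 / R * (C₁ + C₂ + 2 * a + 1) := by positivity
    linarith
  refine ⟨C, by linarith, ?_⟩
  intro b₀ hb₀
  by_cases hbig : 1 / 16 < b₀
  · refine ⟨1, one_pos, 0, ?_⟩
    intro J _ F A _ w g i₀ e n s _ hg _ _ _ _
    have h1 : (g : ℝ) ≤ J := by exact_mod_cast hg
    have h2 : (0 : ℝ) ≤ J := Nat.cast_nonneg J
    have h3 : (0 : ℝ) ≤ w := Nat.cast_nonneg w
    have h4 : 1 / 16 * (J : ℝ) ≤ b₀ * J := mul_le_mul_of_nonneg_right hbig.le h2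
    have h5 : 24 * (w + b₀ * J) ≤ C * (w + b₀ * J) :=
      mul_le_mul_of_nonneg_right hC24 (by positivity)
    linarith
  push Not at hbig
  obtain ⟨θ, hθ, J₀, hJ₀⟩ := hN b₀ b₀ hb₀ hb₀
  obtain ⟨c, hc, J₂, hE⟩ := ncv_event m a R ha hR hU (b₀ / 2) (by positivity) (27 ^ m)
    (one_le_pow₀ (by norm_num))
  obtain ⟨τ, hτ⟩ : ∃ τ : ℝ, τ = min c (min (θ / (2 * K)) (b₀ / K)) := ⟨_, rfl⟩
  have hτ0 : 0 < τ := by rw [hτ]; positivity
  have hτc : τ ≤ c := by rw [hτ]; exact min_le_left _ _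
  have hτθ : K * τ ≤ θ / 2 := by
    have h1 : τ ≤ θ / (2 * K) := by
      rw [hτ]; exact (min_le_right _ _).trans (min_le_left _ _)
    rw [le_div_iff₀ (by positivity)] at h1
    linarith
  have hτb : K * τ ≤ b₀ := by
    have h1 : τ ≤ b₀ / K := by
      rw [hτ]; exact (min_le_right _ _).trans (min_le_right _ _)
    rw [le_div_iff₀ hK0] at h1
    linarith
  obtain ⟨J₃, hJ₃⟩ := exists_nat_ge (1 / τ + 2 * J₀ + J₂ + 2 / b₀ + 2 * (m * Real.log 5) / b₀ + 8)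
  refine ⟨τ, hτ0, J₃, ?_⟩
  intro J hJ F A hS w g i₀ e n s hw hg hOn he hsd hζ
  have hJr : (J₃ : ℝ) ≤ J := by exact_mod_cast hJ
  have q1 : 0 ≤ 1 / τ := by positivity
  have q2 : 0 ≤ 2 / b₀ := by positivity
  have q3 : 0 ≤ 2 * (m * Real.log 5) / b₀ := by
    have : 0 ≤ Real.log 5 := Real.log_nonneg (by norm_num)
    positivity
  have q4 : (0 : ℝ) ≤ J₀ := Nat.cast_nonneg _
  have q5 : (0 : ℝ) ≤ J₂ := Nat.cast_nonneg _
  have j1 : 1 / τ ≤ J := by linarith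
  have j2 : 2 * (J₀ : ℝ) ≤ J := by linarith
  have j3 : J₂ ≤ J := by
    have : (J₂ : ℝ) ≤ J := by linarith
    exact_mod_cast this
  have j4 : 2 / b₀ ≤ J := by linarith
  have j5 : 2 * (m * Real.log 5) / b₀ ≤ J := by linarith
  have j6 : (8 : ℝ) ≤ J := by linarith
  rw [div_le_iff₀ hτ0] at j1
  rw [div_le_iff₀ hb₀] at j4
  rw [div_le_iff₀ hb₀] at j5
  have hJ0 : (0 : ℝ) < J := by linarith
  have hJ1 : 1 ≤ J := by
    have : (1 : ℝ) ≤ J := by linarith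
    exact_mod_cast this
  have hgJ : (g : ℝ) ≤ J := by exact_mod_cast hg
  have hw0 : (0 : ℝ) ≤ w := Nat.cast_nonneg w
  have hbJ : 0 ≤ b₀ * J := by positivity
  by_cases hwb : (J : ℝ) / 4 < w
  · have h5 : 24 * (w + b₀ * J) ≤ C * (w + b₀ * J) :=
      mul_le_mul_of_nonneg_right hC24 (by positivity)
    linarith
  push Not at hwb
  have hJ2c : ((J - w : ℕ) : ℝ) = J - w := by rw [Nat.cast_sub hw]
  obtain ⟨J2, hJ2⟩ : ∃ J2, J2 = J - w := ⟨_, rfl⟩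
  have hJ2r : (J2 : ℝ) = J - w := by rw [hJ2, hJ2c]
  have hJ2a : 3 / 4 * (J : ℝ) ≤ J2 := by rw [hJ2r]; linarith
  have hJ2b : (J2 : ℝ) ≤ J := by rw [hJ2r]; linarith
  have hJ2p : (0 : ℝ) < J2 := by linarith
  -- the scale `h`
  obtain ⟨h, hh⟩ : ∃ h, h = ⌈b₀ * J2⌉₊ := ⟨_, rfl⟩
  have hh1 : b₀ * J2 ≤ h := by rw [hh]; exact Nat.le_ceil _
  have hb1 : 1 ≤ b₀ * J2 := by
    have : b₀ * (3 / 4 * J) ≤ b₀ * J2 := mul_le_mul_of_nonneg_left hJ2a hb₀.le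
    linarith
  have hh2 : (h : ℝ) ≤ 2 * b₀ * J2 := by
    have : (h : ℝ) < b₀ * J2 + 1 := by
      rw [hh]
      exact Nat.ceil_lt_add_one (by positivity)
    linarith
  have hh0 : 0 < h := by
    have : (0 : ℝ) < h := by linarith
    exact_mod_cast this
  have hhJ : (h : ℝ) ≤ J2 / 8 := by
    have : 2 * b₀ * J2 ≤ 2 * (1 / 16) * J2 := by
      refine mul_le_mul_of_nonneg_right ?_ hJ2p.le
      linarith
    linarith
  have hhb : (h : ℝ) ≤ 2 * b₀ * J := by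
    have : 2 * b₀ * J2 ≤ 2 * b₀ * J := mul_le_mul_of_nonneg_left hJ2b (by positivity)
    linarith
  -- the number of digits
  obtain ⟨g₁, hg₁⟩ : ∃ g₁, g₁ = min g (J2 / 2) := ⟨_, rfl⟩
  have hg₁a : g₁ ≤ g := by rw [hg₁]; exact min_le_left _ _
  have hg₁b : g₁ ≤ J2 / 2 := by rw [hg₁]; exact min_le_right _ _
  have hg₁c : (g : ℝ) ≤ 4 * g₁ := by
    have hg₁0 : (0 : ℝ) ≤ g₁ := Nat.cast_nonneg _
    rcases le_total g (J2 / 2) with hh3 | hh3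
    · have : g₁ = g := by rw [hg₁]; exact min_eq_left hh3
      rw [this]
      rw [this] at hg₁0
      linarith
    · have h1 : g₁ = J2 / 2 := by rw [hg₁]; exact min_eq_right hh3
      have h2 : J2 ≤ 2 * (J2 / 2) + 1 := by omega
      rw [← h1] at h2
      have h3 : (J2 : ℝ) ≤ 2 * g₁ + 1 := by exact_mod_cast h2
      linarith
  by_cases hgh : g₁ < h
  · -- few digits
    have h1 : (g₁ : ℝ) ≤ h := by exact_mod_cast hgh.le
    have h5 : 24 * (w + b₀ * J) ≤ C * (w + b₀ * J) :=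
      mul_le_mul_of_nonneg_right hC24 (by positivity)
    nlinarith
  push Not at hgh
  obtain ⟨N, hN1⟩ : ∃ N, g₁ / h = N + 1 := by
    have : 0 < g₁ / h := Nat.div_pos hgh hh0
    exact ⟨g₁ / h - 1, by omega⟩
  obtain ⟨g', hg'⟩ : ∃ g', g' = (N + 1) * h := ⟨_, rfl⟩
  have hg'1 : g' ≤ g₁ := by
    rw [hg', ← hN1]
    exact Nat.div_mul_le_self _ _
  have hg'2 : g₁ < g' + h := by
    rw [hg', ← hN1]
    have := Nat.div_add_mod g₁ h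
    have h4 := Nat.mod_lt g₁ hh0
    have h5 : h * (g₁ / h) = g₁ / h * h := Nat.mul_comm _ _
    omega
  have hg'g : g' ≤ g := hg'1.trans hg₁a
  have hg'J : g' ≤ J2 := by omega
  have hprec : (1 : ℝ) / 2 ^ g ≤ 1 / 2 ^ g' :=
    one_div_le_one_div_of_le (by positivity) (pow_le_pow_right₀ (by norm_num) hg'g)
  have hhJ' : h ≤ J := by
    have : (h : ℝ) ≤ J := by linarith
    exact_mod_cast this
  -- the event
  obtain ⟨p', h', hsup, -, Mx', hat⟩ := hE J j3 τ hτ0 hτc (by linarith) F A hS h hhJ'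
    (by
      have : b₀ * (3 / 4 * J) ≤ b₀ * J2 := mul_le_mul_of_nonneg_left hJ2a hb₀.le
      linarith) _
    (fun ω => ((F.win w).X (J - w) ω, (F.T ω % 2 ^ (J - w),
      (labz i₀ g' (s ω) (F.d ω), F.c w ω))))
    (by
      intro p' hp' hsup ω hω
      refine le_trans (le_of_eq ?_) (win_count (wp F p' hp') hw i₀ g' s e n
        (fun ω hω => he ω (hsup ω hω).1) (fun ω hω j => (hζ ω (hsup ω hω).1 j).trans hprec)
        (fun ω hω j => (hOn ω (hsup ω hω).1 j).trans hprec) ω hω)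
      refine congrArg Nat.cast (congrArg Finset.card ?_)
      ext v
      constructor
      · intro hv
        obtain ⟨ω', h1, h2⟩ := Finset.mem_image.mp hv
        obtain ⟨h3, h4⟩ := Finset.mem_filter.mp h1
        exact Finset.mem_image.mpr ⟨ω', Finset.mem_filter.mpr ⟨h3, h4⟩, h2⟩
      · intro hv
        obtain ⟨ω', h1, h2⟩ := Finset.mem_image.mp hv
        obtain ⟨h3, h4⟩ := Finset.mem_filter.mp h1
        exact Finset.mem_image.mpr ⟨ω', Finset.mem_filter.mpr ⟨h3, h4⟩, h2⟩)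
  rw [← hK] at Mx'
  -- the window
  obtain ⟨x, hx⟩ : ∃ x : ℝ, x = C₂ * (K * τ + w / J) +
    a * (K * τ * J + 2 * (m * Real.log 5)) / J2 := ⟨_, rfl⟩
  have hmain := ncv_win m ha (C₂ := C₂) (fun J F τ c k1 k2 k3 k4 k5 k6 =>
      (hM J F τ c k1 k2 k3 k4 k5 k6).2.2.1) hJ₀ (wp F p' h') (κ := K * τ) (x := x) (w := w)
    (J2 := J2) (g' := g') (h := h) (N := N) hJ1 (by positivity) hwb hw (by
      have h1 : 1 ≤ K := by rw [hK]; linarith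
      have h2 : 1 * (τ * J) ≤ K * (τ * J) := mul_le_mul_of_nonneg_right h1 (by positivity)
      linarith) Mx' hJ2 (by exact_mod_cast hJ2p) i₀ s e n
    (fun ω hω => he ω (hsup ω hω).1) (fun ω hω j => (hζ ω (hsup ω hω).1 j).trans hprec)
    (fun ω hω j => (hOn ω (hsup ω hω).1 j).trans hprec)
    (fun ω ω' k1 k2 f1 f2 f3 => hsd ω ω' (hsup ω k1).2 (hsup ω' k2).2 (hsup ω k1).1
      (hsup ω' k2).1 f1 f2 f3) hx
    (by
      have h1 : (J₀ : ℝ) ≤ J2 := by linarith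
      exact_mod_cast h1) (hg'1.trans hg₁b) hg' hh1 hh2
    (by
      have h1 : θ / 2 * J ≤ θ * J2 := by
        have : θ * (3 / 4 * J) ≤ θ * J2 := mul_le_mul_of_nonneg_left hJ2a hθ.le
        have : 0 ≤ θ * J := by positivity
        linarith
      have h2 : K * τ * J ≤ θ / 2 * J := mul_le_mul_of_nonneg_right hτθ hJ0.le
      linarith) hat
  rw [hC]
  exact ncv_arith hR ha hC₁ hC₂ hb₀ hJ0 hJ2b hJ2p hw0 (Nat.cast_nonneg g') hlog0.le hmain hx hτb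
    (by linarith) (by
      have h1 : (g₁ : ℝ) ≤ g' + h := by exact_mod_cast hg'2.le
      linarith) hhb

end Pool.KAZ
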