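import Pool.Agent.H26.KAZ.NC1
import Pool.Agent.H43.K2.MOP
import Pool.Agent.H52.K2.RG
import Pool.Agent.H52.K2.RPT
import Pool.Agent.H13.K2S.NoPlank
import Pool.Agent.H13.K2S.Claim
import Pool.Agent.H20.K2.AOP
import Pool.Agent.H35.K2S.LineU

/-!
# Visible labels of the line, coordinates of a fan
-/

set_option autoImplicit false

namespace Pool.KAZ

open Finset Real
open Pool.Agent.H49.Ent Pool.Agent.H32.Dense Pool.STK Pool.KA Pool.KSAT Pool.KAL.NC1

variable {m J : ℕ}

/-- A label of the line which is visible costs nothing. -/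
lemma cnd_vis (F : Fam m J) {a e c : ℝ} (ha : 1 ≤ a) (he : F.Tm e) {κ : Type} (z : F.Ω → κ)
    (hz : Det F.p (fun ω => (F.l ω, F.Z ω)) z)
    (hv : CH F.p z (fun ω => (F.X J ω, F.W ω)) ≤ c) :
    (F.cnd z).Tm e ∧ F.Ga a - a * (e + c) ≤ (F.cnd z).Ga a := by
  have hp := F.isLaw.nonneg
  refine ⟨?_, ?_⟩
  · unfold Fam.Tm at he ⊢
    change (J : ℝ) * Real.log 2 - e ≤ CH F.p F.T (fun ω => (F.l ω, (z ω, F.Z ω)))
    refine he.trans (CH_mono_cond hp ?_)
    intro ω ω' h1 h2 h
    have e1 := Prod.ext_iff.1 h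
    exact Prod.ext e1.1 (Prod.ext (hz ω ω' h1 h2 h) e1.2)
  · have e1 : (F.cnd z).Ga a = CH F.p (F.D J) (fun ω => (z ω, F.Z ω)) -
        a * CH F.p (F.X J) (fun ω => (F.T ω, (z ω, F.Z ω))) := rfl
    have e2 : CH F.p (F.X J) (fun ω => (F.T ω, (z ω, F.Z ω))) =
        CH F.p (F.X J) (fun ω => (z ω, F.W ω)) := by
      refine CH_congr hp ?_ ?_ ?_ ?_
      · intro ω ω' _ _ h
        exact (Prod.ext_iff.mp h).1
      · intro ω ω' _ _ h
        exact (Prod.ext_iff.mp h).1
      · intro ω ω' _ _ h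
        simp only [Prod.mk.injEq] at h
        show (z ω, (F.T ω, F.Z ω)) = (z ω', (F.T ω', F.Z ω'))
        rw [h.1, h.2.1, h.2.2]
      · intro ω ω' _ _ h
        have h' : (z ω, (F.T ω, F.Z ω)) = (z ω', (F.T ω', F.Z ω')) := h
        simp only [Prod.mk.injEq] at h'
        show (F.T ω, (z ω, F.Z ω)) = (F.T ω', (z ω', F.Z ω'))
        rw [h'.1, h'.2.1, h'.2.2]
    have e3 : F.Ga a = CH F.p (F.D J) F.Z - a * CH F.p (F.X J) F.W := rfl
    have b1 := CH_bayes hp (F.D J) z F.Z
    have b2 := CH_bayes hp (F.X J) z F.W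
    have b3 := CH_bayes hp z F.T F.Z
    have n1 : 0 ≤ CH F.p z (fun ω => (F.D J ω, F.Z ω)) := CH_nonneg hp _ _
    have n2 : 0 ≤ CH F.p z F.Z := CH_nonneg hp _ _
    have t1 : CH F.p F.T F.Z ≤ J * Real.log 2 := TRC.CH_lt F.isLaw F.T F.Z J F.tim
    have t2 : CH F.p F.T (fun ω => (F.l ω, F.Z ω)) ≤ CH F.p F.T (fun ω => (z ω, F.Z ω)) := by
      refine CH_mono_cond hp ?_
      intro ω ω' h1 h2 h
      exact Prod.ext (hz ω ω' h1 h2 h) (Prod.ext_iff.1 h).2
    have t3 : CH F.p z (fun ω => (F.T ω, F.Z ω)) = CH F.p z F.W := rfl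
    rw [t3] at b3
    unfold Fam.Tm at he
    have t4 : CH F.p z F.Z - e ≤ CH F.p z F.W := by linarith
    have k1 : a * (CH F.p z F.Z - e) ≤ a * CH F.p z F.W :=
      mul_le_mul_of_nonneg_left t4 (by linarith)
    have k2 : a * CH F.p z (fun ω => (F.X J ω, F.W ω)) ≤ a * c :=
      mul_le_mul_of_nonneg_left hv (by linarith)
    have k3 : CH F.p z F.Z ≤ a * CH F.p z F.Z := le_mul_of_one_le_left n2 ha
    have k4 : a * CH F.p (F.X J) (fun ω => (z ω, F.W ω)) = a * CH F.p (F.X J) F.W -
        a * CH F.p z F.W + a * CH F.p z (fun ω => (F.X J ω, F.W ω)) := by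
      have : CH F.p (F.X J) (fun ω => (z ω, F.W ω)) = CH F.p (F.X J) F.W - CH F.p z F.W +
        CH F.p z (fun ω => (F.X J ω, F.W ω)) := by linarith
      rw [this]
      ring
    rw [e1, e2, e3, k4]
    linarith

/-- The floors of two numbers at distance at most `1`. -/
lemma floor_mem {x y : ℝ} (h : |x - y| ≤ 1) : ⌊x⌋ ∈ Finset.Icc (⌊y⌋ - 1) (⌊y⌋ + 1) := by
  have a1 := Int.floor_le x
  have a2 := Int.lt_floor_add_one x
  have b1 := Int.floor_le y
  have b2 := Int.lt_floor_add_one y
  rw [abs_le] at h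
  have c1 : ((⌊y⌋ - 2 : ℤ) : ℝ) < ⌊x⌋ := by push_cast; linarith
  have c2 : (⌊x⌋ : ℝ) < ((⌊y⌋ + 2 : ℤ) : ℝ) := by push_cast; linarith
  have c3 := Int.cast_lt.mp c1
  have c4 := Int.cast_lt.mp c2
  rw [Finset.mem_Icc]
  omega

/-- Truncation. -/
noncomputable def clp (x : ℝ) : ℝ := max (-4) (min x 4)

lemma clp_abs (x : ℝ) : |clp x| ≤ 4 := by
  unfold clp
  rw [abs_le]
  exact ⟨le_max_left _ _, max_le (by norm_num) (min_le_right _ _)⟩

lemma clp_eq {x : ℝ} (h : |x| ≤ 4) : clp x = x := by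
  unfold clp
  rw [abs_le] at h
  rw [min_eq_left h.2, max_eq_right h.1]

/-- The coordinates of a fan: the coordinate `i₀`, and the distances to the line of slopes `c`. -/
noncomputable def frA (i₀ : Fin m) (c : Fin m → ℝ) : Matrix (Fin m) (Fin m) ℝ :=
  fun i j => (if i = j then 1 / 5 else 0) - (if j = i₀ then (if i = i₀ then 0 else c i / 5) else 0)

/-- The inverse. -/
noncomputable def frA' (i₀ : Fin m) (c : Fin m → ℝ) : Matrix (Fin m) (Fin m) ℝ :=
  fun i j => (if i = j then 5 else 0) + (if j = i₀ then (if i = i₀ then 0 else 5 * c i) else 0)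

lemma frA_mul (i₀ : Fin m) (c : Fin m → ℝ) (d : Fin m → ℝ) (i : Fin m) :
    ∑ j, frA i₀ c i j * d j = (d i - (if i = i₀ then 0 else c i * d i₀)) / 5 := by
  unfold frA
  have h : ∀ j, ((if i = j then 1 / 5 else 0) -
      (if j = i₀ then (if i = i₀ then 0 else c i / 5) else 0)) * d j =
      (if i = j then d j / 5 else 0) -
        (if j = i₀ then (if i = i₀ then 0 else c i * d j / 5) else 0) := by
    intro j
    rw [sub_mul]
    congr 1
    · split_ifs <;> ring
    · split_ifs <;> ring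
  rw [Finset.sum_congr rfl fun j _ => h j, Finset.sum_sub_distrib, Finset.sum_ite_eq,
    if_pos (Finset.mem_univ _), Finset.sum_ite_eq', if_pos (Finset.mem_univ _)]
  by_cases h3 : i = i₀
  · rw [if_pos h3, if_pos h3]
    ring
  · rw [if_neg h3, if_neg h3]
    ring

lemma frA_good {ζ : Type} (i₀ : Fin m) (c : ζ → Fin m → ℝ) (hc : ∀ a i, |c a i| ≤ 4) :
    GoodA 25 (fun a => frA i₀ (c a)) (fun a => frA' i₀ (c a)) := by
  refine ⟨?_, ?_, ?_⟩
  · intro a i
    have h : ∀ j, |frA i₀ (c a) i j| ≤ (if i = j then 1 / 5 else 0) +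
        (if j = i₀ then 4 / 5 else 0) := by
      intro j
      unfold frA
      refine (abs_sub _ _).trans ?_
      refine add_le_add ?_ ?_
      · split_ifs
        · rw [abs_of_nonneg (by norm_num)]
        · rw [abs_zero]
      · split_ifs
        · rw [abs_zero]
          norm_num
        · rw [abs_div, abs_of_pos (by norm_num : (0 : ℝ) < 5)]
          have := hc a i
          linarith
        · rw [abs_zero]
    refine (Finset.sum_le_sum fun j _ => h j).trans ?_
    rw [Finset.sum_add_distrib, Finset.sum_ite_eq, if_pos (Finset.mem_univ _),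
      Finset.sum_ite_eq', if_pos (Finset.mem_univ _)]
    norm_num
  · intro a i
    have h : ∀ j, |frA' i₀ (c a) i j| ≤ (if i = j then 5 else 0) +
        (if j = i₀ then 20 else 0) := by
      intro j
      unfold frA'
      refine (abs_add_le _ _).trans ?_
      refine add_le_add ?_ ?_
      · split_ifs
        · rw [abs_of_nonneg (by norm_num)]
        · rw [abs_zero]
      · split_ifs
        · rw [abs_zero]
          norm_num
        · rw [abs_mul, abs_of_pos (by norm_num : (0 : ℝ) < 5)]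
          have := hc a i
          linarith
        · rw [abs_zero]
    refine (Finset.sum_le_sum fun j _ => h j).trans ?_
    rw [Finset.sum_add_distrib, Finset.sum_ite_eq, if_pos (Finset.mem_univ _),
      Finset.sum_ite_eq', if_pos (Finset.mem_univ _)]
    norm_num
  · intro a
    funext i j
    rw [Matrix.mul_apply, Matrix.one_apply]
    have h : ∀ l, frA' i₀ (c a) i l * frA i₀ (c a) l j =
        (if i = l then 5 * frA i₀ (c a) l j else 0) +
        (if l = i₀ then (if i = i₀ then 0 else 5 * c a i) * frA i₀ (c a) l j else 0) := by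
      intro l
      have e1 : frA' i₀ (c a) i l = (if i = l then 5 else 0) +
        (if l = i₀ then (if i = i₀ then 0 else 5 * c a i) else 0) := rfl
      rw [e1, add_mul]
      congr 1
      · split_ifs <;> ring
      · split_ifs <;> ring
    rw [Finset.sum_congr rfl fun l _ => h l, Finset.sum_add_distrib, Finset.sum_ite_eq,
      if_pos (Finset.mem_univ _), Finset.sum_ite_eq', if_pos (Finset.mem_univ _)]
    unfold frA
    by_cases h1 : i = i₀ <;> by_cases h2 : i = j <;> by_cases h3 : j = i₀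
    · simp only [h1, h3, if_true]; norm_num
    · exact absurd (h2 ▸ h1) h3
    · exact absurd (h1.trans h3.symm) h2
    · have h4 : ¬ i₀ = j := fun h => h3 h.symm
      simp only [h1, h3, h4, if_true, if_false]; norm_num
    · exact absurd (h2.trans h3) h1
    · have h4 : ¬ i₀ = j := fun h => h3 h.symm
      simp only [h2, h3, h4, if_true, if_false]
      norm_num
    · simp only [h1, h3, if_true, if_false]
      ring
    · have h4 : ¬ i₀ = j := fun h => h3 h.symm
      simp only [h1, h2, h3, h4, if_false]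
      ring

end Pool.KAZ
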