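import Pool.Agent.H26.KAZ.NCVa

/-!
# The label of a fan: rounded slopes and rounded offsets
-/

set_option autoImplicit false

namespace Pool.KAZ

open Finset Real
open Pool.Agent.H49.Ent Pool.Agent.H32.Dense Pool.STK Pool.KA Pool.KSAT Pool.KAL.NC1

variable {m J : ℕ}

/-- Rounded slopes. -/
noncomputable def labE (g : ℕ) (s : Fin m → ℝ) : Fin m → ℤ := fun j => ⌊(2 : ℝ) ^ g * s j⌋

/-- The slopes of a label. -/
noncomputable def slp (g : ℕ) (E : Fin m → ℤ) (j : Fin m) : ℝ := clp ((E j : ℝ) / 2 ^ g)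

lemma slp_abs (g : ℕ) (E : Fin m → ℤ) (j : Fin m) : |slp g E j| ≤ 4 := clp_abs _

lemma frA_lab {V : Type} (i₀ : Fin m) (g : ℕ) :
    GoodA (ζ := ((Fin m → ℤ) × (Fin m → ℤ)) × V) 25
      (fun v => frA i₀ (slp g v.1.1)) (fun v => frA' i₀ (slp g v.1.1)) := by
  have h := frA_good (ζ := ((Fin m → ℤ) × (Fin m → ℤ)) × V) i₀ (fun v => slp g v.1.1)
    (fun v j => slp_abs g v.1.1 j)
  exact h

/-- Rounded offsets. -/
noncomputable def labN (i₀ : Fin m) (g : ℕ) (E : Fin m → ℤ) (d : Fin m → ℝ) : Fin m → ℤ :=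
  fun j => ⌊azv {i₀} g (frA i₀ (slp g E)) d j⌋

/-- The label of a fan. -/
noncomputable def labz (i₀ : Fin m) (g : ℕ) (s d : Fin m → ℝ) : (Fin m → ℤ) × (Fin m → ℤ) :=
  (labE g s, labN i₀ g (labE g s) d)

lemma labz_one (i₀ : Fin m) (g : ℕ) (s d : Fin m → ℝ) (j : Fin m) :
    |azv {i₀} g (frA i₀ (slp g (labz i₀ g s d).1)) d j - ((labz i₀ g s d).2 j : ℝ)| ≤ 1 := by
  have e1 : ((labz i₀ g s d).2 j : ℝ) = ⌊azv {i₀} g (frA i₀ (slp g (labz i₀ g s d).1)) d j⌋ := rfl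
  rw [e1]
  have a1 := Int.floor_le (azv {i₀} g (frA i₀ (slp g (labz i₀ g s d).1)) d j)
  have a2 := Int.lt_floor_add_one (azv {i₀} g (frA i₀ (slp g (labz i₀ g s d).1)) d j)
  rw [abs_le]
  constructor <;> linarith

/-- The label takes few values at a point. -/
lemma labz_mem (i₀ : Fin m) (g : ℕ) {s d e n : Fin m → ℝ} (he : ∀ j, |e j| ≤ 2)
    (hs : ∀ j, |e j - s j| ≤ 1 / 2 ^ g) (hd : |d i₀| ≤ 1)
    (hn : ∀ j, |d j - e j * d i₀ - n j| ≤ 1 / 2 ^ g) :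
    (∀ j, (labz i₀ g s d).1 j ∈ Finset.Icc (⌊(2 : ℝ) ^ g * e j⌋ - 1) (⌊(2 : ℝ) ^ g * e j⌋ + 1)) ∧
    ∀ j, (labz i₀ g s d).2 j ∈ Finset.Icc (⌊if j = i₀ then 0 else (2 : ℝ) ^ g * n j / 5⌋ - 1)
      (⌊if j = i₀ then 0 else (2 : ℝ) ^ g * n j / 5⌋ + 1) := by
  have hP : (0 : ℝ) < 2 ^ g := by positivity
  have hP1 : (1 : ℝ) / 2 ^ g ≤ 1 := by
    rw [div_le_one hP]
    exact one_le_pow₀ (by norm_num)
  have hsl : ∀ j, |e j - slp g (labE g s) j| ≤ 2 / 2 ^ g := by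
    intro j
    have h1 : |((labE g s j : ℤ) : ℝ) / 2 ^ g - s j| ≤ 1 / 2 ^ g := by
      have a1 := Int.floor_le ((2 : ℝ) ^ g * s j)
      have a2 := Int.lt_floor_add_one ((2 : ℝ) ^ g * s j)
      have e1 : ((labE g s j : ℤ) : ℝ) / 2 ^ g - s j =
          (((labE g s j : ℤ) : ℝ) - 2 ^ g * s j) / 2 ^ g := by
        field_simp
      rw [e1, abs_div, abs_of_pos hP]
      refine div_le_div_of_nonneg_right ?_ hP.le
      unfold labE
      rw [abs_le]
      constructor <;> linarith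
    have h2 : |e j - ((labE g s j : ℤ) : ℝ) / 2 ^ g| ≤ 2 / 2 ^ g := by
      have e2 : e j - ((labE g s j : ℤ) : ℝ) / 2 ^ g =
          (e j - s j) - (((labE g s j : ℤ) : ℝ) / 2 ^ g - s j) := by ring
      rw [e2]
      refine (abs_sub _ _).trans ?_
      have e3 : (2 : ℝ) / 2 ^ g = 1 / 2 ^ g + 1 / 2 ^ g := by ring
      rw [e3]
      exact add_le_add (hs j) h1
    have h3 : |((labE g s j : ℤ) : ℝ) / 2 ^ g| ≤ 4 := by
      have e4 : ((labE g s j : ℤ) : ℝ) / 2 ^ g = e j - (e j - ((labE g s j : ℤ) : ℝ) / 2 ^ g) := by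
        ring
      rw [e4]
      refine (abs_sub _ _).trans ?_
      have e5 : (2 : ℝ) / 2 ^ g = 2 * (1 / 2 ^ g) := by ring
      rw [e5] at h2
      linarith [he j]
    unfold slp
    rw [clp_eq h3]
    exact h2
  refine ⟨fun j => floor_mem ?_, fun j => floor_mem ?_⟩
  · rw [← mul_sub, abs_mul, abs_of_pos hP, abs_sub_comm]
    have := mul_le_mul_of_nonneg_left (hs j) hP.le
    have e1 : (2 : ℝ) ^ g * (1 / 2 ^ g) = 1 := by field_simp
    rw [e1] at this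
    exact this
  · have e1 : (labz i₀ g s d).1 = labE g s := rfl
    unfold azv
    rw [frA_mul]
    by_cases hj : j = i₀
    · rw [if_pos (Finset.mem_singleton.mpr hj), if_pos hj, if_pos hj, pow_zero, one_mul, sub_zero,
        sub_zero, hj, abs_div, abs_of_pos (by norm_num : (0 : ℝ) < 5)]
      linarith
    · rw [if_neg (fun h => hj (Finset.mem_singleton.mp h)), if_neg hj, if_neg hj]
      have e2 : (2 : ℝ) ^ g * ((d j - slp g (labE g s) j * d i₀) / 5) - 2 ^ g * n j / 5 =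
          2 ^ g / 5 * ((d j - e j * d i₀ - n j) + (e j - slp g (labE g s) j) * d i₀) := by ring
      rw [e2, abs_mul, abs_of_pos (by positivity : (0 : ℝ) < 2 ^ g / 5)]
      have h1 : |(d j - e j * d i₀ - n j) + (e j - slp g (labE g s) j) * d i₀| ≤ 3 / 2 ^ g := by
        refine (abs_add_le _ _).trans ?_
        rw [abs_mul]
        have h2 : |e j - slp g (labE g s) j| * |d i₀| ≤ 2 / 2 ^ g * 1 :=
          mul_le_mul (hsl j) hd (abs_nonneg _) (by positivity)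
        have e3 : (3 : ℝ) / 2 ^ g = 1 / 2 ^ g + 2 / 2 ^ g := by ring
        rw [e3]
        linarith [hn j]
      calc (2 : ℝ) ^ g / 5 * _ ≤ 2 ^ g / 5 * (3 / 2 ^ g) :=
            mul_le_mul_of_nonneg_left h1 (by positivity)
        _ = 3 / 5 := by field_simp
        _ ≤ 1 := by norm_num

/-- The box of the values of the label at a point, and of the corner of the window. -/
noncomputable def box3 (c1 c2 c3 : Fin m → ℤ) : Finset ((Fin m → ℤ) × ((Fin m → ℤ) × (Fin m → ℤ))) :=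
  (Fintype.piFinset fun j => Finset.Icc (c1 j - 1) (c1 j + 1)) ×ˢ
    ((Fintype.piFinset fun j => Finset.Icc (c2 j - 1) (c2 j + 1)) ×ˢ
      (Fintype.piFinset fun j => Finset.Icc (c3 j - 1) (c3 j + 1)))

lemma box3_card (c1 c2 c3 : Fin m → ℤ) : ((box3 c1 c2 c3).card : ℝ) = 27 ^ m := by
  have h3 : ∀ c : Fin m → ℤ,
      ((Fintype.piFinset fun j => Finset.Icc (c j - 1) (c j + 1)).card : ℝ) = 3 ^ m := by
    intro c
    rw [Fintype.card_piFinset]
    have h4 : ∀ j : Fin m, (Finset.Icc (c j - 1) (c j + 1)).card = 3 := by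
      intro j
      rw [Int.card_Icc]
      have : c j + 1 + 1 - (c j - 1) = 3 := by ring
      rw [this]
      rfl
    simp only [h4, Finset.prod_const, Finset.card_univ, Fintype.card_fin]
    push_cast
    rfl
  unfold box3
  rw [Finset.card_product, Finset.card_product]
  push_cast
  rw [h3, h3, h3, ← mul_pow, ← mul_pow]
  norm_num

/-- At a point, the context in the window takes at most `27 ^ m` values. -/
lemma win_count (F : Fam m J) {w : ℕ} (hw : w ≤ J) (i₀ : Fin m) (g : ℕ) (s : F.Ω → Fin m → ℝ)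
    (e n : (Fin m → ℤ) × (ℕ × F.ζ) → Fin m → ℝ)
    (he : ∀ ω, 0 < F.p ω → ∀ j, |e (Pool.K2S.Fam.pt F ω) j| ≤ 2)
    (hs : ∀ ω, 0 < F.p ω → ∀ j, |e (Pool.K2S.Fam.pt F ω) j - s ω j| ≤ 1 / 2 ^ g)
    (hn : ∀ ω, 0 < F.p ω → ∀ j, |F.d ω j - e (Pool.K2S.Fam.pt F ω) j * F.d ω i₀ -
      n (Pool.K2S.Fam.pt F ω) j| ≤ 1 / 2 ^ g) (ω : F.Ω) (_hω : 0 < F.p ω) :
    ∀ [DecidableEq ((Fin m → ℤ) × (ℕ × (((Fin m → ℤ) × (Fin m → ℤ)) ×
      ((ℕ × (Fin m → ℤ)) × F.ζ))))] [DecidablePred fun ω' => 0 < F.p ω' ∧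
        (F.X J ω', F.W ω') = (F.X J ω, F.W ω)],
    (((univ.filter fun ω' => 0 < F.p ω' ∧ (F.X J ω', F.W ω') = (F.X J ω, F.W ω)).image
      fun ω' => ((F.win w).X (J - w) ω', (F.T ω' % 2 ^ (J - w),
        (labz i₀ g (s ω') (F.d ω'), F.c w ω')))).card : ℝ) ≤ 27 ^ m := by
  intro _ _
  classical
  set c1 : Fin m → ℤ := fun j => ⌊(2 : ℝ) ^ g * e (Pool.K2S.Fam.pt F ω) j⌋ with hc1
  set c2 : Fin m → ℤ := fun j =>
    ⌊if j = i₀ then 0 else (2 : ℝ) ^ g * n (Pool.K2S.Fam.pt F ω) j / 5⌋ with hc2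
  set c3 : Fin m → ℤ := F.X w ω with hc3
  rw [← box3_card c1 c2 c3]
  refine Nat.cast_le.mpr ?_
  refine Finset.card_le_card_of_injOn
    (fun u => (u.2.2.1.1, (u.2.2.1.2, u.2.2.2.1.2))) ?_ ?_
  · intro u hu
    obtain ⟨ω', hω', rfl⟩ := Finset.mem_image.mp (Finset.mem_coe.mp hu)
    obtain ⟨-, h1, h2⟩ := Finset.mem_filter.mp hω'
    have h3 : Pool.K2S.Fam.pt F ω' = Pool.K2S.Fam.pt F ω := h2
    have he' := he ω' h1
    have hs' := hs ω' h1
    have hn' := hn ω' h1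
    rw [h3] at he' hs' hn'
    obtain ⟨k1, k2⟩ := labz_mem i₀ g (s := s ω') (d := F.d ω') he' hs' (F.dir ω' i₀) hn'
    refine Finset.mem_coe.mpr (Finset.mem_product.mpr ⟨Fintype.mem_piFinset.mpr k1,
      Finset.mem_product.mpr ⟨Fintype.mem_piFinset.mpr k2, Fintype.mem_piFinset.mpr fun j => ?_⟩⟩)
    have k3 := Win.near F w hw ω' j
    have k4 : F.X w ω' j = c3 j := by
      have k5 : F.X J ω' = F.X J ω := (Prod.ext_iff.mp h2).1
      have k6 : F.X w ω' = F.X w ω := Pool.STK.B58.fl_fine hw k5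
      rw [k6]
    have k7 : |F.X w ω' j - fl w (F.x1 w ω') j| ≤ 1 := by exact_mod_cast k3
    rw [k4, abs_le] at k7
    show fl w (F.x1 w ω') j ∈ Finset.Icc (c3 j - 1) (c3 j + 1)
    rw [Finset.mem_Icc]
    constructor <;> linarith [k7.1, k7.2]
  · intro u hu u' hu' huu
    obtain ⟨ω', hω', rfl⟩ := Finset.mem_image.mp (Finset.mem_coe.mp hu)
    obtain ⟨ω'', hω'', rfl⟩ := Finset.mem_image.mp (Finset.mem_coe.mp hu')
    obtain ⟨-, h1, h2⟩ := Finset.mem_filter.mp hω'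
    obtain ⟨-, h1', h2'⟩ := Finset.mem_filter.mp hω''
    have h3 : (F.X J ω', F.W ω') = (F.X J ω'', F.W ω'') := h2.trans h2'.symm
    have e1 : F.X J ω' = F.X J ω'' := (Prod.ext_iff.mp h3).1
    have e2 : F.T ω' = F.T ω'' := (Prod.ext_iff.mp (Prod.ext_iff.mp h3).2).1
    have e3 : F.Z ω' = F.Z ω'' := (Prod.ext_iff.mp (Prod.ext_iff.mp h3).2).2
    simp only [Prod.mk.injEq] at huu
    obtain ⟨f1, f2, f3⟩ := huu
    have f3' : fl w (F.x1 w ω') = fl w (F.x1 w ω'') := f3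
    obtain ⟨t1, t2⟩ := Win.det_T F w e2
    refine Prod.ext ?_ (Prod.ext t2 (Prod.ext (Prod.ext f1 f2) (Prod.ext (Prod.ext t1 f3') e3)))
    funext i
    show (F.win w).X (J - w) ω' i = (F.win w).X (J - w) ω'' i
    rw [Win.win_X F w hw, Win.win_X F w hw, Nat.sub_add_cancel hw, e1, f3']

/-- The label is visible in the window, up to a bounded entropy. -/
lemma labz_CH (F : Fam m J) {w : ℕ} (hw : w ≤ J) (i₀ : Fin m) (g : ℕ) (s : F.Ω → Fin m → ℝ)
    (e n : (Fin m → ℤ) × (ℕ × F.ζ) → Fin m → ℝ)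
    (he : ∀ ω, 0 < F.p ω → ∀ j, |e (Pool.K2S.Fam.pt F ω) j| ≤ 2)
    (hs : ∀ ω, 0 < F.p ω → ∀ j, |e (Pool.K2S.Fam.pt F ω) j - s ω j| ≤ 1 / 2 ^ g)
    (hn : ∀ ω, 0 < F.p ω → ∀ j, |F.d ω j - e (Pool.K2S.Fam.pt F ω) j * F.d ω i₀ -
      n (Pool.K2S.Fam.pt F ω) j| ≤ 1 / 2 ^ g) :
    CH F.p (fun ω => labz i₀ g (s ω) (F.d ω))
      (fun ω => ((F.win w).X (J - w) ω, (F.win w).W ω)) ≤ 2 * (m * Real.log 5) := by
  have hp := F.isLaw
  have hp0 := hp.nonneg
  -- the position in the window determines the point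
  have hpt : ∀ ω ω', (((F.win w).X (J - w) ω, (F.win w).W ω) =
      ((F.win w).X (J - w) ω', (F.win w).W ω')) →
      Pool.K2S.Fam.pt F ω = Pool.K2S.Fam.pt F ω' := by
    intro ω ω' h
    have e1 : (F.win w).X (J - w) ω = (F.win w).X (J - w) ω' := (Prod.ext_iff.mp h).1
    have e2 : F.T ω % 2 ^ (J - w) = F.T ω' % 2 ^ (J - w) :=
      (Prod.ext_iff.mp (Prod.ext_iff.mp h).2).1
    have e3 : F.c w ω = F.c w ω' := (Prod.ext_iff.mp (Prod.ext_iff.mp h).2).2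
    have e4 : F.T1 w ω = F.T1 w ω' := (Prod.ext_iff.mp (Prod.ext_iff.mp e3).1).1
    have e5 : fl w (F.x1 w ω) = fl w (F.x1 w ω') := (Prod.ext_iff.mp (Prod.ext_iff.mp e3).1).2
    have e6 : F.Z ω = F.Z ω' := (Prod.ext_iff.mp e3).2
    refine Prod.ext ?_ (Prod.ext (Win.T_det F w e4 e2) e6)
    funext i
    have k1 := congrFun e1 i
    rw [Win.win_X F w hw, Win.win_X F w hw, congrFun e5 i, Nat.sub_add_cancel hw] at k1
    change F.X J ω i = F.X J ω' i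
    linarith
  have h54 : Ex F.p (fun _ => Real.log (2 * 2 + 1)) = Real.log 5 := by
    rw [Ex_const F.isLaw.sum_one]
    norm_num
  have hclose : ∀ {a b c : ℤ}, a ∈ Finset.Icc (c - 1) (c + 1) → b ∈ Finset.Icc (c - 1) (c + 1) →
      |((a - b : ℤ) : ℝ)| ≤ 2 := by
    intro a b c h1 h2
    rw [Finset.mem_Icc] at h1 h2
    have h3 : |a - b| ≤ 2 := by
      rw [abs_le]
      constructor <;> omega
    exact_mod_cast h3
  have mem : ∀ ω, 0 < F.p ω → _ := fun ω hω =>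
    labz_mem i₀ g (s := s ω) (d := F.d ω) (he ω hω) (hs ω hω) (F.dir ω i₀) (hn ω hω)
  have h1 : CH F.p (fun ω => (labz i₀ g (s ω) (F.d ω)).1)
      (fun ω => ((F.win w).X (J - w) ω, (F.win w).W ω)) ≤ m * Real.log 5 := by
    have h3 := CH_le_vec hp0 hp.sum_one (fun ω => (labz i₀ g (s ω) (F.d ω)).1)
      (fun ω => ((F.win w).X (J - w) ω, (F.win w).W ω)) (fun _ => (2 : ℝ)) (by
        intro ω ω' hω hω' h j
        have k1 := (mem ω hω).1 j
        have k2 := (mem ω' hω').1 j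
        rw [← hpt ω ω' h] at k2
        exact hclose k1 k2)
    rw [h54] at h3
    exact h3
  have h2 : CH F.p (fun ω => (labz i₀ g (s ω) (F.d ω)).2)
      (fun ω => ((F.win w).X (J - w) ω, (F.win w).W ω)) ≤ m * Real.log 5 := by
    have h3 := CH_le_vec hp0 hp.sum_one (fun ω => (labz i₀ g (s ω) (F.d ω)).2)
      (fun ω => ((F.win w).X (J - w) ω, (F.win w).W ω)) (fun _ => (2 : ℝ)) (by
        intro ω ω' hω hω' h j
        have k1 := (mem ω hω).2 j
        have k2 := (mem ω' hω').2 j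
        rw [← hpt ω ω' h] at k2
        exact hclose k1 k2)
    rw [h54] at h3
    exact h3
  have h3 := CH_subadd hp0 (fun ω => (labz i₀ g (s ω) (F.d ω)).1)
    (fun ω => (labz i₀ g (s ω) (F.d ω)).2) (fun ω => ((F.win w).X (J - w) ω, (F.win w).W ω))
  have h4 : CH F.p (fun ω => labz i₀ g (s ω) (F.d ω))
      (fun ω => ((F.win w).X (J - w) ω, (F.win w).W ω)) = CH F.p
      (fun ω => ((labz i₀ g (s ω) (F.d ω)).1, (labz i₀ g (s ω) (F.d ω)).2))
      (fun ω => ((F.win w).X (J - w) ω, (F.win w).W ω)) := rfl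
  rw [h4]
  linarith

end Pool.KAZ
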