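import Pool.Agent.H26.KAZ.NCVb

/-!
# Restriction to an event on which the directions have no atoms, given a context
-/

set_option autoImplicit false

namespace Pool.KAZ

open Finset Real
open Pool.Agent.H49.Ent Pool.Agent.H32.Dense Pool.STK Pool.KA Pool.KSAT Pool.KAL.NC1

variable {m J : ℕ}

/-- The family with another law. -/
def wp (F : Fam m J) (p' : F.Ω → ℝ) (h : IsLaw p') : Fam m J where
  Ω := F.Ω
  ζ := F.ζ
  fin := F.fin
  p := p'
  u := F.u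
  d := F.d
  T := F.T
  Z := F.Z
  isLaw := h
  dir := F.dir
  tim := F.tim

open Classical in
lemma ncv_event (m : ℕ) (a R : ℝ) (ha : 1 ≤ a) (hR : 0 < R) (hU : UBa m a R) (b₀ : ℝ)
    (hb₀ : 0 < b₀) (C : ℝ) (hC : 1 ≤ C) :
    ∃ c > 0, ∃ J₁ : ℕ, ∀ J ≥ J₁, ∀ τ : ℝ, 0 < τ → τ ≤ c → 1 ≤ τ * J → ∀ (F : Fam m J)
      (A : F.Ω → Prop), Pool.K2S.Fam.Stt F a R τ A →
      ∀ q : ℕ, q ≤ J → b₀ * J ≤ q → ∀ (U : Type) (b : F.Ω → U),
      (∀ p' : F.Ω → ℝ, IsLaw p' → (∀ ω, 0 < p' ω → A ω ∧ 0 < F.p ω) → ∀ ω, 0 < p' ω →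
        (((univ.filter fun ω' => 0 < p' ω' ∧ (F.X J ω', F.W ω') = (F.X J ω, F.W ω)).image
          b).card : ℝ) ≤ C) →
      ∃ (p' : F.Ω → ℝ) (h' : IsLaw p'), (∀ ω, 0 < p' ω → A ω ∧ 0 < F.p ω) ∧ (wp F p' h').Tr ∧
        (wp F p' h').Mx a R (60 * (1 + a) * τ) ∧
        ∀ ω, 0 < p' ω → law p' (fun ω => (F.D q ω, b ω)) (F.D q ω, b ω) ≤
          Real.exp (-(R / (4 * a) * q)) * law p' b (b ω) := by
  have ha0 : 0 < a := by linarith
  obtain ⟨c₂, hc₂, J₂, hrpt⟩ := rpt_thm (ap2_thm aop_thm) tub_thm m a R ha hR hU b₀ (R / (2 * a))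
    hb₀ (by positivity)
  have hlog2 : Real.log 2 ≤ 1 := by
    have := Real.log_le_sub_one_of_pos (x := 2) (by norm_num)
    linarith
  have hlog0 : 0 < Real.log 2 := Real.log_pos (by norm_num)
  obtain ⟨n1, hn1⟩ := exists_nat_ge (5 / c₂)
  obtain ⟨n2, hn2⟩ := exists_nat_ge (4 * a / R * Real.log (4 * C) / b₀)
  refine ⟨c₂ / (6 * (1 + a)), by positivity, max J₂ (max n1 n2), ?_⟩
  intro J hJ τ hτ hτc hτJ F A hS q hq hbq U b hcnt
  have hJ2 : J₂ ≤ J := (le_max_left _ _).trans hJ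
  have hJn1 : n1 ≤ J := (le_max_left _ _).trans ((le_max_right _ _).trans hJ)
  have hJn2 : n2 ≤ J := (le_max_right _ _).trans ((le_max_right _ _).trans hJ)
  have hJ0 : (0 : ℝ) ≤ J := Nat.cast_nonneg J
  have hτJ0 : 0 ≤ τ * J := by positivity
  have hexp2 : Real.exp (-Real.log 2) = 1 / 2 := by
    rw [Real.exp_neg, Real.exp_log (by norm_num)]
    norm_num
  -- small constants
  have hcτ : 6 * (1 + a) * τ ≤ c₂ := by
    rw [le_div_iff₀ (by positivity)] at hτc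
    linarith
  have hcτJ : 6 * (1 + a) * (τ * J) ≤ c₂ * J := by
    have := mul_le_mul_of_nonneg_right hcτ hJ0
    linarith
  have hc₂J : 5 ≤ c₂ * J := by
    have h1 : 5 / c₂ ≤ J := hn1.trans (by exact_mod_cast hJn1)
    rw [div_le_iff₀ hc₂] at h1
    linarith
  have hsm : 3 * Real.exp (-(c₂ * J)) ≤ 1 / 2 := by
    have h1 : Real.exp (-(c₂ * J)) ≤ Real.exp (-5) := Real.exp_le_exp.2 (by linarith)
    have h2 : Real.exp (-5) ≤ 1 / 6 := by
      rw [Real.exp_neg, ← one_div]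
      refine one_div_le_one_div_of_le (by norm_num) ?_
      have := Real.add_one_le_exp (5 : ℝ)
      linarith
    linarith
  -- the first restriction
  obtain ⟨hTr, ⟨hTm, hGa⟩, hRb, hPA⟩ := hS
  obtain ⟨h1, Tr1, Rb1, Tm1, Ga1⟩ := res_thm m J F a (τ * J) (τ * J) (τ * J) (by linarith) hτJ0
    hτJ0 hTr hRb hTm A hPA
  set F1 := F.res A True h1 with hF1
  have Mx1 : F1.Mx a R c₂ := by
    refine ⟨?_, ?_⟩
    · refine AP5.Tm_mono Tm1 ?_
      nlinarith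
    · have e1 : (1 + a) * (4 * (τ * J) + τ * J) = 5 * (1 + a) * (τ * J) := by ring
      rw [e1] at Ga1
      have e2 : 0 ≤ a * (τ * J) := by positivity
      nlinarith
  have Rb1' : F1.Rb (c₂ * J) := by
    obtain ⟨⟨a1, b1⟩, ⟨a2, b2⟩, ⟨a3, b3⟩, ⟨a4, b4⟩, ⟨a5, b5⟩⟩ := Rb1
    have hle : τ * J + τ * J ≤ c₂ * J := by nlinarith
    exact ⟨⟨a1, Pool.K2S.rg_mono hle b1⟩, ⟨a2, Pool.K2S.rg_mono hle b2⟩,
      ⟨a3, Pool.K2S.rg_mono hle b3⟩, ⟨a4, Pool.K2S.rg_mono hle b4⟩,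
      ⟨a5, Pool.K2S.rg_mono hle b5⟩⟩
  have hrpt1 := hrpt J hJ2 F1 Mx1 Tr1 Rb1' q hq hbq
  -- the event without atoms
  set ρ : ℝ := Real.exp (-((R / a - R / (2 * a)) * q)) with hρ
  have hp1 : IsLaw F1.p := F1.isLaw
  obtain ⟨A1, hA1, hA1pos, hat1⟩ := event (p := F1.p) hp1 (F1.D q)
    (fun ω => (F1.X J ω, F1.W ω)) (ρ := ρ) (ε := Real.exp (-(c₂ * J))) (by linarith) hrpt1
  have hA1' : Real.exp (-Real.log 2) ≤ law F1.p A1 True := by
    rw [hexp2, ← Pe_eq_law]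
    linarith
  obtain ⟨h2, Tr2, Rb2, Tm2, Ga2⟩ := res_thm m J F1 a (τ * J + τ * J) (Real.log 2)
    (τ * J + 4 * (τ * J) + τ * J) (by linarith) (by linarith) hlog0.le Tr1 Rb1 Tm1 A1 hA1'
  set F2 := F1.res A1 True h2 with hF2
  have hp2 : IsLaw F2.p := F2.isLaw
  -- supports
  have hs1 : ∀ ω, 0 < F1.p ω → A ω ∧ 0 < F.p ω := by
    intro ω hω
    have h3 : Pool.Agent.H49.Ent.cond F.p A True ω ≠ 0 := hω.ne'
    refine ⟨?_, lt_of_le_of_ne (F.isLaw.nonneg ω) (Ne.symm (cond_ne A h3))⟩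
    by_contra hcon
    refine h3 ?_
    unfold Pool.Agent.H49.Ent.cond
    rw [if_neg (by simpa using hcon)]
  have hs2 : ∀ ω, 0 < F2.p ω → 0 < F1.p ω ∧ A1 ω := by
    intro ω hω
    have h3 : Pool.Agent.H49.Ent.cond F1.p A1 True ω ≠ 0 := hω.ne'
    refine ⟨lt_of_le_of_ne (hp1.nonneg ω) (Ne.symm (cond_ne A1 h3)), ?_⟩
    by_contra hcon
    refine h3 ?_
    unfold Pool.Agent.H49.Ent.cond
    rw [if_neg (by simpa using hcon)]
  have hat2 : ∀ ω, 0 < F2.p ω → law F2.p (fun ω => (F.D q ω, (F.X J ω, F.W ω)))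
      (F.D q ω, (F.X J ω, F.W ω)) ≤ 2 * ρ * law F2.p (fun ω => (F.X J ω, F.W ω))
        (F.X J ω, F.W ω) := fun ω hω => hat1 ω (hs2 ω hω).1 (hs2 ω hω).2
  -- the context
  have hcnt2 := hcnt F2.p hp2 (fun ω hω => hs1 ω (hs2 ω hω).1)
  set η : ℝ := 1 / (2 * C) with hη
  have hη0 : 0 < η := by rw [hη]; positivity
  have hρ0 : 0 < ρ := Real.exp_pos _
  obtain ⟨G, hG, hGat⟩ := context (p := F2.p) hp2 (F.D q) (fun ω => (F.X J ω, F.W ω)) b
    (ρ := 2 * ρ) (η := η) (C := C) (by linarith) hη0 hat2 (by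
      intro ω hω
      refine le_trans (le_of_eq ?_) (hcnt2 ω hω)
      refine congrArg Nat.cast (congrArg Finset.card ?_)
      ext v
      simp only [Finset.mem_image, Finset.mem_filter]
      exact Iff.rfl)
  have hCη : C * η = 1 / 2 := by
    rw [hη]
    field_simp
  have hG' : Real.exp (-Real.log 2) ≤ law F2.p (fun ω => G (b ω)) True := by
    rw [hexp2, ← Pe_eq_law]
    linarith
  obtain ⟨h3, Tr3, Rb3, Tm3, Ga3⟩ := res_thm m J F2 a (τ * J + τ * J + Real.log 2) (Real.log 2)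
    (τ * J + 4 * (τ * J) + τ * J + 4 * (τ * J + τ * J) + Real.log 2) (by linarith) (by linarith)
    hlog0.le Tr2 Rb2 Tm2 (fun ω => G (b ω)) hG'
  have hs3 : ∀ ω, 0 < Pool.Agent.H49.Ent.cond F2.p (fun ω => G (b ω)) True ω →
      0 < F2.p ω ∧ G (b ω) := by
    intro ω hω
    refine ⟨lt_of_le_of_ne (hp2.nonneg ω) (Ne.symm (cond_ne _ hω.ne')), ?_⟩
    by_contra hcon
    refine hω.ne' ?_
    unfold Pool.Agent.H49.Ent.cond
    rw [if_neg (by simpa using hcon)]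
  refine ⟨Pool.Agent.H49.Ent.cond F2.p (fun ω => G (b ω)) True, h3,
    fun ω hω => hs1 ω (hs2 ω (hs3 ω hω).1).1, Tr3, ⟨?_, ?_⟩, ?_⟩
  · refine AP5.Tm_mono (F := F2.res (fun ω => G (b ω)) True h3) Tm3 ?_
    have e2 : 0 ≤ a * (τ * J) := by positivity
    nlinarith
  · have e3 : F2.Ga a - (1 + a) * (4 * (τ * J + τ * J + Real.log 2) + Real.log 2) ≤
      (wp F (Pool.Agent.H49.Ent.cond F2.p (fun ω => G (b ω)) True) h3).Ga a := Ga3
    have e2 : 0 ≤ a * (τ * J) := by positivity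
    have e4 : (1 + a) * Real.log 2 ≤ (1 + a) * (τ * J) :=
      mul_le_mul_of_nonneg_left (by linarith) (by linarith)
    nlinarith
  · intro ω hω
    obtain ⟨k1, k2⟩ := hs3 ω hω
    have l1 := hGat (b ω) k2 (F.D q ω)
    rw [law_cond_Pe, law_cond_Pe, mul_div_assoc']
    have hPG : 0 < Pe F2.p (fun ω => G (b ω)) := by
      rw [Pe_eq_law]
      exact lt_of_lt_of_le (Real.exp_pos _) hG'
    refine div_le_div_of_nonneg_right ?_ hPG.le
    have u1 : Pe F2.p (fun ω' => (F.D q ω', b ω') = (F.D q ω, b ω) ∧ G (b ω')) ≤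
        law F2.p (fun ω => (F.D q ω, b ω)) (F.D q ω, b ω) := by
      rw [law_eq_Pe]
      exact Pe_mono hp2.nonneg fun _ _ h => h.1
    have u2 : law F2.p b (b ω) ≤ Pe F2.p (fun ω' => b ω' = b ω ∧ G (b ω')) := by
      rw [law_eq_Pe]
      exact Pe_mono hp2.nonneg fun ω' _ h => ⟨h, by rw [h]; exact k2⟩
    have u3 : 2 * ρ / η ≤ Real.exp (-(R / (4 * a) * q)) := by
      have v1 : 2 * ρ / η = 4 * C * ρ := by
        rw [hη]
        field_simp
        ring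
      have v2 : Real.log (4 * C) ≤ R / (4 * a) * q := by
        have w1 : 4 * a / R * Real.log (4 * C) / b₀ ≤ J := hn2.trans (by exact_mod_cast hJn2)
        rw [div_le_iff₀ hb₀] at w1
        have w2 : 4 * a / R * Real.log (4 * C) ≤ q := by linarith
        calc Real.log (4 * C) = R / (4 * a) * (4 * a / R * Real.log (4 * C)) := by
              field_simp
          _ ≤ _ := mul_le_mul_of_nonneg_left w2 (by positivity)
      have v3 : 4 * C ≤ Real.exp (R / (4 * a) * q) := by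
        calc 4 * C = Real.exp (Real.log (4 * C)) := (Real.exp_log (by positivity)).symm
          _ ≤ _ := Real.exp_le_exp.2 v2
      rw [v1]
      calc 4 * C * ρ ≤ Real.exp (R / (4 * a) * q) * ρ := mul_le_mul_of_nonneg_right v3 hρ0.le
        _ = Real.exp (-(R / (4 * a) * q)) := by
          rw [hρ, ← Real.exp_add]
          congr 1
          field_simp
          ring
    calc _ ≤ law F2.p (fun ω => (F.D q ω, b ω)) (F.D q ω, b ω) := u1
      _ ≤ 2 * ρ / η * law F2.p b (b ω) := l1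
      _ ≤ Real.exp (-(R / (4 * a) * q)) * law F2.p b (b ω) :=
          mul_le_mul_of_nonneg_right u3 (law_nonneg hp2.nonneg _ _)
      _ ≤ _ := mul_le_mul_of_nonneg_left u2 (Real.exp_pos _).le

end Pool.KAZ
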