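import Pool.Agent.H26.KAZ.NCV

/-!
# No constant fan direction, as a claim
-/

set_option autoImplicit false

namespace Pool.KAZ

open Finset Real
open Pool.Agent.H49.Ent Pool.Agent.H32.Dense Pool.STK Pool.KA Pool.K2S

/-- **No constant fan direction.** If the fans lie on lines up to `2 ^ (-g)`, whose slopes are known
from the line and the window of length `2 ^ (-w)` up to `2 ^ (-g)`, then `g ≤ C (w + b₀ J)`. -/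
theorem ncv_claim (m : ℕ) {a R : ℝ} (ha : 1 ≤ a) (hR : 0 < R) (hU : UBa m a R) :
    ∃ C : ℝ, 0 < C ∧ ∀ b₀ : ℝ, 0 < b₀ → Claim (m := m) a R (fun J F A =>
      ∀ (w g : ℕ) (i₀ : Fin m) (e n : (Fin m → ℤ) × (ℕ × F.ζ) → Fin m → ℝ)
      (s : F.Ω → Fin m → ℝ), w ≤ J → g ≤ J →
      OnL i₀ (1 / 2 ^ g) (Fam.pt F) F.d A e n →
      (∀ ω, A ω → ∀ j, |e (Fam.pt F ω) j| ≤ 2) →
      (∀ ω ω', 0 < F.p ω → 0 < F.p ω' → A ω → A ω' → F.l ω = F.l ω' → F.T1 w ω = F.T1 w ω' →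
        F.Z ω = F.Z ω' → s ω = s ω') →
      (∀ ω, A ω → ∀ j, |e (Fam.pt F ω) j - s ω j| ≤ 1 / 2 ^ g) →
      (g : ℝ) ≤ C * (w + b₀ * J)) := by
  obtain ⟨C, hC, h⟩ := ncv_thm m a R ha hR hU
  refine ⟨C, hC, fun b₀ hb₀ => ?_⟩
  obtain ⟨τ, hτ, J₁, h1⟩ := h b₀ hb₀
  exact Claim.of hτ J₁ fun J hJ F A hS w g i₀ e n s => h1 J hJ F A hS w g i₀ e n s

/-- The same for the turning threshold: `RotU` with precisions at most `2 ^ (-g)` implies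
`g ≤ C (w + b₀ J)`. -/
theorem ncv_rot (m : ℕ) {a R : ℝ} (ha : 1 ≤ a) (hR : 0 < R) (hU : UBa m a R) :
    ∃ C : ℝ, 0 < C ∧ ∀ b₀ : ℝ, 0 < b₀ → Claim (m := m) a R (fun J F A =>
      ∀ (w g : ℕ) (i₀ : Fin m) (r₀ s₀ r ρ : ℝ) (e n : (Fin m → ℤ) × (ℕ × F.ζ) → Fin m → ℝ),
      w ≤ J → g ≤ J → 0 < s₀ → 2 * r₀ + 2 * r ≤ s₀ → r ≤ 1 / 2 ^ g → ρ ≤ 1 / 2 ^ g →
      IsFrame i₀ r₀ (Fam.pt F) F.d A e n → SpreadI i₀ s₀ (Fam.pt F) F.d A →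
      RotU i₀ r ρ (Fam.pt F) (fun ω => (F.l ω, (F.T1 w ω, F.Z ω))) F.d A →
      (g : ℝ) ≤ C * (w + b₀ * J)) := by
  obtain ⟨C, hC, h⟩ := ncv_claim m ha hR hU
  refine ⟨C, hC, fun b₀ hb₀ => (h b₀ hb₀).mono 0 ?_⟩
  intro J _ F A h1 w g i₀ r₀ s₀ r ρ e n hw hg hs₀ hrs hr hρ hfr hsp hrot
  obtain ⟨e', n', ζ, h2, h3⟩ := hrot
  refine h1 w g i₀ e' n' (fun ω => ζ (F.l ω, (F.T1 w ω, F.Z ω))) hw hg (h2.mono hr) ?_ ?_ ?_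
  · intro ω hω j
    exact OnL.bound hfr h2 hsp hs₀ hrs ω hω j
  · intro ω ω' _ _ _ _ f1 f2 f3
    show ζ (F.l ω, (F.T1 w ω, F.Z ω)) = ζ (F.l ω', (F.T1 w ω', F.Z ω'))
    rw [f1, f2, f3]
  · intro ω hω j
    exact (h3 ω hω j).trans hρ

end Pool.KAZ
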